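import Pool.Agent.W_55e385w_h22.Iff

set_option autoImplicit false

/-!
# The converse for all abelian groups of lamps
-/

namespace Pool.Agent.W_55e385w_h22

open scoped Pointwise
open W_55e385_h22 (HasExpandingSubgraph)

/-- The number of vectors of natural numbers with sum at most `M`. -/
theorem card_sum_le (ι : Type) [Fintype ι] [DecidableEq ι] {t : ℝ} (h0 : 0 < t) (h1 : t < 1)
    (M : ℕ) :
    (((Fintype.piFinset (fun _ : ι => Finset.range (M + 1))).filter
      (fun m => ∑ i, m i ≤ M)).card : ℝ) * t ^ M ≤ ((1 - t)⁻¹) ^ Fintype.card ι := by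
  calc (((Fintype.piFinset (fun _ : ι => Finset.range (M + 1))).filter
      (fun m => ∑ i, m i ≤ M)).card : ℝ) * t ^ M
      = ∑ m ∈ (Fintype.piFinset (fun _ : ι => Finset.range (M + 1))).filter
          (fun m => ∑ i, m i ≤ M), t ^ M := by rw [Finset.sum_const, nsmul_eq_mul]
    _ ≤ ∑ m ∈ (Fintype.piFinset (fun _ : ι => Finset.range (M + 1))).filter
          (fun m => ∑ i, m i ≤ M), ∏ i, t ^ (m i) := by
        refine Finset.sum_le_sum (fun m hm => ?_)
        rw [Finset.prod_pow_eq_pow_sum]
        exact pow_le_pow_of_le_one h0.le h1.le (Finset.mem_filter.1 hm).2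
    _ ≤ ∑ m ∈ Fintype.piFinset (fun _ : ι => Finset.range (M + 1)), ∏ i, t ^ (m i) :=
        Finset.sum_le_sum_of_subset_of_nonneg (Finset.filter_subset _ _)
          (fun m _ _ => by positivity)
    _ = ∏ _i : ι, ∑ j ∈ Finset.range (M + 1), t ^ j := by
        rw [Finset.prod_univ_sum]
    _ ≤ ∏ _i : ι, (1 - t)⁻¹ := by
        refine Finset.prod_le_prod (fun i _ => by positivity) (fun i _ => ?_)
        rw [← tsum_geometric_of_lt_one h0.le h1]
        exact (summable_geometric_of_lt_one h0.le h1).sum_le_tsum _ (fun i _ => by positivity)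
    _ = ((1 - t)⁻¹) ^ Fintype.card ι := by
        rw [Finset.prod_const, Finset.card_univ]

section

variable {A H X : Type} [AddCommGroup A] [Group H] [MulAction H X]

/-- `f` is a sum of at most `M` values in `V` at points of `W`. -/
def Rep (V : Finset A) (W : Finset X) (M : ℕ) (f : X →₀ A) : Prop :=
  ∃ m : X → A → ℕ, (∀ x ∉ W, ∀ v, m x v = 0) ∧ (∑ x ∈ W, ∑ v ∈ V, m x v ≤ M) ∧
    ∀ x, f x = ∑ v ∈ V, m x v • v

/-- The function with given multiplicities. -/
noncomputable def toF (V : Finset A) (W : Finset X) (m : W × V → ℕ) : X →₀ A :=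
  ∑ i, Finsupp.single (i.1 : X) (m i • (i.2 : A))

open scoped Classical in
theorem rep_mem {V : Finset A} {W : Finset X} {M : ℕ} {f : X →₀ A} (h : Rep V W M f) :
    ∃ m ∈ (Fintype.piFinset (fun _ : W × V => Finset.range (M + 1))).filter
      (fun m => ∑ i, m i ≤ M), toF V W m = f := by
  obtain ⟨m, h1, h2, h3⟩ := h
  have hsum : ∑ i : W × V, m i.1 i.2 = ∑ x ∈ W, ∑ v ∈ V, m x v := by
    rw [Fintype.sum_prod_type, ← Finset.sum_coe_sort W (fun x => ∑ v ∈ V, m x v)]
    refine Finset.sum_congr rfl (fun x _ => ?_)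
    exact Finset.sum_coe_sort V (fun v => m x v)
  refine ⟨fun i => m i.1 i.2, ?_, ?_⟩
  · rw [Finset.mem_filter, Fintype.mem_piFinset]
    refine ⟨fun i => ?_, by rw [hsum]; exact h2⟩
    rw [Finset.mem_range, Nat.lt_succ_iff]
    refine le_trans ?_ h2
    rw [← hsum]
    exact Finset.single_le_sum (f := fun i : W × V => m i.1 i.2) (fun _ _ => Nat.zero_le _)
      (Finset.mem_univ i)
  · ext x
    rw [toF, Finsupp.finsetSum_apply, Fintype.sum_prod_type, h3]
    by_cases hx : x ∈ W
    · rw [Finset.sum_eq_single (⟨x, hx⟩ : W)]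
      · rw [← Finset.sum_coe_sort V (fun v => m x v • v)]
        refine Finset.sum_congr rfl (fun v _ => ?_)
        simp
      · intro y _ hy
        refine Finset.sum_eq_zero (fun v _ => ?_)
        rw [Finsupp.single_apply, if_neg]
        intro h
        exact hy (Subtype.ext h)
      · intro h
        exact absurd (Finset.mem_univ _) h
    · rw [Finset.sum_eq_zero, Finset.sum_eq_zero]
      · intro v _
        rw [h1 x hx v, zero_smul]
      · intro y _
        refine Finset.sum_eq_zero (fun v _ => ?_)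
        rw [Finsupp.single_apply, if_neg]
        intro h
        exact hx (h ▸ y.2)

variable (p : List Bool → Multiplicative (X →₀ A) ⋊[lamps A H X] H)

theorem lamps_apply (g : H) (f : Multiplicative (X →₀ A)) (x : X) :
    ((lamps A H X g f).toAdd) x = f.toAdd (g⁻¹ • x) := by
  change (Finsupp.domCongr (MulAction.toPerm g) f.toAdd) x = _
  rw [Finsupp.domCongr_apply, Finsupp.equivMapDomain_apply]
  rfl

open scoped Classical in
theorem hs_rep {F : Finset X} {V : Finset A}
    (hF : ∀ l b, (((p l)⁻¹ * p (b :: l)).left.toAdd).support ⊆ F)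
    (hV : ∀ l b, ∀ x ∈ F, (((p l)⁻¹ * p (b :: l)).left.toAdd) x ∈ V) (l0 τ : List Bool) :
    Rep V (Vs F (hs p l0 τ)) (τ.length * F.card) (((p l0)⁻¹ * p (τ ++ l0)).left.toAdd) := by
  induction τ with
  | nil =>
    rw [List.nil_append, inv_mul_cancel]
    exact ⟨fun _ _ => 0, by simp, by simp, by simp⟩
  | cons b τ ih =>
    obtain ⟨m, h1, h2, h3⟩ := ih
    obtain ⟨hp, -⟩ := hs_path p hF l0 τ
    set y := (p l0)⁻¹ * p (τ ++ l0) with hy
    set u := (p (τ ++ l0))⁻¹ * p (b :: (τ ++ l0)) with hu
    set g : H := (hs p l0 τ).prod with hg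
    set W := Vs F (hs p l0 τ) with hW
    have hyu : (p l0)⁻¹ * p (b :: τ ++ l0) = y * u := by
      rw [hy, hu, List.cons_append]
      group
    have hW' : Vs F (hs p l0 (b :: τ)) = W ∪ F.image (fun x => g • x) := by
      rw [hs, Vs_append]
      have h3 : ∀ k : H, Vs F [k] = F := by intro k; simp [Vs]
      rw [h3]
    have hval : ∀ x, (y * u).left.toAdd x = y.left.toAdd x + u.left.toAdd (g⁻¹ • x) := by
      intro x
      rw [SemidirectProduct.mul_left]
      have h4 : (y.left * (lamps A H X) y.right u.left).toAdd =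
          y.left.toAdd + ((lamps A H X) y.right u.left).toAdd := rfl
      rw [h4, Finsupp.add_apply, lamps_apply, hp]
    rw [hyu, hW']
    refine ⟨fun x v => m x v + if x ∈ F.image (fun x => g • x) ∧ u.left.toAdd (g⁻¹ • x) = v
      then 1 else 0, ?_, ?_, ?_⟩
    · intro x hx v
      rw [Finset.mem_union, not_or] at hx
      beta_reduce
      rw [h1 x hx.1 v, if_neg (fun h => hx.2 h.1)]
    · simp only [Finset.sum_add_distrib]
      have e1 : ∑ x ∈ W ∪ F.image (fun x => g • x), ∑ v ∈ V, m x v =
          ∑ x ∈ W, ∑ v ∈ V, m x v := by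
        symm
        refine Finset.sum_subset Finset.subset_union_left (fun x _ hx => ?_)
        exact Finset.sum_eq_zero (fun v _ => h1 x hx v)
      have e2 : ∑ x ∈ W ∪ F.image (fun x => g • x), ∑ v ∈ V,
          (if x ∈ F.image (fun x => g • x) ∧ u.left.toAdd (g⁻¹ • x) = v then 1 else 0) ≤
          F.card := by
        calc ∑ x ∈ W ∪ F.image (fun x => g • x), ∑ v ∈ V,
              (if x ∈ F.image (fun x => g • x) ∧ u.left.toAdd (g⁻¹ • x) = v then 1 else 0)
            ≤ ∑ x ∈ W ∪ F.image (fun x => g • x),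
              (if x ∈ F.image (fun x => g • x) then 1 else 0) := by
              refine Finset.sum_le_sum (fun x _ => ?_)
              by_cases hx : x ∈ F.image (fun x => g • x)
              · simp only [hx, true_and, if_true]
                rw [Finset.sum_ite_eq]
                split_ifs <;> omega
              · simp [hx]
          _ = ((W ∪ F.image (fun x => g • x)).filter
                (fun x => x ∈ F.image (fun x => g • x))).card := by
              rw [Finset.card_filter]
          _ ≤ (F.image (fun x => g • x)).card := by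
              refine Finset.card_le_card (fun x hx => (Finset.mem_filter.1 hx).2)
          _ ≤ F.card := Finset.card_image_le
      rw [e1, List.length_cons, Nat.succ_mul]
      exact Nat.add_le_add h2 e2
    · intro x
      rw [hval, h3]
      simp only [add_smul, Finset.sum_add_distrib]
      congr 1
      by_cases hx : x ∈ F.image (fun x => g • x)
      · obtain ⟨z, hz, hzx⟩ := Finset.mem_image.1 hx
        have hz' : g⁻¹ • x = z := by rw [← hzx, inv_smul_smul]
        have hzV : u.left.toAdd z ∈ V := hV _ _ z hz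
        simp only [hx, true_and]
        rw [hz', Finset.sum_eq_single (u.left.toAdd z)]
        · simp
        · intro v _ hv
          rw [if_neg (fun h => hv h.symm), zero_smul]
        · intro h
          exact absurd hzV h
      · have hz : g⁻¹ • x ∉ F := by
          intro h
          exact hx (Finset.mem_image.2 ⟨_, h, smul_inv_smul g x⟩)
        have h0 : u.left.toAdd (g⁻¹ • x) = 0 := by
          by_contra h
          exact hz (hF _ _ (Finsupp.mem_support_iff.2 h))
        rw [h0, Finset.sum_eq_zero]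
        intro v _
        rw [if_neg (fun h => hx h.1), zero_smul]

end

section

variable {A H X : Type} [AddCommGroup A] [Group H] [MulAction H X]

variable {B : Type} [AddCommGroup B] {c : B}

open scoped Classical in
theorem indicator_support (hc : c ≠ 0) (W : Finset X) :
    (Finsupp.indicator W (fun _ _ => c)).support = W := by
  ext x
  rw [Finsupp.mem_support_iff, Finsupp.indicator_apply]
  by_cases h : x ∈ W
  · simp [h, hc]
  · simp [h]

open scoped Classical in
/-- The elements with a support and an `H`-coordinate given by `P` and values in `V`. -/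
noncomputable def outs (V : Finset A)
    (P : Finset (Multiplicative (X →₀ B) ⋊[lamps B H X] H)) (q a M : ℕ) :
    Finset (Multiplicative (X →₀ A) ⋊[lamps A H X] H) :=
  (P.filter (fun z => q * z.left.toAdd.support.card ≤ a)).biUnion fun z =>
    (((Fintype.piFinset (fun _ : z.left.toAdd.support × V => Finset.range (M + 1))).filter
      (fun m => ∑ i, m i ≤ M)).image (toF V z.left.toAdd.support)).image
        (fun f => ⟨Multiplicative.ofAdd f, z.right⟩)

theorem mem_outs (hc : c ≠ 0) {V : Finset A}
    {P : Finset (Multiplicative (X →₀ B) ⋊[lamps B H X] H)} {q a M : ℕ}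
    {W : Finset X} {g : H}
    (hz : (⟨Multiplicative.ofAdd (Finsupp.indicator W (fun _ _ => c)), g⟩ :
      Multiplicative (X →₀ B) ⋊[lamps B H X] H) ∈ P) (hW : q * W.card ≤ a)
    {f : X →₀ A} (hf : Rep V W M f) :
    (⟨Multiplicative.ofAdd f, g⟩ : Multiplicative (X →₀ A) ⋊[lamps A H X] H) ∈
      outs V P q a M := by
  classical
  generalize hzd : (⟨Multiplicative.ofAdd (Finsupp.indicator W (fun _ _ => c)), g⟩ :
      Multiplicative (X →₀ B) ⋊[lamps B H X] H) = z at hz
  have h1 : z.left.toAdd.support = W := by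
    rw [← hzd]
    exact indicator_support hc W
  have h2 : z.right = g := by rw [← hzd]
  have h3 : Rep V z.left.toAdd.support M f := by rw [h1]; exact hf
  obtain ⟨m, hm1, hm2⟩ := rep_mem h3
  rw [outs, Finset.mem_biUnion]
  refine ⟨z, Finset.mem_filter.2 ⟨hz, by rw [h1]; exact hW⟩, ?_⟩
  rw [← h2]
  exact Finset.mem_image.2 ⟨f, Finset.mem_image.2 ⟨m, hm1, hm2⟩, rfl⟩

theorem card_outs {V : Finset A}
    {P : Finset (Multiplicative (X →₀ B) ⋊[lamps B H X] H)} {q a M : ℕ} {β t : ℝ}
    (ht0 : 0 < t) (ht1 : t < 1) (hβ : 1 ≤ β) (hqV : ((1 - t)⁻¹) ^ V.card ≤ β ^ q) :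
    ((outs V P q a M).card : ℝ) * t ^ M ≤ P.card * β ^ a := by
  classical
  have h1 : ∀ z ∈ P.filter (fun z => q * z.left.toAdd.support.card ≤ a),
      ((((((Fintype.piFinset (fun _ : z.left.toAdd.support × V => Finset.range (M + 1))).filter
      (fun m => ∑ i, m i ≤ M)).image (toF V z.left.toAdd.support)).image
        (fun f => (⟨Multiplicative.ofAdd f, z.right⟩ :
          Multiplicative (X →₀ A) ⋊[lamps A H X] H))).card : ℕ) : ℝ) * t ^ M ≤ β ^ a := by
    intro z hz
    have hz' := (Finset.mem_filter.1 hz).2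
    set W := z.left.toAdd.support with hW
    have h3 := card_sum_le (W × V) ht0 ht1 M
    have h4 : ((1 - t)⁻¹) ^ Fintype.card (W × V) ≤ β ^ a := by
      rw [Fintype.card_prod, Fintype.card_coe, Fintype.card_coe, mul_comm, pow_mul]
      calc (((1 - t)⁻¹) ^ V.card) ^ W.card ≤ (β ^ q) ^ W.card :=
            pow_le_pow_left₀ (by
              have : 0 < 1 - t := by linarith
              positivity) hqV _
        _ = β ^ (q * W.card) := by rw [← pow_mul]
        _ ≤ β ^ a := pow_le_pow_right₀ hβ hz'
    refine le_trans (mul_le_mul_of_nonneg_right ?_ (by positivity)) (h3.trans h4)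
    exact_mod_cast Finset.card_image_le.trans Finset.card_image_le
  have h2 : ((outs V P q a M).card : ℝ) ≤
      ∑ z ∈ P.filter (fun z => q * z.left.toAdd.support.card ≤ a),
      ((((((Fintype.piFinset (fun _ : z.left.toAdd.support × V => Finset.range (M + 1))).filter
      (fun m => ∑ i, m i ≤ M)).image (toF V z.left.toAdd.support)).image
        (fun f => (⟨Multiplicative.ofAdd f, z.right⟩ :
          Multiplicative (X →₀ A) ⋊[lamps A H X] H))).card : ℕ) : ℝ) := by
    exact_mod_cast Finset.card_biUnion_le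
  have h3 : ((P.filter (fun z => q * z.left.toAdd.support.card ≤ a)).card : ℝ) ≤ P.card := by
    exact_mod_cast Finset.card_filter_le _ _
  calc ((outs V P q a M).card : ℝ) * t ^ M ≤ _ :=
        mul_le_mul_of_nonneg_right h2 (by positivity)
    _ = ∑ z ∈ P.filter (fun z => q * z.left.toAdd.support.card ≤ a),
      ((((((Fintype.piFinset (fun _ : z.left.toAdd.support × V => Finset.range (M + 1))).filter
      (fun m => ∑ i, m i ≤ M)).image (toF V z.left.toAdd.support)).image
        (fun f => (⟨Multiplicative.ofAdd f, z.right⟩ :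
          Multiplicative (X →₀ A) ⋊[lamps A H X] H))).card : ℕ) : ℝ) * t ^ M := by
        rw [Finset.sum_mul]
    _ ≤ ∑ z ∈ P.filter (fun z => q * z.left.toAdd.support.card ≤ a), β ^ a :=
        Finset.sum_le_sum h1
    _ = ((P.filter (fun z => q * z.left.toAdd.support.card ≤ a)).card : ℝ) * β ^ a := by
        rw [Finset.sum_const, nsmul_eq_mul]
    _ ≤ P.card * β ^ a := mul_le_mul_of_nonneg_right h3 (by positivity)

open scoped Classical in
theorem steps_abel [Finite B] (hc : c ≠ 0) {U : Finset H} {F : Finset X} {V : Finset A} {C : ℝ}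
    (hgr : ∀ n, ((U ^ n).card : ℝ) ≤ C * (21 / 20) ^ n)
    (p : List Bool → Multiplicative (X →₀ A) ⋊[lamps A H X] H)
    (hinj : ∀ l0 τ τ' : List Bool, τ.length = τ'.length → p (τ ++ l0) = p (τ' ++ l0) → τ = τ')
    (hU : ∀ l b, ((p l)⁻¹ * p (b :: l)).right ∈ U)
    (hF : ∀ l b, (((p l)⁻¹ * p (b :: l)).left.toAdd).support ⊆ F)
    (hV : ∀ l b, ∀ x ∈ F, (((p l)⁻¹ * p (b :: l)).left.toAdd) x ∈ V) :
    ∃ (q a0 : ℕ), ∀ n, ∃ w : List H, w.length = n ∧ (∀ s ∈ w, s ∈ U) ∧
      ∀ v, v <:+: w → a0 ≤ v.length → v.length < q * (Vs F v).card := by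
  -- the labels
  obtain ⟨E, hE⟩ : ∃ E : Finset (Multiplicative (X →₀ B) ⋊[lamps B H X] H),
      ∀ φ : X →₀ B, φ.support ⊆ F →
        SemidirectProduct.inl (Multiplicative.ofAdd φ) ∈ E := by
    have hfin : ({φ : X →₀ B | φ.support ⊆ F} : Set (X →₀ B)).Finite := by
      have : Finite (F → B) := inferInstance
      refine Set.Finite.of_injOn (f := fun φ (x : F) => φ x)
        (t := (Set.univ : Set (F → B))) (fun _ _ => Set.mem_univ _) ?_ Set.finite_univ
      intro φ hφ ψ hψ h
      ext x
      by_cases hx : x ∈ F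
      · exact congrFun h ⟨x, hx⟩
      · have h1 : φ x = 0 := by
          by_contra h2
          exact hx (hφ (Finsupp.mem_support_iff.2 h2))
        have h3 : ψ x = 0 := by
          by_contra h2
          exact hx (hψ (Finsupp.mem_support_iff.2 h2))
        rw [h1, h3]
    refine ⟨hfin.toFinset.image (fun φ => SemidirectProduct.inl (Multiplicative.ofAdd φ)), ?_⟩
    intro φ hφ
    exact Finset.mem_image.2 ⟨φ, hfin.mem_toFinset.2 hφ, rfl⟩
  set J : ℕ → Finset (Multiplicative (X →₀ B) ⋊[lamps B H X] H) :=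
    fun d => (U ^ d).image SemidirectProduct.inr with hJ
  have hC0 : 0 ≤ C := by
    have := hgr 0
    rw [pow_zero, pow_zero, mul_one] at this
    exact le_trans (by positivity) this
  -- the generating function
  set Γ : ℝ := C * (1 - 189 / 200)⁻¹ + 1 with hΓ
  have hΓ1 : 1 ≤ Γ := by
    rw [hΓ]
    have : 0 ≤ C * (1 - 189 / 200 : ℝ)⁻¹ := by positivity
    linarith
  have hΓb : ∀ n, ∑ d ∈ Finset.range (n + 1), ((J d).card : ℝ) * (9 / 10) ^ d ≤ Γ := by
    intro n
    calc ∑ d ∈ Finset.range (n + 1), ((J d).card : ℝ) * (9 / 10) ^ d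
        ≤ ∑ d ∈ Finset.range (n + 1), C * (189 / 200) ^ d := by
          refine Finset.sum_le_sum (fun d _ => ?_)
          have h1 : ((J d).card : ℝ) ≤ C * (21 / 20) ^ d := by
            refine le_trans ?_ (hgr d)
            exact_mod_cast Finset.card_image_le
          calc ((J d).card : ℝ) * (9 / 10) ^ d ≤ C * (21 / 20) ^ d * (9 / 10) ^ d :=
                mul_le_mul_of_nonneg_right h1 (by positivity)
            _ = C * (189 / 200) ^ d := by
                rw [mul_assoc, ← mul_pow]
                norm_num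
      _ = C * ∑ d ∈ Finset.range (n + 1), (189 / 200 : ℝ) ^ d := by rw [Finset.mul_sum]
      _ ≤ C * (1 - 189 / 200)⁻¹ := by
          refine mul_le_mul_of_nonneg_left ?_ hC0
          rw [← tsum_geometric_of_lt_one (show (0 : ℝ) ≤ 189 / 200 by norm_num) (by norm_num)]
          exact (summable_geometric_of_lt_one (by norm_num) (by norm_num)).sum_le_tsum _
            (fun i _ => by positivity)
      _ ≤ Γ := by rw [hΓ]; linarith
  -- the parameters
  set κ : ℝ := 1 / (50 * (F.card + 1)) with hκ
  have hκ0 : 0 < κ := by positivity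
  have hκ1 : κ ≤ 1 / 50 := by
    rw [hκ]
    refine one_div_le_one_div_of_le (by norm_num) ?_
    have : (0 : ℝ) ≤ F.card := Nat.cast_nonneg _
    linarith
  set t : ℝ := 1 - κ with ht
  have ht0 : 0 < t := by rw [ht]; linarith
  have ht1 : t < 1 := by rw [ht]; linarith
  have htF : 49 / 50 ≤ t ^ F.card := by
    have h1 := one_add_mul_le_pow (show (-2 : ℝ) ≤ -κ by linarith) F.card
    have h2 : (F.card : ℝ) * κ ≤ 1 / 50 := by
      rw [hκ, mul_one_div, div_le_div_iff₀ (by positivity) (by norm_num)]
      linarith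
    have h3 : (1 + -κ : ℝ) = t := by rw [ht]; ring
    rw [h3] at h1
    linarith
  obtain ⟨q, hq, hqV⟩ : ∃ q : ℕ, (E.card : ℝ) * Γ ≤ (27 / 25) ^ q ∧
      ((1 - t)⁻¹) ^ V.card ≤ (50 / 49 : ℝ) ^ q := by
    obtain ⟨q1, hq1⟩ := pow_unbounded_of_one_lt ((E.card : ℝ) * Γ)
      (show (1 : ℝ) < 27 / 25 by norm_num)
    obtain ⟨q2, hq2⟩ := pow_unbounded_of_one_lt (((1 - t)⁻¹) ^ V.card)
      (show (1 : ℝ) < 50 / 49 by norm_num)
    refine ⟨max q1 q2, hq1.le.trans (pow_le_pow_right₀ (by norm_num) (le_max_left _ _)),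
      hq2.le.trans (pow_le_pow_right₀ (by norm_num) (le_max_right _ _))⟩
  have hPP : ∀ a, ((PP J E a (a / q)).card : ℝ) ≤ Γ * (6 / 5) ^ a := by
    intro a
    have h1 := PP_card (J := J) (E := E) (show (0 : ℝ) < 9 / 10 by norm_num) hΓb (by linarith) a
      (a / q)
    have h2 : ((E.card : ℝ) * Γ) ^ (a / q) ≤ (27 / 25) ^ a := by
      calc ((E.card : ℝ) * Γ) ^ (a / q) ≤ ((27 / 25 : ℝ) ^ q) ^ (a / q) :=
            pow_le_pow_left₀ (by positivity) hq _
        _ = (27 / 25) ^ (q * (a / q)) := by rw [← pow_mul]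
        _ ≤ (27 / 25) ^ a := pow_le_pow_right₀ (by norm_num) (Nat.mul_div_le a q)
    have h3 : ((PP J E a (a / q)).card : ℝ) * (9 / 10) ^ a ≤ Γ * (27 / 25) ^ a :=
      h1.trans (mul_le_mul_of_nonneg_left h2 (by linarith))
    have h4 : (6 / 5 : ℝ) ^ a * (9 / 10) ^ a = (27 / 25) ^ a := by
      rw [← mul_pow]; norm_num
    have h5 : (0 : ℝ) < (9 / 10) ^ a := by positivity
    refine le_of_mul_le_mul_right ?_ h5
    rw [mul_assoc, h4]
    exact h3
  -- the outcomes of bad paths
  have hOutc : ∀ a, ((outs V (PP J E a (a / q)) q a (a * F.card)).card : ℝ) ≤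
      Γ * (5 / 4) ^ a := by
    intro a
    have h1 := card_outs (P := PP J E a (a / q)) (q := q) (a := a) (M := a * F.card) ht0 ht1
      (show (1 : ℝ) ≤ 50 / 49 by norm_num) hqV
    have h2 : (49 / 50 : ℝ) ^ a ≤ t ^ (a * F.card) := by
      rw [mul_comm a, pow_mul]
      exact pow_le_pow_left₀ (by norm_num) htF a
    have h3 : ((outs V (PP J E a (a / q)) q a (a * F.card)).card : ℝ) * (49 / 50) ^ a ≤
        Γ * (6 / 5) ^ a * (50 / 49) ^ a :=
      (mul_le_mul_of_nonneg_left h2 (Nat.cast_nonneg _)).trans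
        (h1.trans (mul_le_mul_of_nonneg_right (hPP a) (by positivity)))
    have h4 : (0 : ℝ) < (49 / 50) ^ a := by positivity
    refine le_of_mul_le_mul_right (h3.trans ?_) h4
    rw [mul_assoc, mul_assoc, ← mul_pow, ← mul_pow]
    exact mul_le_mul_of_nonneg_left (pow_le_pow_left₀ (by norm_num) (by norm_num) a)
      (by linarith)
  set bad : List Bool → List Bool → Prop :=
    fun l0 τ => q * (Vs F (hs p l0 τ)).card ≤ τ.length with hbad
  have hJ0 : (1 : Multiplicative (X →₀ B) ⋊[lamps B H X] H) ∈ J 0 := by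
    refine Finset.mem_image.2 ⟨1, ?_, map_one _⟩
    rw [pow_zero]
    exact Finset.mem_one.2 rfl
  have hE1 : (1 : Multiplicative (X →₀ B) ⋊[lamps B H X] H) ∈ E := by
    have := hE 0 (by simp)
    rwa [ofAdd_zero, map_one] at this
  have hhsU : ∀ l0 τ, ∀ h ∈ hs p l0 τ, h ∈ U := by
    intro l0 τ
    induction τ with
    | nil => intro h hh; simp [hs] at hh
    | cons b τ ih =>
      intro h hh
      rw [hs, List.mem_append, List.mem_singleton] at hh
      rcases hh with hh | rfl
      · exact ih h hh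
      · exact hU _ _
  rcases Nat.eq_zero_or_pos q with hq0 | hq0
  · -- then nothing is needed
    exfalso
    rw [hq0, pow_zero] at hq
    have h1 : (1 : ℝ) ≤ E.card := by
      have : 1 ≤ E.card := Finset.card_pos.2 ⟨1, hE1⟩
      exact_mod_cast this
    have hΓ2 : 1 < Γ := by
      rw [hΓ]
      have hC1 : 0 < C := by
        have := hgr 0
        rw [pow_zero, pow_zero, mul_one, Finset.card_one, Nat.cast_one] at this
        linarith
      have : 0 < C * (1 - 189 / 200 : ℝ)⁻¹ := by positivity
      linarith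
    nlinarith
  obtain ⟨a0, ha0⟩ := exists_ok (bad := bad) (K := Γ) (by linarith) (by
    intro l0 a
    set Sset : Set (List Bool) :=
      {τ | τ.length = a ∧ (p l0)⁻¹ * p (τ ++ l0) ∈
        outs V (PP J E a (a / q)) q a (a * F.card)} with hS
    have hinjOn : Set.InjOn (fun τ => (p l0)⁻¹ * p (τ ++ l0)) Sset := by
      intro τ h1 τ' h2 h
      exact hinj l0 τ τ' (h1.1.trans h2.1.symm) (mul_left_cancel h)
    have hmaps : Set.MapsTo (fun τ => (p l0)⁻¹ * p (τ ++ l0)) Sset
        (outs V (PP J E a (a / q)) q a (a * F.card) :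
          Set (Multiplicative (X →₀ A) ⋊[lamps A H X] H)) := fun τ h => h.2
    have hfin : Sset.Finite := Set.Finite.of_injOn hmaps hinjOn (Finset.finite_toSet _)
    refine ⟨hfin.toFinset, ?_, ?_⟩
    · intro τ h1 h2
      rw [hfin.mem_toFinset]
      refine ⟨h1, ?_⟩
      obtain ⟨h3, -⟩ := hs_path p hF l0 τ
      have h7 : q * (Vs F (hs p l0 τ)).card ≤ a := by rw [← h1]; exact h2
      have h5 := mem_PP hE (hs p l0 τ) (hhsU l0 τ)
        (Finsupp.indicator (Vs F (hs p l0 τ)) (fun _ _ => c))
        (by rw [indicator_support hc])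
      rw [hs_length, h1] at h5
      have h6 : (⟨Multiplicative.ofAdd (Finsupp.indicator (Vs F (hs p l0 τ))
          (fun _ _ => c)), (hs p l0 τ).prod⟩ :
          Multiplicative (X →₀ B) ⋊[lamps B H X] H) ∈ PP J E a (a / q) := by
        refine PP_mono hJ0 hE1 ?_ h5
        rw [Nat.le_div_iff_mul_le hq0, mul_comm]
        exact h7
      have h8 := hs_rep p hF hV l0 τ
      rw [h1] at h8
      have h9 := mem_outs hc h6 h7 h8
      have h10 : (p l0)⁻¹ * p (τ ++ l0) =
          ⟨Multiplicative.ofAdd (((p l0)⁻¹ * p (τ ++ l0)).left.toAdd), (hs p l0 τ).prod⟩ := by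
        apply SemidirectProduct.ext
        · rfl
        · exact h3
      rw [h10]
      exact h9
    · refine le_trans ?_ (hOutc a)
      have h1 : hfin.toFinset.card ≤ (outs V (PP J E a (a / q)) q a (a * F.card)).card := by
        refine Finset.card_le_card_of_injOn (fun τ => (p l0)⁻¹ * p (τ ++ l0)) ?_ ?_
        · intro τ hτ
          exact hmaps (hfin.mem_toFinset.1 hτ)
        · intro τ h1 τ' h2 h
          exact hinjOn (hfin.mem_toFinset.1 h1) (hfin.mem_toFinset.1 h2) h
      exact_mod_cast h1)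
  refine ⟨q, a0, fun n => ?_⟩
  obtain ⟨l, hl, hok⟩ := ha0 n
  refine ⟨hs p [] l, by rw [hs_length, hl], hhsU [] l, ?_⟩
  rintro v ⟨s, t, hst⟩ hv
  -- decompose `l`
  have hlen : s.length + v.length + t.length = l.length := by
    have := congrArg List.length hst
    rw [hs_length] at this
    simp only [List.length_append] at this
    omega
  set τ' := l.take t.length with hτ'
  set τ := (l.drop t.length).take v.length with hτ
  set l0 := (l.drop t.length).drop v.length with hl0
  have hdec : l = τ' ++ (τ ++ l0) := by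
    rw [hτ, hl0, List.take_append_drop, hτ', List.take_append_drop]
  have hτl : τ.length = v.length := by
    rw [hτ, List.length_take, List.length_drop]
    omega
  have hl0l : l0.length = s.length := by
    rw [hl0, List.length_drop, List.length_drop]
    omega
  have h1 := hok τ' τ l0 hdec (by omega)
  have h2 : hs p [] l = hs p [] l0 ++ (hs p l0 τ ++ hs p (τ ++ l0) τ') := by
    have h3 := hs_append p [] (τ ++ l0) τ'
    have h4 := hs_append p [] l0 τ
    rw [List.append_nil] at h3 h4
    rw [hdec, h3, h4, List.append_assoc]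
  have h3 : s ++ (v ++ t) = hs p [] l0 ++ (hs p l0 τ ++ hs p (τ ++ l0) τ') := by
    rw [← h2, ← hst, List.append_assoc]
  have h4 := List.append_inj h3 (by rw [hs_length, hl0l])
  have h5 := List.append_inj h4.2 (by rw [hs_length, hτl])
  have h6 : ¬ q * (Vs F (hs p l0 τ)).card ≤ τ.length := h1
  rw [← h5.1, hτl] at h6
  omega

/-- The converse. -/
theorem good_of_expand_abel [MulAction.IsPretransitive H X] [Nonempty X] (h : Subexp H)
    {T : Set (Multiplicative (X →₀ A) ⋊[lamps A H X] H)} (hTf : T.Finite)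
    (hE : HasExpandingSubgraph (SimpleGraph.mulCayley T)) : Good H X := by
  classical
  obtain ⟨B, p, hB, hinj, hp⟩ := tree_of_subgraph hTf hE
  obtain ⟨o⟩ := ‹Nonempty X›
  set U : Finset H := hB.toFinset.image (fun x => x.right) with hU
  set F : Finset X := hB.toFinset.biUnion (fun x => x.left.toAdd.support) with hF
  set V : Finset A := (hB.toFinset ×ˢ F).image (fun x => x.1.left.toAdd x.2) with hV
  obtain ⟨C, hC⟩ := pow_card h U
  obtain ⟨q, a0, hst⟩ := steps_abel (B := ZMod 2) (c := 1) one_ne_zero (U := U) (F := F) (V := V) hC p hinj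
    (fun l b => Finset.mem_image.2 ⟨_, hB.mem_toFinset.2 (hp l b), rfl⟩)
    (fun l b => Finset.subset_biUnion_of_mem (fun x => x.left.toAdd.support)
      (hB.mem_toFinset.2 (hp l b)))
    (fun l b x hx => Finset.mem_image.2
      ⟨((p l)⁻¹ * p (b :: l), x), Finset.mem_product.2 ⟨hB.mem_toFinset.2 (hp l b), hx⟩, rfl⟩)
  exact good_of_steps o hst

end

end Pool.Agent.W_55e385w_h22
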