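import Pool.Agent.W_55e385w_h22.Fill

set_option autoImplicit false

/-!
# The words `W 0, W 1, ...`
-/

namespace Pool.Agent.W_55e385w_h22

/-- The lengths: `(nt q B M l).1` is the length of `W l`, and `(nt q B M l).2 m` is the length of
a filled word of level `m ≤ l`. -/
def nt (q B : ℕ) (M : ℕ → ℕ) : ℕ → ℕ × (ℕ → ℕ)
  | 0 => (B, fun _ => B)
  | l + 1 => ((q + 1) * (nt q B M l).1 + q * (nt q B M l).2 (M l),
      fun m => if m = l + 1 then q * ((nt q B M l).2 l + 2 * (nt q B M l).1)
        else (nt q B M l).2 m)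

/-- The length of `W l`. -/
def nn (q B : ℕ) (M : ℕ → ℕ) (l : ℕ) : ℕ := (nt q B M l).1

/-- The length of a filled word of level `m`. -/
def tt (q B : ℕ) (M : ℕ → ℕ) (m : ℕ) : ℕ := (nt q B M m).2 m

section

variable (q B : ℕ) (M : ℕ → ℕ)

theorem nt_two {l m : ℕ} (h : m ≤ l) : (nt q B M l).2 m = tt q B M m := by
  induction l with
  | zero =>
    rw [Nat.le_zero.1 h]
    rfl
  | succ l ih =>
    rcases Nat.eq_or_lt_of_le h with rfl | h1
    · rfl
    · rw [nt]
      change (if m = l + 1 then _ else _) = _
      rw [if_neg (by omega)]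
      exact ih (by omega)

theorem nn_zero : nn q B M 0 = B := rfl

theorem tt_zero : tt q B M 0 = B := rfl

theorem nn_succ (hM : ∀ l, M l ≤ l) (l : ℕ) :
    nn q B M (l + 1) = (q + 1) * nn q B M l + q * tt q B M (M l) := by
  rw [← nt_two q B M (hM l)]
  rfl

theorem tt_succ (l : ℕ) :
    tt q B M (l + 1) = q * (tt q B M l + 2 * nn q B M l) := by
  rw [tt, nt]
  change (if l + 1 = l + 1 then _ else _) = _
  rw [if_pos rfl]
  rfl

variable (hM : ∀ l, M l ≤ l) (hq : 1 ≤ q)

include hM in
theorem nn_step (l : ℕ) : (q + 1) * nn q B M l ≤ nn q B M (l + 1) := by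
  rw [nn_succ q B M hM]
  omega

include hM in
theorem nn_mono {i j : ℕ} (h : i ≤ j) : nn q B M i ≤ nn q B M j := by
  induction j, h using Nat.le_induction with
  | base => exact le_rfl
  | succ j _ ih =>
    refine ih.trans (le_trans ?_ (nn_step q B M hM j))
    nlinarith

include hq in
theorem tt_mono {i j : ℕ} (h : i ≤ j) : tt q B M i ≤ tt q B M j := by
  induction j, h using Nat.le_induction with
  | base => exact le_rfl
  | succ j _ ih =>
    refine ih.trans ?_
    rw [tt_succ]
    nlinarith

include hM hq in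
theorem tt_le (l : ℕ) : tt q B M l ≤ 2 * q * nn q B M l := by
  induction l with
  | zero => rw [tt_zero, nn_zero]; nlinarith
  | succ l ih =>
    rw [tt_succ]
    have := nn_step q B M hM l
    nlinarith

include hM in
theorem nn_pow {i j : ℕ} (h : i ≤ j) : nn q B M i * (q + 1) ^ (j - i) ≤ nn q B M j := by
  induction j, h using Nat.le_induction with
  | base => simp
  | succ j hj ih =>
    refine le_trans ?_ (nn_step q B M hM j)
    rw [show j + 1 - i = (j - i) + 1 by omega, pow_succ]
    nlinarith

end

section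

variable {H X : Type} [Group H] [MulAction H X] (o : X)

open scoped Classical in
theorem select {S : Set H} {r N0 k : ℕ} {ρ : ℝ} (hρ : 0 ≤ ρ) (w : List H)
    (F : List H → List H)
    (spr : ∀ A C : Finset X, ∃ h : List H, (∀ s ∈ h, s ∈ S) ∧ h.length = r ∧
      ((A ∩ C.image (fun y => h.prod • y)).card : ℝ) ≤ A.card * C.card * ρ)
    (hF : ∀ h : List H, h.length = r → (F h).prod = h.prod)
    (hN : ∀ cs : List (List H), cs.length ≤ k →
      (∀ c ∈ cs, ∃ h : List H, (∀ s ∈ h, s ∈ S) ∧ h.length = r ∧ c = F h) →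
      (joinW w cs).length + 1 ≤ N0) :
    ∃ cs : List (List H), cs.length = k ∧
      (∀ c ∈ cs, ∃ h : List H, (∀ s ∈ h, s ∈ S) ∧ h.length = r ∧ c = F h) ∧
      ∀ c (ds : List (List H)), c :: ds <:+ cs →
        (((vis o w).image (fun y => w.prod⁻¹ • y) ∩
          (vis o (joinW w ds)).image (fun y => c.prod • y)).card : ℝ) ≤
            (vis o w).card * (N0 * ρ) := by
  induction k with
  | zero =>
    refine ⟨[], rfl, by simp, ?_⟩
    intro c ds h
    have := h.length_le
    simp at this
  | succ k ih =>
    obtain ⟨cs, h1, h2, h3⟩ := ih (fun cs hk hc => hN cs (by omega) hc)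
    obtain ⟨h, h4, h5, h6⟩ := spr ((vis o w).image (fun y => w.prod⁻¹ • y)) (vis o (joinW w cs))
    refine ⟨F h :: cs, by simp [h1], ?_, ?_⟩
    · intro c hc
      rcases List.mem_cons.1 hc with rfl | hc
      · exact ⟨h, h4, h5, rfl⟩
      · exact h2 c hc
    · intro c ds hs
      rcases List.suffix_cons_iff.1 hs with h7 | h7
      · obtain ⟨rfl, rfl⟩ := List.cons.inj h7
        rw [hF h h5]
        refine h6.trans ?_
        rw [card_smul]
        have h8 : ((vis o (joinW w ds)).card : ℝ) ≤ N0 := by
          have := (card_vis_le o (joinW w ds)).trans (hN ds (by omega) h2)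
          exact_mod_cast this
        rw [mul_assoc]
        exact mul_le_mul_of_nonneg_left (mul_le_mul_of_nonneg_right h8 hρ) (Nat.cast_nonneg _)
      · exact h3 c ds h7

/-- The lower bounds for the number of visited points. -/
noncomputable def Vn (q : ℕ) (x : ℕ → ℝ) : ℕ → ℝ
  | 0 => 1
  | l + 1 => (q + 1) * Vn q x l * (1 - x l)

/-- The words up to level `L`. -/
structure Lev (o : X) (S : Set H) (q B : ℕ) (M : ℕ → ℕ) (x : ℕ → ℝ) (L : ℕ)
    (W : ℕ → List H) : Prop where
  len : ∀ i ≤ L, (W i).length = nn q B M i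
  mem : ∀ i ≤ L, ∀ s ∈ W i, s ∈ S
  cv : ∀ i j, i ≤ j → j ≤ L →
    Cv (2 * nn q B M i + tt q B M i) (nn q B M i) (nn q B M i) (W i) (W j)
  vis : ∀ i ≤ L, Vn q x i ≤ ((vis o (W i)).card : ℝ)

open scoped Classical in
theorem exists_lev {S : Set H} (hS : ∀ s ∈ S, s⁻¹ ∈ S) (hne : S.Nonempty) {q B : ℕ}
    (hq : 1 ≤ q) {M : ℕ → ℕ} (hM : ∀ l, M l ≤ l) (ρ : ℕ → ℝ) (hρ : ∀ r, 0 ≤ ρ r)
    (x : ℕ → ℝ) (hx : ∀ l, x l = (nn q B M (l + 1) + 1 : ℕ) * ρ (B * q ^ M l))
    (hx1 : ∀ l, x l ≤ 1)
    (spr : ∀ l (A C : Finset X), ∃ h : List H, (∀ s ∈ h, s ∈ S) ∧ h.length = B * q ^ M l ∧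
      ((A ∩ C.image (fun y => h.prod • y)).card : ℝ) ≤ A.card * C.card * ρ (B * q ^ M l))
    (L : ℕ) : ∃ W : ℕ → List H, Lev o S q B M x L W := by
  induction L with
  | zero =>
    obtain ⟨s, hs⟩ := hne
    refine ⟨fun _ => List.replicate B s, ⟨?_, ?_, ?_, ?_⟩⟩
    · intro i hi
      rw [Nat.le_zero.1 hi, List.length_replicate, nn_zero]
    · intro i _ s' hs'
      rw [List.eq_of_mem_replicate hs']
      exact hs
    · intro i j hij hj
      rw [show i = 0 by omega]
      have h := Cv.self (b := List.replicate B s) (D := 2 * nn q B M 0 + tt q B M 0)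
        (by rw [List.length_replicate, nn_zero]; omega)
      rw [List.length_replicate] at h
      exact h
    · intro i hi
      rw [Nat.le_zero.1 hi, Vn]
      exact_mod_cast card_vis_pos o _
  | succ L ih =>
    obtain ⟨W, hW⟩ := ih
    have hT : ∀ h : List H, h.length = B * q ^ M L →
        (T B q W (M L) h).length = tt q B M (M L) := fun h hh =>
      T_len (tt_zero q B M) (tt_succ q B M) (M L)
        (fun i hi => hW.len i (by have := hM L; omega)) h hh
    obtain ⟨cs, h1, h2, h3⟩ := select (S := S) (r := B * q ^ M L) (N0 := nn q B M (L + 1) + 1)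
      (k := q) o (hρ _) (W L) (T B q W (M L)) (spr L)
      (fun h hh => T_prod (M L) h hh) (by
        intro cs hk hc
        have h4 : ∀ u ∈ cs, u.length = tt q B M (M L) := by
          intro u hu
          obtain ⟨h, _, h5, rfl⟩ := hc u hu
          exact hT h h5
        rw [join_len (W L) cs h4, hW.len L le_rfl, nn_succ q B M hM]
        have h5 : (cs.length + 1) * nn q B M L ≤ (q + 1) * nn q B M L :=
          Nat.mul_le_mul_right _ (by omega)
        have h6 : cs.length * tt q B M (M L) ≤ q * tt q B M (M L) :=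
          Nat.mul_le_mul_right _ hk
        omega)
    have hlen : ∀ u ∈ cs, u.length = tt q B M (M L) := by
      intro u hu
      obtain ⟨h, _, h5, rfl⟩ := h2 u hu
      exact hT h h5
    have hnew : (joinW (W L) cs).length = nn q B M (L + 1) := by
      rw [join_len (W L) cs hlen, hW.len L le_rfl, nn_succ q B M hM, h1]
    have hcvnew : ∀ i, i ≤ L → Cv (2 * nn q B M i + tt q B M i) (nn q B M i) (nn q B M i)
        (W i) (joinW (W L) cs) := by
      intro i hi
      refine join_cv (hW.cv i L hi le_rfl) ?_ cs ?_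
      · rw [hW.len L le_rfl]
        exact nn_mono q B M hM hi
      · intro c hc
        obtain ⟨h, _, h5, rfl⟩ := h2 c hc
        rcases Nat.lt_or_ge i (M L) with h6 | h6
        · right
          have hML := hM L
          exact T_cv (W := W) (n := nn q B M) (t := tt q B M) (tt_zero q B M)
            (tt_succ q B M) hq (M L) h6 (fun j hj => nn_mono q B M hM hj)
            (fun j hj => hW.len j (by omega)) (fun j hj hj2 => hW.cv i j hj (by omega)) h h5
        · left
          rw [hT h h5]
          exact tt_mono q B M hq h6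
    refine ⟨Function.update W (L + 1) (joinW (W L) cs), ⟨?_, ?_, ?_, ?_⟩⟩
    · intro i hi
      rcases Nat.eq_or_lt_of_le hi with rfl | h4
      · rw [Function.update_self, hnew]
      · rw [Function.update_of_ne (by omega)]
        exact hW.len i (by omega)
    · intro i hi
      rcases Nat.eq_or_lt_of_le hi with rfl | h4
      · rw [Function.update_self]
        refine join_mem (hW.mem L le_rfl) cs (fun u hu => ?_)
        obtain ⟨h, h5, _, rfl⟩ := h2 u hu
        exact T_mem hS (M L) (fun i hi => hW.mem i (by have := hM L; omega)) h h5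
      · rw [Function.update_of_ne (by omega)]
        exact hW.mem i (by omega)
    · intro i j hij hj
      rcases Nat.eq_or_lt_of_le hj with rfl | h4
      · rw [Function.update_self]
        rcases Nat.eq_or_lt_of_le hij with rfl | h5
        · rw [Function.update_self]
          have h := Cv.self (b := joinW (W L) cs)
            (D := 2 * nn q B M (L + 1) + tt q B M (L + 1)) (by rw [hnew]; omega)
          rw [hnew] at h
          exact h
        · rw [Function.update_of_ne (by omega)]
          exact hcvnew i (by omega)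
      · rw [Function.update_of_ne (by omega), Function.update_of_ne (by omega)]
        exact hW.cv i j hij (by omega)
    · intro i hi
      rcases Nat.eq_or_lt_of_le hi with rfl | h4
      · rw [Function.update_self]
        have h5 := join_vis o (W L) ((nn q B M (L + 1) + 1 : ℕ) * ρ (B * q ^ M L)) cs h3
        rw [← hx L, h1] at h5
        refine le_trans ?_ h5
        have h6 := hW.vis L le_rfl
        have h7 := hx1 L
        have h8 : 0 ≤ x L := by
          rw [hx L]
          exact mul_nonneg (Nat.cast_nonneg _) (hρ _)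
        have h9 : (0 : ℝ) ≤ ((vis o (W L)).card : ℝ) := Nat.cast_nonneg _
        have h10 : (0 : ℝ) ≤ q := Nat.cast_nonneg _
        rw [Vn]
        have h11 : ((q : ℝ) + 1) * Vn q x L * (1 - x L) ≤
            ((q : ℝ) + 1) * ((vis o (W L)).card : ℝ) * (1 - x L) :=
          mul_le_mul_of_nonneg_right (mul_le_mul_of_nonneg_left h6 (by linarith)) (by linarith)
        refine h11.trans ?_
        nlinarith [mul_nonneg h9 h8]
      · rw [Function.update_of_ne (by omega)]
        exact hW.vis i (by omega)

end

end Pool.Agent.W_55e385w_h22
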