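import Pool.Agent.W_55e385w_h22.Word

set_option autoImplicit false

/-!
# One coin at every visited point
-/

namespace Pool.Agent.W_55e385w_h22

open scoped NNReal

section

variable {X A : Type} [AddCommGroup A] {N : ℕ}

/-- The lamps after `n` steps: at time `j` the lamp at `z j` is moved by `c` if the coin `j`
shows `true`. -/
noncomputable def lamp (c : A) (z : Fin N → X) (n : ℕ) (ω : Fin N → Bool) : X →₀ A :=
  ∑ j : Fin N, if (j : ℕ) < n then Finsupp.single (z j) (if ω j then c else 0) else 0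

theorem lamp_zero (c : A) (z : Fin N → X) (ω : Fin N → Bool) : lamp c z 0 ω = 0 := by
  rw [lamp]
  exact Finset.sum_eq_zero (fun j _ => if_neg (Nat.not_lt_zero _))

theorem lamp_succ (c : A) (z : Fin N → X) {n : ℕ} (hn : n < N) (ω : Fin N → Bool) :
    lamp c z (n + 1) ω =
      lamp c z n ω + Finsupp.single (z ⟨n, hn⟩) (if ω ⟨n, hn⟩ then c else 0) := by
  classical
  rw [lamp, lamp]
  have h1 : Finsupp.single (z ⟨n, hn⟩) (if ω ⟨n, hn⟩ then c else 0) =
      ∑ j : Fin N, if j = ⟨n, hn⟩ then Finsupp.single (z j) (if ω j then c else 0) else 0 := by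
    rw [Finset.sum_ite_eq']
    simp
  rw [h1, ← Finset.sum_add_distrib]
  refine Finset.sum_congr rfl (fun j _ => ?_)
  by_cases h2 : j = ⟨n, hn⟩
  · subst h2
    simp
  · have h3 : (j : ℕ) ≠ n := fun h => h2 (Fin.ext h)
    rw [if_neg h2, add_zero]
    by_cases h4 : (j : ℕ) < n
    · rw [if_pos h4, if_pos (by omega)]
    · rw [if_neg h4, if_neg (by omega)]

open scoped Classical in
theorem lamp_apply (c : A) (z : Fin N → X) (n : ℕ) (ω : Fin N → Bool) (x : X) :
    lamp c z n ω x = ∑ j : Fin N, if (j : ℕ) < n ∧ z j = x then (if ω j then c else 0) else 0 := by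
  rw [lamp, Finsupp.finsetSum_apply]
  refine Finset.sum_congr rfl (fun j _ => ?_)
  by_cases h : (j : ℕ) < n
  · rw [if_pos h, Finsupp.single_apply]
    by_cases h2 : z j = x
    · rw [if_pos h2, if_pos (show (j : ℕ) < n ∧ z j = x from ⟨h, h2⟩)]
    · rw [if_neg h2, if_neg (show ¬ ((j : ℕ) < n ∧ z j = x) from fun h3 => h2 h3.2)]
  · rw [if_neg h, if_neg (show ¬ ((j : ℕ) < n ∧ z j = x) from fun h3 => h h3.1)]
    rfl

/-- Distinct points toss independent coins. -/
theorem lamp_count {c : A} (hc : c ≠ 0) (z : Fin N → X) {m a : ℕ} (P : Finset X)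
    (hP : ∀ x ∈ P, ∃ j : Fin N, m ≤ (j : ℕ) ∧ (j : ℕ) < m + a ∧ z j = x)
    (E F : Set (Fin N → Bool))
    (hEF : ∀ ω ∈ E, ∀ ω' : Fin N → Bool, (∀ j : Fin N, (j : ℕ) < m → ω' j = ω j) → ω' ∈ F)
    (hE : ∀ ω ∈ E, ∀ ω' ∈ E, lamp c z (m + a) ω = lamp c z (m + a) ω') :
    Nat.card E * 2 ^ P.card ≤ Nat.card F := by
  classical
  choose j hj1 hj2 hj3 using hP
  -- replace the coins `j x`, `x ∈ P`, by `σ`
  set rep : (P → Bool) → (Fin N → Bool) → (Fin N → Bool) := fun σ ω i =>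
    if h : ∃ x : P, j x x.2 = i then σ h.choose else ω i with hrep
  have hjinj : ∀ x y : P, j x x.2 = j y y.2 → x = y := by
    intro x y h
    have h1 := hj3 x x.2
    rw [h, hj3 y y.2] at h1
    exact Subtype.ext h1.symm
  have hrep1 : ∀ σ ω (x : P), rep σ ω (j x x.2) = σ x := by
    intro σ ω x
    have h : ∃ y : P, j y y.2 = j x x.2 := ⟨x, rfl⟩
    simp only [hrep]
    rw [dif_pos h, hjinj _ _ h.choose_spec]
  have hrep2 : ∀ σ ω i, (¬ ∃ x : P, j x x.2 = i) → rep σ ω i = ω i := by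
    intro σ ω i h
    simp only [hrep]
    rw [dif_neg h]
  set Φ : E × (P → Bool) → F := fun e => ⟨rep e.2 e.1.1, by
    refine hEF e.1.1 e.1.2 _ (fun i hi => hrep2 _ _ _ ?_)
    rintro ⟨x, hx⟩
    have := hj1 x x.2
    rw [hx] at this
    omega⟩ with hΦ
  have hΦi : Function.Injective Φ := by
    rintro ⟨⟨ω, h1⟩, σ⟩ ⟨⟨ω', h2⟩, σ'⟩ h
    have h3 : rep σ ω = rep σ' ω' := congrArg Subtype.val h
    have h4 : σ = σ' := by
      funext x
      have := congrFun h3 (j x x.2)
      rwa [hrep1, hrep1] at this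
    have h5 : ∀ i, (¬ ∃ x : P, j x x.2 = i) → ω i = ω' i := by
      intro i hi
      have := congrFun h3 i
      rwa [hrep2 _ _ _ hi, hrep2 _ _ _ hi] at this
    have h6 : ω = ω' := by
      funext i
      by_cases hi : ∃ x : P, j x x.2 = i
      · obtain ⟨x, rfl⟩ := hi
        have h7 := DFunLike.congr_fun (hE ω h1 ω' h2) (x : X)
        rw [lamp_apply, lamp_apply, ← Finset.add_sum_erase _ _ (Finset.mem_univ (j x x.2)),
          ← Finset.add_sum_erase (Finset.univ : Finset (Fin N))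
            (fun i => if (i : ℕ) < m + a ∧ z i = x then (if ω' i then c else 0) else 0)
            (Finset.mem_univ (j x x.2))] at h7
        have h8 : ∀ i ∈ (Finset.univ : Finset (Fin N)).erase (j x x.2),
            (if (i : ℕ) < m + a ∧ z i = x then (if ω i then c else 0) else 0) =
            (if (i : ℕ) < m + a ∧ z i = x then (if ω' i then c else 0) else 0) := by
          intro i hi
          by_cases h9 : (i : ℕ) < m + a ∧ z i = x
          · rw [if_pos h9, if_pos h9, h5 i]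
            rintro ⟨y, rfl⟩
            have h10 : (y : X) = x := by rw [← hj3 y y.2]; exact h9.2
            have h11 : y = x := Subtype.ext h10
            subst h11
            exact (Finset.mem_erase.1 hi).1 rfl
          · rw [if_neg h9, if_neg h9]
        rw [Finset.sum_congr rfl h8] at h7
        have h9 := add_right_cancel h7
        have h10 : ((j x x.2 : Fin N) : ℕ) < m + a ∧ z (j x x.2) = x := ⟨hj2 x x.2, hj3 x x.2⟩
        rw [if_pos h10, if_pos h10] at h9
        cases hω : ω (j x x.2) <;> cases hω' : ω' (j x x.2)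
        · rfl
        · rw [hω, hω', if_pos rfl, if_neg (by decide)] at h9
          exact (hc h9.symm).elim
        · rw [hω, hω', if_pos rfl, if_neg (by decide)] at h9
          exact (hc h9).elim
        · rfl
      · exact h5 i hi
    subst h4
    subst h6
    rfl
  have h1 := Nat.card_le_card_of_injective Φ hΦi
  rw [Nat.card_prod] at h1
  have h2 : Nat.card (P → Bool) = 2 ^ P.card := by
    rw [Nat.card_eq_fintype_card]
    simp
  rwa [h2] at h1

end

theorem exists_rho {Q : ℕ} (hQ : 1 ≤ Q) : ∃ ρ : ℝ≥0, 0 < ρ ∧ ρ < 1 ∧ 1 ≤ 2 * ρ ^ Q := by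
  have hQr : (1 : ℝ) ≤ Q := by exact_mod_cast hQ
  have h1 : (1 : ℝ) / (2 * Q) ≤ 1 / 2 := by
    apply one_div_le_one_div_of_le (by norm_num); linarith
  have h0 : 0 < (1 : ℝ) / (2 * Q) := by positivity
  have h2 := one_add_mul_le_pow (a := -(1 / (2 * (Q : ℝ)))) (by linarith) Q
  have h3 : (1 : ℝ) + Q * -(1 / (2 * Q)) = 1 / 2 := by
    field_simp; ring
  rw [h3, ← sub_eq_add_neg] at h2
  refine ⟨⟨1 - 1 / (2 * Q), by linarith⟩, ?_, ?_, ?_⟩
  · change (0 : ℝ) < 1 - 1 / (2 * Q)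
    linarith
  · change 1 - 1 / (2 * (Q : ℝ)) < 1
    linarith
  · rw [← NNReal.coe_le_coe]
    push_cast
    change (1 : ℝ) ≤ 2 * (1 - 1 / (2 * Q)) ^ Q
    linarith

theorem rho_bound {Q : ℕ} {ρ : ℝ≥0} (h0 : 0 < ρ) (h1 : ρ < 1) (h2 : 1 ≤ 2 * ρ ^ Q) {a k : ℕ}
    (hk : a ≤ Q * k + 1) : 1 ≤ ρ⁻¹ * ρ ^ a * 2 ^ k := by
  have h3 : 1 ≤ (2 * ρ ^ Q) ^ k := one_le_pow₀ h2
  have h4 : ρ ^ (Q * k + 1) ≤ ρ ^ a := pow_le_pow_of_le_one zero_le h1.le hk
  calc (1 : ℝ≥0) ≤ (2 * ρ ^ Q) ^ k := h3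
    _ = ρ⁻¹ * ρ ^ (Q * k + 1) * 2 ^ k := by
        rw [mul_pow, pow_succ, ← pow_mul, mul_comm (ρ ^ (Q * k)) ρ, ← mul_assoc ρ⁻¹,
          inv_mul_cancel₀ h0.ne', one_mul, mul_comm]
    _ ≤ ρ⁻¹ * ρ ^ a * 2 ^ k := by gcongr

section

variable {H X : Type} [Group H] [MulAction H X]

theorem vis_exists (o : X) (w : List H) : ∀ x ∈ vis o w, ∃ i ≤ w.length,
    (w.take i).prod • o = x := by
  classical
  induction w with
  | nil =>
    intro x hx
    rw [vis, Finset.mem_singleton] at hx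
    exact ⟨0, le_rfl, by simp [hx]⟩
  | cons s w ih =>
    intro x hx
    rw [vis, Finset.mem_insert, Finset.mem_image] at hx
    rcases hx with rfl | ⟨y, hy, rfl⟩
    · exact ⟨0, Nat.zero_le _, by simp⟩
    · obtain ⟨i, hi, rfl⟩ := ih y hy
      exact ⟨i + 1, by simpa using hi, by simp [mul_smul]⟩

end

end Pool.Agent.W_55e385w_h22
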