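import Mathlib

set_option autoImplicit false

/-!
# Binary words without bad factors
-/

namespace Pool.Agent.W_55e385w_h22

section

variable (bad : List Bool → List Bool → Prop)

/-- `l` has no bad factor of length at least `a0`; the newest letter is the first one. -/
def Ok (a0 : ℕ) (l : List Bool) : Prop :=
  ∀ τ' τ l0, l = τ' ++ (τ ++ l0) → a0 ≤ τ.length → ¬ bad l0 τ

open scoped Classical in
/-- The words of length `n` without bad factors. -/
noncomputable def GD (a0 : ℕ) : ℕ → Finset (List Bool)
  | 0 => ({[]} : Finset (List Bool)).filter (Ok bad a0)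
  | n + 1 => ((GD a0 n ×ˢ (Finset.univ : Finset Bool)).image (fun p => p.2 :: p.1)).filter
      (Ok bad a0)

variable {bad}

theorem mem_GD {a0 n : ℕ} {l : List Bool} : l ∈ GD bad a0 n ↔ l.length = n ∧ Ok bad a0 l := by
  classical
  induction n generalizing l with
  | zero =>
    rw [GD, Finset.mem_filter, Finset.mem_singleton, List.length_eq_zero_iff]
  | succ n ih =>
    rw [GD, Finset.mem_filter, Finset.mem_image]
    constructor
    · rintro ⟨⟨⟨l', b⟩, h1, rfl⟩, h2⟩
      rw [Finset.mem_product, ih] at h1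
      exact ⟨by simp [h1.1.1], h2⟩
    · rintro ⟨h1, h2⟩
      refine ⟨?_, h2⟩
      cases l with
      | nil => simp at h1
      | cons b l' =>
        refine ⟨(l', b), ?_, rfl⟩
        rw [Finset.mem_product, ih]
        refine ⟨⟨by simpa using h1, ?_⟩, Finset.mem_univ _⟩
        intro τ' τ l0 h3 h4
        have h5 : l' = τ' ++ (τ ++ l0) := h3
        exact h2 (b :: τ') τ l0 (by rw [h5]; rfl) h4

theorem GD_step {a0 : ℕ} (ha : 1 ≤ a0) {b : ℕ → ℝ}
    (hb : ∀ l0 a, ∃ F : Finset (List Bool), (∀ τ : List Bool, τ.length = a → bad l0 τ → τ ∈ F) ∧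
      (F.card : ℝ) ≤ b a) (n : ℕ) :
    2 * ((GD bad a0 n).card : ℝ) ≤ (GD bad a0 (n + 1)).card +
      ∑ a ∈ Finset.Icc a0 (n + 1), b a * (GD bad a0 (n + 1 - a)).card := by
  classical
  choose F hF1 hF2 using hb
  set all : Finset (List Bool) :=
    (GD bad a0 n ×ˢ (Finset.univ : Finset Bool)).image (fun p => p.2 :: p.1) with hall
  have hcard : all.card = 2 * (GD bad a0 n).card := by
    rw [hall, Finset.card_image_of_injOn, Finset.card_product]
    · simp [mul_comm]
    · rintro ⟨l, b⟩ _ ⟨l', b'⟩ _ h
      simp only [List.cons.injEq] at h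
      rw [h.1, h.2]
  have hsub : all ⊆ GD bad a0 (n + 1) ∪ (Finset.Icc a0 (n + 1)).biUnion (fun a =>
      (GD bad a0 (n + 1 - a)).biUnion fun l0 => (F l0 a).image fun τ => τ ++ l0) := by
    intro x hx
    rw [Finset.mem_union]
    by_cases hok : Ok bad a0 x
    · left
      rw [GD, Finset.mem_filter]
      exact ⟨hx, hok⟩
    · right
      obtain ⟨⟨l, b⟩, h1, rfl⟩ := Finset.mem_image.1 hx
      rw [Finset.mem_product, mem_GD] at h1
      obtain ⟨⟨h2, h3⟩, -⟩ := h1
      simp only at h2 h3 hok ⊢
      unfold Ok at hok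
      push Not at hok
      obtain ⟨τ', τ, l0, h4, h5, h6⟩ := hok
      cases τ' with
      | cons c τ' =>
        exfalso
        rw [List.cons_append, List.cons.injEq] at h4
        exact h3 τ' τ l0 h4.2 h5 h6
      | nil =>
        rw [List.nil_append] at h4
        have hlen : τ.length + l0.length = n + 1 := by
          rw [← List.length_append, ← h4]
          simp [h2]
        rw [Finset.mem_biUnion]
        refine ⟨τ.length, Finset.mem_Icc.2 ⟨h5, by omega⟩, ?_⟩
        rw [Finset.mem_biUnion]
        refine ⟨l0, ?_, Finset.mem_image.2 ⟨τ, hF1 l0 _ τ rfl h6, h4.symm⟩⟩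
        rw [mem_GD]
        refine ⟨by omega, ?_⟩
        cases τ with
        | nil => simp at h5; omega
        | cons c τ =>
          rw [List.cons_append, List.cons.injEq] at h4
          intro σ' σ k0 h7 h8
          refine h3 (τ ++ σ') σ k0 ?_ h8
          rw [h4.2, h7, List.append_assoc]
  have h1 := Finset.card_le_card hsub
  rw [hcard] at h1
  have h2 : (((Finset.Icc a0 (n + 1)).biUnion (fun a =>
      (GD bad a0 (n + 1 - a)).biUnion fun l0 => (F l0 a).image fun τ => τ ++ l0)).card : ℝ) ≤
      ∑ a ∈ Finset.Icc a0 (n + 1), b a * (GD bad a0 (n + 1 - a)).card := by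
    calc (((Finset.Icc a0 (n + 1)).biUnion (fun a =>
      (GD bad a0 (n + 1 - a)).biUnion fun l0 => (F l0 a).image fun τ => τ ++ l0)).card : ℝ)
        ≤ ∑ a ∈ Finset.Icc a0 (n + 1), (((GD bad a0 (n + 1 - a)).biUnion fun l0 =>
          (F l0 a).image fun τ => τ ++ l0).card : ℝ) := by
          exact_mod_cast Finset.card_biUnion_le
      _ ≤ ∑ a ∈ Finset.Icc a0 (n + 1), ∑ l0 ∈ GD bad a0 (n + 1 - a), b a := by
          refine Finset.sum_le_sum (fun a _ => ?_)
          have h3 : (((GD bad a0 (n + 1 - a)).biUnion fun l0 =>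
              (F l0 a).image fun τ => τ ++ l0).card : ℝ) ≤
              ∑ l0 ∈ GD bad a0 (n + 1 - a), (((F l0 a).image fun τ => τ ++ l0).card : ℝ) := by
            exact_mod_cast Finset.card_biUnion_le
          refine h3.trans (Finset.sum_le_sum (fun l0 _ => ?_))
          refine le_trans ?_ (hF2 l0 a)
          exact_mod_cast Finset.card_image_le
      _ = ∑ a ∈ Finset.Icc a0 (n + 1), b a * (GD bad a0 (n + 1 - a)).card := by
          refine Finset.sum_congr rfl (fun a _ => ?_)
          rw [Finset.sum_const, nsmul_eq_mul, mul_comm]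
  have h3 : (2 * (GD bad a0 n).card : ℝ) ≤ ((GD bad a0 (n + 1) ∪ (Finset.Icc a0 (n + 1)).biUnion
      (fun a => (GD bad a0 (n + 1 - a)).biUnion fun l0 =>
        (F l0 a).image fun τ => τ ++ l0)).card : ℝ) := by exact_mod_cast h1
  have h4 : ((GD bad a0 (n + 1) ∪ (Finset.Icc a0 (n + 1)).biUnion
      (fun a => (GD bad a0 (n + 1 - a)).biUnion fun l0 =>
        (F l0 a).image fun τ => τ ++ l0)).card : ℝ) ≤ (GD bad a0 (n + 1)).card +
      ((Finset.Icc a0 (n + 1)).biUnion (fun a =>
      (GD bad a0 (n + 1 - a)).biUnion fun l0 => (F l0 a).image fun τ => τ ++ l0)).card := by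
    exact_mod_cast Finset.card_union_le _ _
  linarith

theorem exists_ok {K : ℝ} (hK : 0 ≤ K)
    (hb : ∀ l0 a, ∃ F : Finset (List Bool), (∀ τ : List Bool, τ.length = a → bad l0 τ → τ ∈ F) ∧
      (F.card : ℝ) ≤ K * (5 / 4) ^ a) :
    ∃ a0, ∀ n, ∃ l : List Bool, l.length = n ∧ Ok bad a0 l := by
  classical
  obtain ⟨a1, ha1⟩ : ∃ a1 : ℕ, 18 * K * (5 / 6 : ℝ) ^ a1 ≤ 1 := by
    obtain ⟨a1, h⟩ := exists_pow_lt_of_lt_one (show (0 : ℝ) < 1 / (18 * K + 1) by positivity)
      (show (5 / 6 : ℝ) < 1 by norm_num)
    refine ⟨a1, ?_⟩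
    rw [lt_div_iff₀ (by positivity)] at h
    have : 0 ≤ (5 / 6 : ℝ) ^ a1 := by positivity
    nlinarith
  set a0 := a1 + 1 with ha0
  have ha0K : 18 * K * (5 / 6 : ℝ) ^ a0 ≤ 1 := by
    rw [ha0, pow_succ]
    have : 0 ≤ 18 * K * (5 / 6 : ℝ) ^ a1 := by positivity
    nlinarith
  set N : ℕ → ℝ := fun n => ((GD bad a0 n).card : ℝ) with hN
  have hN0 : ∀ n, 0 ≤ N n := fun n => Nat.cast_nonneg _
  have key : ∀ n, ∀ j ≤ n, (3 / 2 : ℝ) ^ j * N (n - j) ≤ N n := by
    intro n
    induction n with
    | zero =>
      intro j hj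
      rw [Nat.le_zero.1 hj]
      simp
    | succ n ih =>
      have hstep : (3 / 2 : ℝ) * N n ≤ N (n + 1) := by
        have h1 := GD_step (bad := bad) (a0 := a0) (by omega) hb n
        have h2 : ∑ a ∈ Finset.Icc a0 (n + 1), K * (5 / 4) ^ a *
            ((GD bad a0 (n + 1 - a)).card : ℝ) ≤ (1 / 2) * N n := by
          calc ∑ a ∈ Finset.Icc a0 (n + 1), K * (5 / 4) ^ a * ((GD bad a0 (n + 1 - a)).card : ℝ)
              ≤ ∑ a ∈ Finset.Icc a0 (n + 1), (3 / 2) * K * N n * (5 / 6) ^ a := by
                refine Finset.sum_le_sum (fun a ha => ?_)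
                rw [Finset.mem_Icc] at ha
                have h3 := ih (a - 1) (by omega)
                rw [show n - (a - 1) = n + 1 - a by omega] at h3
                have h4 : (5 / 4 : ℝ) ^ a = (5 / 6) ^ a * ((3 / 2) * (3 / 2) ^ (a - 1)) := by
                  rw [← pow_succ', show a - 1 + 1 = a by omega, ← mul_pow]
                  norm_num
                calc K * (5 / 4) ^ a * ((GD bad a0 (n + 1 - a)).card : ℝ)
                    = (3 / 2) * K * (5 / 6) ^ a * ((3 / 2) ^ (a - 1) * N (n + 1 - a)) := by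
                      rw [h4]; ring
                  _ ≤ (3 / 2) * K * (5 / 6) ^ a * N n :=
                      mul_le_mul_of_nonneg_left h3 (by positivity)
                  _ = _ := by ring
            _ = (3 / 2) * K * N n * ∑ a ∈ Finset.Icc a0 (n + 1), (5 / 6 : ℝ) ^ a := by
                rw [Finset.mul_sum]
            _ ≤ (3 / 2) * K * N n * (6 * (5 / 6) ^ a0) := by
                refine mul_le_mul_of_nonneg_left ?_ (by have := hN0 n; positivity)
                have h5 : ∑ a ∈ Finset.Icc a0 (n + 1), (5 / 6 : ℝ) ^ a ≤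
                    ∑ i ∈ Finset.range (n + 2 - a0), (5 / 6 : ℝ) ^ (a0 + i) := by
                  rw [← Finset.sum_Ico_eq_sum_range]
                  apply le_of_eq
                  refine Finset.sum_congr ?_ (fun _ _ => rfl)
                  ext a
                  simp only [Finset.mem_Icc, Finset.mem_Ico]
                  omega
                refine h5.trans ?_
                have h6 : ∑ i ∈ Finset.range (n + 2 - a0), (5 / 6 : ℝ) ^ (a0 + i) =
                    (5 / 6) ^ a0 * ∑ i ∈ Finset.range (n + 2 - a0), (5 / 6 : ℝ) ^ i := by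
                  rw [Finset.mul_sum]
                  exact Finset.sum_congr rfl (fun i _ => by rw [pow_add])
                rw [h6, mul_comm 6]
                refine mul_le_mul_of_nonneg_left ?_ (by positivity)
                have h7 := summable_geometric_of_lt_one (show (0 : ℝ) ≤ 5 / 6 by norm_num)
                  (by norm_num)
                have h8 := tsum_geometric_of_lt_one (show (0 : ℝ) ≤ 5 / 6 by norm_num)
                  (by norm_num)
                calc ∑ i ∈ Finset.range (n + 2 - a0), (5 / 6 : ℝ) ^ i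
                    ≤ ∑' i : ℕ, (5 / 6 : ℝ) ^ i :=
                      h7.sum_le_tsum _ (fun i _ => by positivity)
                  _ = 6 := by rw [h8]; norm_num
            _ = (1 / 2) * (18 * K * (5 / 6) ^ a0) * N n := by ring
            _ ≤ (1 / 2) * 1 * N n := by
                refine mul_le_mul_of_nonneg_right ?_ (hN0 n)
                exact mul_le_mul_of_nonneg_left ha0K (by norm_num)
            _ = (1 / 2) * N n := by ring
        have h3 : 2 * N n ≤ N (n + 1) + ∑ a ∈ Finset.Icc a0 (n + 1), K * (5 / 4) ^ a *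
            ((GD bad a0 (n + 1 - a)).card : ℝ) := h1
        linarith
      intro j hj
      cases j with
      | zero => simp
      | succ j =>
        have h1 := ih j (by omega)
        rw [show n + 1 - (j + 1) = n - j by omega, pow_succ]
        calc (3 / 2 : ℝ) ^ j * (3 / 2) * N (n - j) = (3 / 2) * ((3 / 2) ^ j * N (n - j)) := by ring
          _ ≤ (3 / 2) * N n := mul_le_mul_of_nonneg_left h1 (by norm_num)
          _ ≤ N (n + 1) := hstep
  refine ⟨a0, fun n => ?_⟩
  have h1 := key n n le_rfl
  rw [Nat.sub_self] at h1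
  have h2 : N 0 = 1 := by
    have : GD bad a0 0 = {[]} := by
      rw [GD, Finset.filter_eq_self]
      intro l hl τ' τ l0 h3 h4
      rw [Finset.mem_singleton] at hl
      subst hl
      have h5 := congrArg List.length h3
      simp only [List.length_nil, List.length_append] at h5
      omega
    simp only [hN, this, Finset.card_singleton, Nat.cast_one]
  rw [h2, mul_one] at h1
  have h3 : 0 < N n := lt_of_lt_of_le (by positivity) h1
  have h3' : (0 : ℝ) < ((GD bad a0 n).card : ℝ) := h3
  have h4 : 0 < (GD bad a0 n).card := by exact_mod_cast h3'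
  obtain ⟨l, hl⟩ := Finset.card_pos.1 h4
  exact ⟨l, mem_GD.1 hl⟩

end

end Pool.Agent.W_55e385w_h22
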