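import Pool.Agent.W_55e385w_h22.Num

set_option autoImplicit false

/-!
# Words all of whose windows visit linearly many points
-/

namespace Pool.Agent.W_55e385w_h22

section

variable {H X : Type} [Group H] [MulAction H X]

/-- The number of words of length `r` in the letters `S` whose product moves `x` to `y`. -/
noncomputable def cnt (S : Finset H) (r : ℕ) (x y : X) : ℕ :=
  Nat.card {w : Fin r → S // (List.ofFn fun i => (w i : H)).prod • x = y}

open scoped Classical in
/-- Averaging: some word moves `C` off `A`. -/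
theorem spread {S : Set H} {r : ℕ} {ρ : ℝ} {ι : Type} [Fintype ι] [Nonempty ι] (h : ι → List H)
    (h1 : ∀ i, (h i).length = r) (h2 : ∀ i, ∀ s ∈ h i, s ∈ S)
    (h3 : ∀ x y : X, (Nat.card {i // (h i).prod • x = y} : ℝ) ≤ ρ * Fintype.card ι)
    (A C : Finset X) :
    ∃ h : List H, (∀ s ∈ h, s ∈ S) ∧ h.length = r ∧
      ((A ∩ C.image (fun y => h.prod • y)).card : ℝ) ≤ A.card * C.card * ρ := by
  by_contra hcon
  push Not at hcon
  have h4 : ∀ i, (A.card * C.card * ρ : ℝ) <
      ((A ∩ C.image (fun y => (h i).prod • y)).card : ℝ) :=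
    fun i => hcon _ (h2 i) (h1 i)
  have h5 : ∀ i, ((A ∩ C.image (fun y => (h i).prod • y)).card : ℝ) =
        ∑ x ∈ C, ∑ y ∈ A, if (h i).prod • x = y then (1 : ℝ) else 0 := by
    intro i
    set g : H := (h i).prod
    have h6 : ∀ x ∈ C, (∑ y ∈ A, if g • x = y then (1 : ℝ) else 0) =
        if g • x ∈ A then 1 else 0 := by
      intro x _
      rw [Finset.sum_ite_eq]
    rw [Finset.sum_congr rfl h6, Finset.sum_ite, Finset.sum_const_zero, add_zero,
      Finset.sum_const, nsmul_eq_mul, mul_one]
    have h7 : A ∩ C.image (fun y => g • y) = (C.filter (fun x => g • x ∈ A)).image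
        (fun y => g • y) := by
      ext y
      simp only [Finset.mem_inter, Finset.mem_image, Finset.mem_filter]
      constructor
      · rintro ⟨ha, x, hx, rfl⟩
        exact ⟨x, ⟨hx, ha⟩, rfl⟩
      · rintro ⟨x, ⟨hx, ha⟩, rfl⟩
        exact ⟨ha, x, hx, rfl⟩
    rw [h7, card_smul]
  have h6 : (A.card * C.card * ρ : ℝ) * Fintype.card ι <
      ∑ i : ι, ((A ∩ C.image (fun y => (h i).prod • y)).card : ℝ) := by
    have h7 := Finset.sum_lt_sum_of_nonempty (s := (Finset.univ : Finset ι))
      Finset.univ_nonempty (fun i _ => h4 i)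
    rw [Finset.sum_const, Finset.card_univ, nsmul_eq_mul] at h7
    linarith
  have h7 : ∑ i : ι, ((A ∩ C.image (fun y => (h i).prod • y)).card : ℝ) =
      ∑ x ∈ C, ∑ y ∈ A, (Nat.card {i // (h i).prod • x = y} : ℝ) := by
    rw [Finset.sum_congr rfl (fun i _ => h5 i), Finset.sum_comm]
    refine Finset.sum_congr rfl (fun x _ => ?_)
    rw [Finset.sum_comm]
    refine Finset.sum_congr rfl (fun y _ => ?_)
    rw [Nat.card_eq_fintype_card, Fintype.card_subtype, Finset.sum_ite,
      Finset.sum_const_zero, add_zero, Finset.sum_const, nsmul_eq_mul, mul_one]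
  have h8 : ∑ x ∈ C, ∑ y ∈ A, (Nat.card {i // (h i).prod • x = y} : ℝ) ≤
      (A.card * C.card * ρ : ℝ) * Fintype.card ι := by
    refine (Finset.sum_le_sum (fun x _ => Finset.sum_le_sum (fun y _ => h3 x y))).trans ?_
    simp only [Finset.sum_const, nsmul_eq_mul]
    apply le_of_eq
    ring
  linarith

/-- Long words all of whose windows visit linearly many points. -/
theorem windows {S : Set H} (hS : ∀ s ∈ S, s⁻¹ ∈ S) (hne : S.Nonempty) (o : X) {p C : ℝ}
    (hp : 1 < p) (h : ∀ r : ℕ, 1 ≤ r → ∃ (ι : Type) (_ : Fintype ι) (_ : Nonempty ι)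
      (h : ι → List H), (∀ i, (h i).length = r) ∧ (∀ i, ∀ s ∈ h i, s ∈ S) ∧ ∀ x y : X,
      (Nat.card {i // (h i).prod • x = y} : ℝ) ≤ C * (r : ℝ) ^ (-p) * Fintype.card ι) :
    ∃ Q : ℕ, 1 ≤ Q ∧ ∀ L : ℕ, ∃ w : List H, L ≤ w.length ∧ (∀ s ∈ w, s ∈ S) ∧
      ∀ v, v <:+: w → v.length ≤ Q * (vis o v).card := by
  classical
  set C' : ℝ := max C 1 with hC'
  have hC0 : 0 < C' := lt_of_lt_of_le one_pos (le_max_right _ _)
  obtain ⟨q, B, M, A, hq, hB, hM, hA, hnum⟩ := numbers hp hC0
  set x : ℕ → ℝ := fun l => (nn q B M (l + 1) + 1 : ℕ) *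
        (C' * ((B * q ^ M l : ℕ) : ℝ) ^ (-p)) with hx
  obtain ⟨hx1, hA2⟩ := hnum x (fun l => rfl)
  set D : ℕ → ℕ := fun i => 2 * nn q B M i + tt q B M i with hD
  obtain ⟨A', hA'⟩ := exists_nat_gt A
  set E : ℕ := 2 * (1 + q) * (q + 1 + 2 * q ^ 2) with hE
  refine ⟨D 0 + E * A' + 1, by omega, fun L => ?_⟩
  obtain ⟨W, hW⟩ := exists_lev o (S := S) hS hne hq hM
    (fun r => C' * (r : ℝ) ^ (-p)) (fun r => by positivity) x (fun l => rfl) hx1
    (fun l A C => by
      obtain ⟨ι, i1, i2, g, g1, g2, g3⟩ := h (B * q ^ M l)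
        (Nat.mul_pos (by omega) (Nat.pow_pos (by omega)))
      refine spread g g1 g2 (fun a b => (g3 a b).trans ?_) A C
      refine mul_le_mul_of_nonneg_right (mul_le_mul_of_nonneg_right (le_max_left _ _) ?_) ?_
      · positivity
      · positivity) L
  refine ⟨W L, ?_, fun s hs => hW.mem L le_rfl s hs, ?_⟩
  · rw [hW.len L le_rfl]
    have h1 := nn_pow q B M hM (Nat.zero_le L)
    rw [nn_zero, Nat.sub_zero] at h1
    have h2 : L < 2 ^ L := Nat.lt_two_pow_self
    have h3 : 2 ^ L ≤ (q + 1) ^ L := Nat.pow_le_pow_left (by omega) L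
    have h4 : 1 * (q + 1) ^ L ≤ B * (q + 1) ^ L := Nat.mul_le_mul_right _ hB
    omega
  · intro v hv
    have hvis1 : 1 ≤ (vis o v).card := card_vis_pos o v
    rcases Nat.lt_or_ge v.length (D 0) with h1 | h1
    · calc v.length ≤ D 0 * 1 := by omega
        _ ≤ (D 0 + E * A' + 1) * (vis o v).card := Nat.mul_le_mul (by omega) hvis1
    · have hvL : v.length < D L := by
        have h2 := hv.length_le
        rw [hW.len L le_rfl] at h2
        have h3 := nn_pos (q := q) hB hM L
        simp only [hD]
        omega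
      have hex : ∃ i, v.length < D i := ⟨L, hvL⟩
      obtain ⟨j, hj⟩ : ∃ j, j = Nat.find hex := ⟨_, rfl⟩
      have hj1 : v.length < D j := hj ▸ Nat.find_spec hex
      have hjL : j ≤ L := hj ▸ Nat.find_min' hex hvL
      rcases j with _ | i
      · omega
      · have h2 : D i ≤ v.length := by
          by_contra h3
          have := Nat.find_min' hex (not_le.1 h3)
          omega
        have h3 : HasB (W i) v := (hW.cv i L (by omega) le_rfl).inf v hv h2
        have h4 : (vis o (W i)).card ≤ (vis o v).card := by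
          rcases h3 with h3 | h3
          · exact card_vis_infix o h3
          · rw [← card_vis_linv o (W i)]
            exact card_vis_infix o h3
        have h5 : (nn q B M i : ℝ) ≤ A' * (vis o v).card := by
          calc (nn q B M i : ℝ) ≤ A * Vn q x i := hA2 i
            _ ≤ A * (vis o (W i)).card :=
                mul_le_mul_of_nonneg_left (hW.vis i (by omega)) hA.le
            _ ≤ A' * (vis o v).card := by
                refine mul_le_mul hA'.le ?_ (Nat.cast_nonneg _) (Nat.cast_nonneg _)
                exact_mod_cast h4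
        have h6 : nn q B M i ≤ A' * (vis o v).card := by exact_mod_cast h5
        have h7 : D (i + 1) ≤ E * nn q B M i := by
          simp only [hD, hE]
          have h8 := tt_le q B M hM hq (i + 1)
          have h9 := nn_succ q B M hM i
          have h10 := tt_le q B M hM hq (M i)
          have h11 := nn_mono q B M hM (hM i)
          have h12 : nn q B M (i + 1) ≤ (q + 1 + 2 * q ^ 2) * nn q B M i := by
            have h13 : q * tt q B M (M i) ≤ q * (2 * q * nn q B M i) :=
              Nat.mul_le_mul_left _ (h10.trans (Nat.mul_le_mul_left _ h11))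
            rw [h9]
            nlinarith
          calc 2 * nn q B M (i + 1) + tt q B M (i + 1)
              ≤ 2 * (1 + q) * nn q B M (i + 1) := by nlinarith
            _ ≤ 2 * (1 + q) * ((q + 1 + 2 * q ^ 2) * nn q B M i) :=
                Nat.mul_le_mul_left _ h12
            _ = _ := by ring
        calc v.length ≤ E * nn q B M i := by omega
          _ ≤ E * (A' * (vis o v).card) := Nat.mul_le_mul_left _ h6
          _ = (E * A') * (vis o v).card := by ring
          _ ≤ (D 0 + E * A' + 1) * (vis o v).card := Nat.mul_le_mul_right _ (by omega)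

end

end Pool.Agent.W_55e385w_h22
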