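import Pool.Agent.W_55e385w_h22.Coins
import Pool.Agent.W_55e385w_h22.Window
import Pool.Agent.W_55e385_h22.Trans

set_option autoImplicit false

/-!
# Groups with a wreath product section
-/

namespace Pool.Agent.W_55e385w_h22

open scoped ENNReal NNReal
open MeasureTheory
open W_55e385_h22 (HasExpandingSubgraph Unpredictable)

section

variable {G : Type} [Group G] {T : Set G}

/-- Left multiplication. -/
def leftIso (T : Set G) (w : G) : SimpleGraph.mulCayley T ≃g SimpleGraph.mulCayley T where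
  toEquiv := Equiv.mulLeft w
  map_rel_iff' := by
    intro a b
    exact SimpleGraph.mulCayley_adj_mul_iff_right

theorem cay_transitive (u v : G) :
    ∃ φ : SimpleGraph.mulCayley T ≃g SimpleGraph.mulCayley T, φ u = v :=
  ⟨leftIso T (v * u⁻¹), by
    change v * u⁻¹ * u = v
    rw [inv_mul_cancel_right]⟩

theorem cay_connected (hT : Subgroup.closure T = ⊤) : (SimpleGraph.mulCayley T).Connected := by
  have key : ∀ h g : G, (SimpleGraph.mulCayley T).Reachable g (g * h) := by
    intro h
    have hh : h ∈ Subgroup.closure T := by rw [hT]; trivial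
    induction hh using Subgroup.closure_induction with
    | mem x hx =>
      intro g
      by_cases h1 : g = g * x
      · rw [← h1]
      · refine SimpleGraph.Adj.reachable ((SimpleGraph.mulCayley_adj T _ _).2 ⟨h1, Or.inl ?_⟩)
        rwa [inv_mul_cancel_left]
    | one => intro g; rw [mul_one]
    | mul x y _ _ hx hy =>
      intro g
      rw [← mul_assoc]
      exact (hx g).trans (hy (g * x))
    | inv x _ hx =>
      intro g
      have := hx (g * x⁻¹)
      rw [inv_mul_cancel_right] at this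
      exact this.symm
  refine ⟨fun a b => ?_⟩
  have := key (a⁻¹ * b) a
  rwa [mul_inv_cancel_left] at this

theorem cay_finite (hT : T.Finite) (v : G) :
    ((SimpleGraph.mulCayley T).neighborSet v).Finite := by
  refine ((hT.image (fun t => v * t)).union (hT.image (fun t => v * t⁻¹))).subset ?_
  intro b hb
  rw [SimpleGraph.mem_neighborSet, SimpleGraph.mulCayley_adj] at hb
  rcases hb.2 with h | h
  · exact Or.inl ⟨_, h, by simp⟩
  · exact Or.inr ⟨_, h, by simp⟩

theorem cay_dist (hT : Subgroup.closure T = ⊤) (w u v : G) :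
    (SimpleGraph.mulCayley T).dist (w * u) (w * v) ≤ (SimpleGraph.mulCayley T).dist u v := by
  obtain ⟨p, hp⟩ := (cay_connected hT).exists_walk_length_eq_dist u v
  rw [← hp, ← SimpleGraph.Walk.length_map (leftIso T w).toHom p]
  exact SimpleGraph.dist_le _

end

section

variable (A H X : Type) [AddCommGroup A] [Group H] [MulAction H X]

/-- `H` permutes the points of `X` and therefore the finitely supported functions `X →₀ A`. -/
noncomputable def lamps : H →* MulAut (Multiplicative (X →₀ A)) where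
  toFun h := AddEquiv.toMultiplicative (Finsupp.domCongr (MulAction.toPerm h))
  map_one' := by
    ext f x
    simp
  map_mul' g h := by
    ext f x
    simp [Finsupp.domCongr_apply, mul_smul]

end

section

variable {A H X : Type} [AddCommGroup A] [Group H] [MulAction H X]

theorem lamps_single (g : H) (x : X) (c : A) :
    lamps A H X g (Multiplicative.ofAdd (Finsupp.single x c)) =
      Multiplicative.ofAdd (Finsupp.single (g • x) c) := by
  change Multiplicative.ofAdd (Finsupp.domCongr (MulAction.toPerm g) (Finsupp.single x c)) = _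
  rw [Finsupp.domCongr_apply, Finsupp.equivMapDomain_single]
  rfl

/-- The path of a word `w` and coins `ω` in the group `K`, with letters `k0 (ω n) * k1 (w n)`. -/
def lift {K : Type} [Group K] {N : ℕ} (k0 : Bool → K) (k1 : H → K) (w : List H)
    (hw : N ≤ w.length) (ω : Fin N → Bool) : ℕ → K
  | 0 => 1
  | n + 1 => if h : n < N then lift k0 k1 w hw ω n * (k0 (ω ⟨n, h⟩) * k1 (w[n])) else
      lift k0 k1 w hw ω n

theorem lift_congr {K : Type} [Group K] {N : ℕ} (k0 : Bool → K) (k1 : H → K) (w : List H)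
    (hw : N ≤ w.length) (ω ω' : Fin N → Bool) (n : ℕ)
    (h : ∀ j : Fin N, (j : ℕ) < n → ω j = ω' j) :
    lift k0 k1 w hw ω n = lift k0 k1 w hw ω' n := by
  induction n with
  | zero => rfl
  | succ n ih =>
    rw [lift, lift, ih (fun j hj => h j (by omega))]
    by_cases h1 : n < N
    · rw [dif_pos h1, dif_pos h1, h ⟨n, h1⟩ (by simp)]
    · rw [dif_neg h1, dif_neg h1]

theorem lift_map {K : Type} [Group K] {N : ℕ} (k0 : Bool → K) (k1 : H → K) (w : List H)
    (hw : N ≤ w.length) (ω : Fin N → Bool)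
    (π : K →* Multiplicative (X →₀ A) ⋊[lamps A H X] H) (o : X) (c : A)
    (h0 : ∀ b, π (k0 b) =
      SemidirectProduct.inl (Multiplicative.ofAdd (Finsupp.single o (if b then c else 0))))
    (h1 : ∀ s ∈ w, π (k1 s) = SemidirectProduct.inr s) (n : ℕ) (hn : n ≤ N) :
    π (lift k0 k1 w hw ω n) =
      ⟨Multiplicative.ofAdd (lamp c (fun j : Fin N => (w.take j).prod • o) n ω),
        (w.take n).prod⟩ := by
  induction n with
  | zero =>
    rw [lift, map_one, lamp_zero]
    rfl
  | succ n ih =>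
    have hn' : n < w.length := by omega
    rw [lift, dif_pos (by omega), map_mul, map_mul, ih (by omega), h0,
      h1 _ (List.getElem_mem hn'), lamp_succ c _ (by omega : n < N)]
    apply SemidirectProduct.ext
    · simp only [SemidirectProduct.mul_left, SemidirectProduct.left_inl,
        SemidirectProduct.left_inr, SemidirectProduct.right_inl, map_one, mul_one, lamps_single]
      rfl
    · simp only [SemidirectProduct.mul_right, SemidirectProduct.right_inl,
        SemidirectProduct.right_inr, one_mul]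
      rw [List.take_succ_eq_append_getElem hn', List.prod_append, List.prod_singleton]

theorem unpredictable_section {G : Type} [Group G] {T : Set G} (hT : Subgroup.closure T = ⊤)
    (K : Subgroup G) (π : K →* Multiplicative (X →₀ A) ⋊[lamps A H X] H) (o : X) {c : A}
    (hc : c ≠ 0) (k0 : Bool → K) (k1 : H → K)
    (hk0 : ∀ b, π (k0 b) =
      SemidirectProduct.inl (Multiplicative.ofAdd (Finsupp.single o (if b then c else 0))))
    {R Q : ℕ} {ρ : ℝ≥0} (h0 : 0 < ρ) (h1 : ρ < 1) (h2 : 1 ≤ 2 * ρ ^ Q) {N : ℕ} (w : List H)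
    (hwN : N ≤ w.length) (hk1 : ∀ s ∈ w, π (k1 s) = SemidirectProduct.inr s)
    (hR : ∀ b, ∀ s ∈ w, (SimpleGraph.mulCayley T).dist 1 ((k0 b * k1 s : K) : G) ≤ R)
    (hv : ∀ v, v <:+: w → v.length ≤ Q * (vis o v).card) :
    ∃ (Ω : Type) (_ : MeasurableSpace Ω) (μ : Measure Ω) (Y : ℕ → Ω → G),
      IsProbabilityMeasure μ ∧ Unpredictable (SimpleGraph.mulCayley T) R ρ⁻¹ ρ N μ Y := by
  classical
  set z : Fin N → X := fun j => (w.take j).prod • o with hz
  set Ω := Fin N → Bool with hΩ
  let _ : MeasurableSpace Ω := ⊤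
  set μ : Measure Ω := (PMF.uniformOfFintype Ω).toMeasure with hμ
  set Y : ℕ → Ω → G := fun n ω => ((lift k0 k1 w hwN ω n : K) : G) with hY
  refine ⟨Ω, ⊤, μ, Y, inferInstance, ?_, ?_, ?_⟩
  · intro n y
    trivial
  · intro n hn
    refine Filter.Eventually.of_forall (fun ω => ?_)
    have hn' : n < w.length := lt_of_lt_of_le hn hwN
    have h3 : Y (n + 1) ω = Y n ω * ((k0 (ω ⟨n, hn⟩) * k1 (w[n]) : K) : G) := by
      simp only [hY]
      rw [lift, dif_pos hn]
      rfl
    rw [h3]
    have h4 := cay_dist hT (Y n ω) 1 ((k0 (ω ⟨n, hn⟩) * k1 (w[n]) : K) : G)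
    rw [mul_one] at h4
    exact h4.trans (hR _ _ (List.getElem_mem hn'))
  · intro m a hma x y
    obtain ⟨P, hP1, hP2⟩ : ∃ P : Finset X, a ≤ Q * P.card + 1 ∧
        ∀ x ∈ P, ∃ j : Fin N, m ≤ (j : ℕ) ∧ (j : ℕ) < m + a ∧ z j = x := by
      rcases Nat.eq_zero_or_pos a with rfl | ha
      · exact ⟨∅, by simp, by simp⟩
      · set v := (w.drop m).take (a - 1) with hvd
        have hv1 : v <:+: w := (List.take_prefix _ _).isInfix.trans (List.drop_suffix _ _).isInfix
        have hv2 : v.length = a - 1 := by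
          rw [hvd, List.length_take, List.length_drop]
          omega
        refine ⟨(vis o v).image (fun x => (w.take m).prod • x), ?_, ?_⟩
        · rw [card_smul]
          have := hv v hv1
          omega
        · intro x hx
          obtain ⟨x', hx', rfl⟩ := Finset.mem_image.1 hx
          obtain ⟨i, hi, rfl⟩ := vis_exists o v x' hx'
          rw [hv2] at hi
          refine ⟨⟨m + i, by omega⟩, by simp, by simp; omega, ?_⟩
          simp only [hz]
          rw [List.take_add, List.prod_append, mul_smul, hvd, List.take_take, min_eq_left hi]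
    have hcount := lamp_count hc z P hP2 {ω | (∀ i ≤ m, Y i ω = x i) ∧ Y (m + a) ω = y}
      {ω | ∀ i ≤ m, Y i ω = x i} (by
        rintro ω ⟨h3, -⟩ ω' h4 i hi
        rw [← h3 i hi]
        simp only [hY]
        rw [lift_congr k0 k1 w hwN ω' ω i (fun j hj => h4 j (by omega))]) (by
        rintro ω ⟨-, h3⟩ ω' ⟨-, h4⟩
        have h5 : lift k0 k1 w hwN ω (m + a) = lift k0 k1 w hwN ω' (m + a) :=
          Subtype.ext (h3.trans h4.symm)
        have h6 := congrArg π h5
        rw [lift_map k0 k1 w hwN ω π o c hk0 hk1 _ hma,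
          lift_map k0 k1 w hwN ω' π o c hk0 hk1 _ hma] at h6
        exact congrArg SemidirectProduct.left h6)
    set E : Set Ω := {ω | (∀ i ≤ m, Y i ω = x i) ∧ Y (m + a) ω = y} with hE
    set F : Set Ω := {ω | ∀ i ≤ m, Y i ω = x i} with hF
    have hb := rho_bound h0 h1 h2 hP1
    have hb' : (1 : ℝ≥0∞) ≤ (ρ⁻¹ : ℝ≥0) * (ρ : ℝ≥0∞) ^ a * 2 ^ P.card := by
      exact_mod_cast hb
    have hc' : (Fintype.card E : ℝ≥0∞) * 2 ^ P.card ≤ (Fintype.card F : ℝ≥0∞) := by
      rw [← Nat.card_eq_fintype_card, ← Nat.card_eq_fintype_card]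
      exact_mod_cast hcount
    have hEm : MeasurableSet E := trivial
    have hFm : MeasurableSet F := trivial
    rw [hμ, PMF.toMeasure_uniformOfFintype_apply E hEm, PMF.toMeasure_uniformOfFintype_apply F hFm]
    calc (Fintype.card E : ℝ≥0∞) / Fintype.card Ω
        ≤ ((ρ⁻¹ : ℝ≥0) * (ρ : ℝ≥0∞) ^ a * 2 ^ P.card) * (Fintype.card E / Fintype.card Ω) := by
          conv_lhs => rw [← one_mul ((Fintype.card E : ℝ≥0∞) / Fintype.card Ω)]
          exact mul_le_mul' hb' le_rfl
      _ = ((ρ⁻¹ : ℝ≥0) * (ρ : ℝ≥0∞) ^ a) * ((Fintype.card E * 2 ^ P.card) / Fintype.card Ω) := by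
          rw [div_eq_mul_inv, div_eq_mul_inv]
          ring
      _ ≤ ((ρ⁻¹ : ℝ≥0) * (ρ : ℝ≥0∞) ^ a) * (Fintype.card F / Fintype.card Ω) := by
          gcongr

/-- A group with a section `A ≀_X H`, where `H` spreads over `X`, has expanding subgraphs in all
its Cayley graphs. -/
theorem of_section [Nontrivial A] [Nonempty X] {G : Type} [Group G] {T : Set G} (hTf : T.Finite)
    (hT : Subgroup.closure T = ⊤) (K : Subgroup G)
    (π : K →* Multiplicative (X →₀ A) ⋊[lamps A H X] H) (hπ : Function.Surjective π)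
    {S : Finset H} (hne : S.Nonempty) (hS : ∀ s ∈ S, s⁻¹ ∈ S) {p C : ℝ} (hp : 1 < p)
    (h : ∀ r : ℕ, 1 ≤ r → ∃ (ι : Type) (_ : Fintype ι) (_ : Nonempty ι)
      (h : ι → List H), (∀ i, (h i).length = r) ∧ (∀ i, ∀ s ∈ h i, s ∈ S) ∧ ∀ x y : X,
      (Nat.card {i // (h i).prod • x = y} : ℝ) ≤ C * (r : ℝ) ^ (-p) * Fintype.card ι) :
    HasExpandingSubgraph (SimpleGraph.mulCayley T) := by
  classical
  obtain ⟨o⟩ := ‹Nonempty X›
  obtain ⟨c, hc⟩ := exists_ne (0 : A)
  rw [W_55e385_h22.iff_finite (cay_connected hT) (cay_finite hTf) cay_transitive]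
  obtain ⟨Q, hQ, hw⟩ := windows (S := (S : Set H)) hS hne o hp h
  obtain ⟨ρ, h0, h1, h2⟩ := exists_rho hQ
  choose k hk using hπ
  set k0 : Bool → K := fun b => k (SemidirectProduct.inl
    (Multiplicative.ofAdd (Finsupp.single o (if b then c else 0)))) with hk0
  set k1 : H → K := fun s => k (SemidirectProduct.inr s) with hk1
  obtain ⟨R, hR⟩ : ∃ R : ℕ, ∀ b, ∀ s ∈ S,
      (SimpleGraph.mulCayley T).dist 1 ((k0 b * k1 s : K) : G) ≤ R := by
    refine ⟨∑ b : Bool, ∑ s ∈ S, (SimpleGraph.mulCayley T).dist 1 ((k0 b * k1 s : K) : G), ?_⟩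
    intro b s hs
    calc (SimpleGraph.mulCayley T).dist 1 ((k0 b * k1 s : K) : G)
        ≤ ∑ s ∈ S, (SimpleGraph.mulCayley T).dist 1 ((k0 b * k1 s : K) : G) :=
          Finset.single_le_sum (f := fun s => (SimpleGraph.mulCayley T).dist 1
            ((k0 b * k1 s : K) : G)) (fun _ _ => Nat.zero_le _) hs
      _ ≤ _ := Finset.single_le_sum (f := fun b => ∑ s ∈ S, (SimpleGraph.mulCayley T).dist 1
            ((k0 b * k1 s : K) : G)) (fun _ _ => Nat.zero_le _) (Finset.mem_univ b)
  refine ⟨R, ρ⁻¹, ρ, h1, fun N => ?_⟩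
  obtain ⟨w, hw1, hw2, hw3⟩ := hw N
  exact unpredictable_section hT K π o hc k0 k1 (fun b => hk _) h0 h1 h2 w hw1
    (fun s _ => hk _) (fun b s hs => hR b s (hw2 s hs)) hw3

end

end Pool.Agent.W_55e385w_h22
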