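import Pool.Agent.W_55e385w_h22.Count
import Pool.Agent.W_55e385w_h22.Loc
import Pool.Agent.W_55e385w_h22.Section

set_option autoImplicit false

/-!
# From expanding subgraphs to words
-/

namespace Pool.Agent.W_55e385w_h22

open scoped Pointwise

section

variable {H X : Type} [Group H] [MulAction H X]

open scoped Classical in
/-- The union of the sets `g • F`, `g` a proper prefix. -/
noncomputable def Vs (F : Finset X) : List H → Finset X
  | [] => ∅
  | h :: l => F ∪ (Vs F l).image (fun x => h • x)

open scoped Classical in
theorem Vs_append (F : Finset X) (l m : List H) :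
    Vs F (l ++ m) = Vs F l ∪ (Vs F m).image (fun x => l.prod • x) := by
  induction l with
  | nil => simp [Vs, Finset.image_id']
  | cons h l ih =>
    rw [List.cons_append, Vs, ih, Vs, Finset.image_union, Finset.image_image, Finset.union_assoc]
    congr 3
    funext x
    simp [mul_smul]

variable {A : Type} [AddCommGroup A]

open scoped Classical in
theorem lamps_support (g : H) (f : X →₀ A) :
    ((lamps A H X g (Multiplicative.ofAdd f)).toAdd).support =
      f.support.image (fun x => g • x) := by
  change (Finsupp.domCongr (MulAction.toPerm g) f).support = _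
  ext x
  rw [Finsupp.mem_support_iff, Finsupp.domCongr_apply, Finsupp.equivMapDomain_apply,
    Finset.mem_image]
  constructor
  · intro h
    exact ⟨(MulAction.toPerm g).symm x, Finsupp.mem_support_iff.2 h,
      (MulAction.toPerm g).apply_symm_apply x⟩
  · rintro ⟨y, hy, rfl⟩
    have : (MulAction.toPerm g).symm (g • y) = y := (MulAction.toPerm g).symm_apply_apply y
    rw [this]
    exact Finsupp.mem_support_iff.1 hy

open scoped Classical in
theorem mem_PP {U : Finset H} {F : Finset X}
    {E : Finset (Multiplicative (X →₀ A) ⋊[lamps A H X] H)}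
    (hE : ∀ φ : X →₀ A, φ.support ⊆ F → SemidirectProduct.inl (Multiplicative.ofAdd φ) ∈ E)
    (hs : List H) (hU : ∀ h ∈ hs, h ∈ U) (f : X →₀ A) (hf : f.support ⊆ Vs F hs) :
    (⟨Multiplicative.ofAdd f, hs.prod⟩ : Multiplicative (X →₀ A) ⋊[lamps A H X] H) ∈
      PP (fun d => (U ^ d).image SemidirectProduct.inr) E hs.length (Vs F hs).card := by
  have hJ0 : (1 : Multiplicative (X →₀ A) ⋊[lamps A H X] H) ∈
      (fun d => (U ^ d).image SemidirectProduct.inr) 0 := by
    refine Finset.mem_image.2 ⟨1, ?_, map_one _⟩
    rw [pow_zero]
    exact Finset.mem_one.2 rfl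
  have hE1 : (1 : Multiplicative (X →₀ A) ⋊[lamps A H X] H) ∈ E := by
    have := hE 0 (by simp)
    rwa [ofAdd_zero, map_one] at this
  induction hs generalizing f with
  | nil =>
    have : f = 0 := by
      rw [Vs, Finset.subset_empty, Finsupp.support_eq_empty] at hf
      exact hf
    subst this
    exact hJ0
  | cons h l ih =>
    set V' := (Vs F l).image (fun x => h • x) with hV'
    have hcardV : V'.card = (Vs F l).card := card_smul h _
    set f1 := f.filter (fun x => x ∉ V') with hf1
    set f2 := f.filter (fun x => ¬ (x ∉ V')) with hf2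
    have hsum : f1 + f2 = f := Finsupp.filter_add_filter_not f _
    have hs1 : f1.support ⊆ F := by
      intro x hx
      rw [hf1, Finsupp.support_filter, Finset.mem_filter] at hx
      have := hf hx.1
      rw [Vs, Finset.mem_union] at this
      exact this.resolve_right hx.2
    have hs2 : f2.support ⊆ V' := by
      intro x hx
      rw [hf2, Finsupp.support_filter, Finset.mem_filter, not_not] at hx
      exact hx.2
    set f2' : X →₀ A := (lamps A H X h⁻¹ (Multiplicative.ofAdd f2)).toAdd with hf2'
    have hs2' : f2'.support ⊆ Vs F l := by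
      rw [hf2', lamps_support]
      intro x hx
      obtain ⟨y, hy, rfl⟩ := Finset.mem_image.1 hx
      obtain ⟨z, hz, rfl⟩ := Finset.mem_image.1 (hs2 hy)
      rwa [inv_smul_smul]
    have hback : lamps A H X h (Multiplicative.ofAdd f2') = Multiplicative.ofAdd f2 := by
      rw [hf2', ofAdd_toAdd, ← MulAut.mul_apply, ← map_mul, mul_inv_cancel, map_one]
      rfl
    have hy := ih (fun g hg => hU g (List.mem_cons_of_mem _ hg)) f2' hs2'
    have hjump := PP_jump (j0 := SemidirectProduct.inr h) (by
      intro d j hj
      obtain ⟨u, hu, rfl⟩ := Finset.mem_image.1 hj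
      refine Finset.mem_image.2 ⟨h * u, ?_, map_mul _ _ _⟩
      rw [pow_succ']
      exact Finset.mul_mem_mul (hU h List.mem_cons_self) hu) hy
    have heq : (⟨Multiplicative.ofAdd f, (h :: l).prod⟩ :
        Multiplicative (X →₀ A) ⋊[lamps A H X] H) =
        SemidirectProduct.inl (Multiplicative.ofAdd f1) *
          (SemidirectProduct.inr h * ⟨Multiplicative.ofAdd f2', l.prod⟩) := by
      apply SemidirectProduct.ext
      · simp only [SemidirectProduct.mul_left, SemidirectProduct.left_inl,
          SemidirectProduct.left_inr, SemidirectProduct.right_inl, SemidirectProduct.right_inr,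
          one_mul, map_one, MulAut.one_apply, hback]
        rw [← ofAdd_add, hsum]
      · simp
    rw [heq, List.length_cons]
    by_cases hFV : F ⊆ V'
    · have h1 : f1 = 0 := by
        rw [← Finsupp.support_eq_empty, Finset.eq_empty_iff_forall_notMem]
        intro x hx
        have h2 := hFV (hs1 hx)
        rw [hf1, Finsupp.support_filter, Finset.mem_filter] at hx
        exact hx.2 h2
      rw [h1, ofAdd_zero, map_one, one_mul]
      have h2 : Vs F (h :: l) = V' := by
        rw [Vs]
        exact Finset.union_eq_right.2 hFV
      rw [h2, hcardV]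
      exact hjump
    · have h2 : (Vs F l).card + 1 ≤ (Vs F (h :: l)).card := by
        rw [Vs, ← hcardV]
        refine Finset.card_lt_card ⟨Finset.subset_union_right, ?_⟩
        intro h3
        exact hFV (Finset.subset_union_left.trans h3)
      exact PP_mono hJ0 hE1 h2 (PP_label hJ0 (hE f1 hs1) hjump)

end

section

variable {A H X : Type} [AddCommGroup A] [Group H] [MulAction H X]

/-- The `H`-steps along `τ` from `l0`. -/
noncomputable def hs (p : List Bool → Multiplicative (X →₀ A) ⋊[lamps A H X] H) (l0 : List Bool) :
    List Bool → List H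
  | [] => []
  | b :: τ => hs p l0 τ ++ [((p (τ ++ l0))⁻¹ * p (b :: (τ ++ l0))).right]

variable (p : List Bool → Multiplicative (X →₀ A) ⋊[lamps A H X] H)

theorem hs_length (l0 τ : List Bool) : (hs p l0 τ).length = τ.length := by
  induction τ with
  | nil => rfl
  | cons b τ ih => rw [hs, List.length_append, ih]; rfl

theorem hs_append (l0 τ σ : List Bool) : hs p l0 (σ ++ τ) = hs p l0 τ ++ hs p (τ ++ l0) σ := by
  induction σ with
  | nil => simp [hs]
  | cons b σ ih =>
    rw [List.cons_append, hs, ih, hs, List.append_assoc, List.append_assoc]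

open scoped Classical in
theorem hs_path {F : Finset X}
    (hF : ∀ l b, (((p l)⁻¹ * p (b :: l)).left.toAdd).support ⊆ F) (l0 τ : List Bool) :
    ((p l0)⁻¹ * p (τ ++ l0)).right = (hs p l0 τ).prod ∧
      (((p l0)⁻¹ * p (τ ++ l0)).left.toAdd).support ⊆ Vs F (hs p l0 τ) := by
  induction τ with
  | nil =>
    rw [List.nil_append, inv_mul_cancel]
    exact ⟨rfl, by simp⟩
  | cons b τ ih =>
    obtain ⟨ih1, ih2⟩ := ih
    set y := (p l0)⁻¹ * p (τ ++ l0) with hy
    set u := (p (τ ++ l0))⁻¹ * p (b :: (τ ++ l0)) with hu
    have hyu : (p l0)⁻¹ * p (b :: τ ++ l0) = y * u := by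
      rw [hy, hu, List.cons_append]
      group
    rw [hyu, hs, ← hu]
    constructor
    · rw [SemidirectProduct.mul_right, ih1, List.prod_append, List.prod_singleton]
    · rw [SemidirectProduct.mul_left, Vs_append]
      have h1 : (y.left * (lamps A H X) y.right u.left).toAdd =
          y.left.toAdd + ((lamps A H X) y.right u.left).toAdd := rfl
      rw [h1]
      refine Finsupp.support_add.trans ?_
      refine Finset.union_subset_union ih2 ?_
      have h2 := lamps_support (A := A) y.right u.left.toAdd
      rw [ofAdd_toAdd] at h2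
      rw [h2, ← ih1]
      refine Finset.image_subset_image ?_
      have h3 : Vs F [u.right] = F := by simp [Vs]
      rw [h3]
      exact hF _ _

end

end Pool.Agent.W_55e385w_h22
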