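import Pool.Agent.W_55e385w_h22.Conv

set_option autoImplicit false

/-!
# From expanding subgraphs to words: counting
-/

namespace Pool.Agent.W_55e385w_h22

open scoped Pointwise
open W_55e385_h22 (HasExpandingSubgraph)

section

variable {A H X : Type} [AddCommGroup A] [Group H] [MulAction H X]

open scoped Classical in
theorem steps [Finite A] {U : Finset H} {F : Finset X} {C : ℝ}
    (hgr : ∀ n, ((U ^ n).card : ℝ) ≤ C * (21 / 20) ^ n)
    (p : List Bool → Multiplicative (X →₀ A) ⋊[lamps A H X] H)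
    (hinj : ∀ l0 τ τ' : List Bool, τ.length = τ'.length → p (τ ++ l0) = p (τ' ++ l0) → τ = τ')
    (hU : ∀ l b, ((p l)⁻¹ * p (b :: l)).right ∈ U)
    (hF : ∀ l b, (((p l)⁻¹ * p (b :: l)).left.toAdd).support ⊆ F) :
    ∃ (q a0 : ℕ), ∀ n, ∃ w : List H, w.length = n ∧ (∀ s ∈ w, s ∈ U) ∧
      ∀ v, v <:+: w → a0 ≤ v.length → v.length < q * (Vs F v).card := by
  -- the labels
  obtain ⟨E, hE⟩ : ∃ E : Finset (Multiplicative (X →₀ A) ⋊[lamps A H X] H),
      ∀ φ : X →₀ A, φ.support ⊆ F → SemidirectProduct.inl (Multiplicative.ofAdd φ) ∈ E := by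
    have hfin : ({φ : X →₀ A | φ.support ⊆ F} : Set (X →₀ A)).Finite := by
      have : Finite (F → A) := inferInstance
      refine Set.Finite.of_injOn (f := fun φ (x : F) => φ x)
        (t := (Set.univ : Set (F → A))) (fun _ _ => Set.mem_univ _) ?_ Set.finite_univ
      intro φ hφ ψ hψ h
      ext x
      by_cases hx : x ∈ F
      · exact congrFun h ⟨x, hx⟩
      · have h1 : φ x = 0 := by
          by_contra h2
          exact hx (hφ (Finsupp.mem_support_iff.2 h2))
        have h3 : ψ x = 0 := by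
          by_contra h2
          exact hx (hψ (Finsupp.mem_support_iff.2 h2))
        rw [h1, h3]
    refine ⟨hfin.toFinset.image (fun φ => SemidirectProduct.inl (Multiplicative.ofAdd φ)), ?_⟩
    intro φ hφ
    exact Finset.mem_image.2 ⟨φ, hfin.mem_toFinset.2 hφ, rfl⟩
  set J : ℕ → Finset (Multiplicative (X →₀ A) ⋊[lamps A H X] H) :=
    fun d => (U ^ d).image SemidirectProduct.inr with hJ
  have hC0 : 0 ≤ C := by
    have := hgr 0
    rw [pow_zero, pow_zero, mul_one] at this
    exact le_trans (by positivity) this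
  -- the generating function
  set Γ : ℝ := C * (1 - 189 / 200)⁻¹ + 1 with hΓ
  have hΓ1 : 1 ≤ Γ := by
    rw [hΓ]
    have : 0 ≤ C * (1 - 189 / 200 : ℝ)⁻¹ := by positivity
    linarith
  have hΓb : ∀ n, ∑ d ∈ Finset.range (n + 1), ((J d).card : ℝ) * (9 / 10) ^ d ≤ Γ := by
    intro n
    calc ∑ d ∈ Finset.range (n + 1), ((J d).card : ℝ) * (9 / 10) ^ d
        ≤ ∑ d ∈ Finset.range (n + 1), C * (189 / 200) ^ d := by
          refine Finset.sum_le_sum (fun d _ => ?_)
          have h1 : ((J d).card : ℝ) ≤ C * (21 / 20) ^ d := by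
            refine le_trans ?_ (hgr d)
            exact_mod_cast Finset.card_image_le
          calc ((J d).card : ℝ) * (9 / 10) ^ d ≤ C * (21 / 20) ^ d * (9 / 10) ^ d :=
                mul_le_mul_of_nonneg_right h1 (by positivity)
            _ = C * (189 / 200) ^ d := by
                rw [mul_assoc, ← mul_pow]
                norm_num
      _ = C * ∑ d ∈ Finset.range (n + 1), (189 / 200 : ℝ) ^ d := by rw [Finset.mul_sum]
      _ ≤ C * (1 - 189 / 200)⁻¹ := by
          refine mul_le_mul_of_nonneg_left ?_ hC0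
          rw [← tsum_geometric_of_lt_one (show (0 : ℝ) ≤ 189 / 200 by norm_num) (by norm_num)]
          exact (summable_geometric_of_lt_one (by norm_num) (by norm_num)).sum_le_tsum _
            (fun i _ => by positivity)
      _ ≤ Γ := by rw [hΓ]; linarith
  obtain ⟨q, hq⟩ : ∃ q : ℕ, (E.card : ℝ) * Γ ≤ (9 / 8) ^ q := by
    obtain ⟨q, hq⟩ := pow_unbounded_of_one_lt ((E.card : ℝ) * Γ) (show (1 : ℝ) < 9 / 8 by norm_num)
    exact ⟨q, hq.le⟩
  have hPP : ∀ a, ((PP J E a (a / q)).card : ℝ) ≤ Γ * (5 / 4) ^ a := by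
    intro a
    have h1 := PP_card (J := J) (E := E) (show (0 : ℝ) < 9 / 10 by norm_num) hΓb (by linarith) a
      (a / q)
    have h2 : ((E.card : ℝ) * Γ) ^ (a / q) ≤ (9 / 8) ^ a := by
      calc ((E.card : ℝ) * Γ) ^ (a / q) ≤ ((9 / 8 : ℝ) ^ q) ^ (a / q) :=
            pow_le_pow_left₀ (by positivity) hq _
        _ = (9 / 8) ^ (q * (a / q)) := by rw [← pow_mul]
        _ ≤ (9 / 8) ^ a := pow_le_pow_right₀ (by norm_num) (Nat.mul_div_le a q)
    have h3 : ((PP J E a (a / q)).card : ℝ) * (9 / 10) ^ a ≤ Γ * (9 / 8) ^ a :=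
      h1.trans (mul_le_mul_of_nonneg_left h2 (by linarith))
    have h4 : (5 / 4 : ℝ) ^ a * (9 / 10) ^ a = (9 / 8) ^ a := by
      rw [← mul_pow]; norm_num
    have h5 : (0 : ℝ) < (9 / 10) ^ a := by positivity
    refine le_of_mul_le_mul_right ?_ h5
    rw [mul_assoc, h4]
    exact h3
  set bad : List Bool → List Bool → Prop :=
    fun l0 τ => q * (Vs F (hs p l0 τ)).card ≤ τ.length with hbad
  have hJ0 : (1 : Multiplicative (X →₀ A) ⋊[lamps A H X] H) ∈ J 0 := by
    refine Finset.mem_image.2 ⟨1, ?_, map_one _⟩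
    rw [pow_zero]
    exact Finset.mem_one.2 rfl
  have hE1 : (1 : Multiplicative (X →₀ A) ⋊[lamps A H X] H) ∈ E := by
    have := hE 0 (by simp)
    rwa [ofAdd_zero, map_one] at this
  have hhsU : ∀ l0 τ, ∀ h ∈ hs p l0 τ, h ∈ U := by
    intro l0 τ
    induction τ with
    | nil => intro h hh; simp [hs] at hh
    | cons b τ ih =>
      intro h hh
      rw [hs, List.mem_append, List.mem_singleton] at hh
      rcases hh with hh | rfl
      · exact ih h hh
      · exact hU _ _
  rcases Nat.eq_zero_or_pos q with hq0 | hq0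
  · -- then nothing is needed
    exfalso
    rw [hq0, pow_zero] at hq
    have h1 : (1 : ℝ) ≤ E.card := by
      have : 1 ≤ E.card := Finset.card_pos.2 ⟨1, hE1⟩
      exact_mod_cast this
    have h2 := hinj [] [true] [false] rfl
    have h3 : p [true] = p [false] := by
      have hU1 : (E.card : ℝ) * Γ ≤ 1 := hq
      have hΓ2 : 1 < Γ := by
        rw [hΓ]
        have hC1 : 0 < C := by
          have := hgr 0
          rw [pow_zero, pow_zero, mul_one, Finset.card_one, Nat.cast_one] at this
          linarith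
        have : 0 < C * (1 - 189 / 200 : ℝ)⁻¹ := by positivity
        linarith
      nlinarith
    have := h2 h3
    simp at this
  obtain ⟨a0, ha0⟩ := exists_ok (bad := bad) (K := Γ) (by linarith) (by
    intro l0 a
    set Sset : Set (List Bool) :=
      {τ | τ.length = a ∧ (p l0)⁻¹ * p (τ ++ l0) ∈ PP J E a (a / q)} with hS
    have hinjOn : Set.InjOn (fun τ => (p l0)⁻¹ * p (τ ++ l0)) Sset := by
      intro τ h1 τ' h2 h
      exact hinj l0 τ τ' (h1.1.trans h2.1.symm) (mul_left_cancel h)
    have hmaps : Set.MapsTo (fun τ => (p l0)⁻¹ * p (τ ++ l0)) Sset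
        (PP J E a (a / q) : Set (Multiplicative (X →₀ A) ⋊[lamps A H X] H)) := fun τ h => h.2
    have hfin : Sset.Finite := Set.Finite.of_injOn hmaps hinjOn (Finset.finite_toSet _)
    refine ⟨hfin.toFinset, ?_, ?_⟩
    · intro τ h1 h2
      rw [hfin.mem_toFinset]
      refine ⟨h1, ?_⟩
      obtain ⟨h3, h4⟩ := hs_path p hF l0 τ
      have h5 := mem_PP hE (hs p l0 τ) (hhsU l0 τ) _ h4
      rw [hs_length, h1] at h5
      have h6 : (p l0)⁻¹ * p (τ ++ l0) =
          ⟨Multiplicative.ofAdd (((p l0)⁻¹ * p (τ ++ l0)).left.toAdd), (hs p l0 τ).prod⟩ := by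
        apply SemidirectProduct.ext
        · rfl
        · exact h3
      rw [h6]
      refine PP_mono hJ0 hE1 ?_ h5
      rw [Nat.le_div_iff_mul_le hq0]
      have h7 : q * (Vs F (hs p l0 τ)).card ≤ τ.length := h2
      rw [h1] at h7
      rw [mul_comm]
      exact h7
    · refine le_trans ?_ (hPP a)
      have h1 : hfin.toFinset.card ≤ (PP J E a (a / q)).card := by
        refine Finset.card_le_card_of_injOn (fun τ => (p l0)⁻¹ * p (τ ++ l0)) ?_ ?_
        · intro τ hτ
          exact hmaps (hfin.mem_toFinset.1 hτ)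
        · intro τ h1 τ' h2 h
          exact hinjOn (hfin.mem_toFinset.1 h1) (hfin.mem_toFinset.1 h2) h
      exact_mod_cast h1)
  refine ⟨q, a0, fun n => ?_⟩
  obtain ⟨l, hl, hok⟩ := ha0 n
  refine ⟨hs p [] l, by rw [hs_length, hl], hhsU [] l, ?_⟩
  rintro v ⟨s, t, hst⟩ hv
  -- decompose `l`
  have hlen : s.length + v.length + t.length = l.length := by
    have := congrArg List.length hst
    rw [hs_length] at this
    simp only [List.length_append] at this
    omega
  set τ' := l.take t.length with hτ'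
  set τ := (l.drop t.length).take v.length with hτ
  set l0 := (l.drop t.length).drop v.length with hl0
  have hdec : l = τ' ++ (τ ++ l0) := by
    rw [hτ, hl0, List.take_append_drop, hτ', List.take_append_drop]
  have hτl : τ.length = v.length := by
    rw [hτ, List.length_take, List.length_drop]
    omega
  have hl0l : l0.length = s.length := by
    rw [hl0, List.length_drop, List.length_drop]
    omega
  have h1 := hok τ' τ l0 hdec (by omega)
  have h2 : hs p [] l = hs p [] l0 ++ (hs p l0 τ ++ hs p (τ ++ l0) τ') := by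
    have h3 := hs_append p [] (τ ++ l0) τ'
    have h4 := hs_append p [] l0 τ
    rw [List.append_nil] at h3 h4
    rw [hdec, h3, h4, List.append_assoc]
  have h3 : s ++ (v ++ t) = hs p [] l0 ++ (hs p l0 τ ++ hs p (τ ++ l0) τ') := by
    rw [← h2, ← hst, List.append_assoc]
  have h4 := List.append_inj h3 (by rw [hs_length, hl0l])
  have h5 := List.append_inj h4.2 (by rw [hs_length, hτl])
  have h6 : ¬ q * (Vs F (hs p l0 τ)).card ≤ τ.length := h1
  rw [← h5.1, hτl] at h6
  omega

end

end Pool.Agent.W_55e385w_h22
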