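import Mathlib

set_option autoImplicit false

/-!
# Few outcomes of windows that visit few points
-/

namespace Pool.Agent.W_55e385w_h22

section

variable {G : Type} [Group G]

open scoped Classical in
/-- Products of jumps and at most `k` labels. -/
noncomputable def PP (J : ℕ → Finset G) (E : Finset G) : ℕ → ℕ → Finset G
  | n, 0 => J n
  | n, k + 1 => (Finset.range (n + 1)).biUnion fun d =>
      (J d ×ˢ E ×ˢ PP J E (n - d) k).image fun t => t.1 * t.2.1 * t.2.2

variable {J : ℕ → Finset G} {E : Finset G}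

theorem PP_card {s Γ : ℝ} (hs : 0 < s) (hΓ : ∀ n, ∑ d ∈ Finset.range (n + 1),
    ((J d).card : ℝ) * s ^ d ≤ Γ) (hΓ0 : 0 ≤ Γ) (n k : ℕ) :
    ((PP J E n k).card : ℝ) * s ^ n ≤ Γ * (E.card * Γ) ^ k := by
  classical
  induction k generalizing n with
  | zero =>
    rw [PP, pow_zero, mul_one]
    refine le_trans ?_ (hΓ n)
    exact Finset.single_le_sum (f := fun d => ((J d).card : ℝ) * s ^ d)
      (fun d _ => by positivity) (Finset.mem_range.2 (Nat.lt_succ_self n))
  | succ k ih =>
    have h1 : ((PP J E n (k + 1)).card : ℝ) ≤ ∑ d ∈ Finset.range (n + 1),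
        ((J d).card : ℝ) * (E.card * (PP J E (n - d) k).card) := by
      rw [PP]
      have h2 := Finset.card_biUnion_le (s := Finset.range (n + 1)) (t := fun d =>
        (J d ×ˢ E ×ˢ PP J E (n - d) k).image fun t => t.1 * t.2.1 * t.2.2)
      have h3 : ∑ d ∈ Finset.range (n + 1), ((J d ×ˢ E ×ˢ PP J E (n - d) k).image
          fun t => t.1 * t.2.1 * t.2.2).card ≤ ∑ d ∈ Finset.range (n + 1),
          (J d).card * (E.card * (PP J E (n - d) k).card) := by
        refine Finset.sum_le_sum (fun d _ => ?_)
        refine Finset.card_image_le.trans ?_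
        rw [Finset.card_product, Finset.card_product]
      have h4 := h2.trans h3
      have h5 : ((∑ d ∈ Finset.range (n + 1),
          (J d).card * (E.card * (PP J E (n - d) k).card) : ℕ) : ℝ) =
          ∑ d ∈ Finset.range (n + 1), ((J d).card : ℝ) * (E.card * (PP J E (n - d) k).card) := by
        push_cast
        rfl
      rw [← h5]
      exact_mod_cast h4
    calc ((PP J E n (k + 1)).card : ℝ) * s ^ n
        ≤ (∑ d ∈ Finset.range (n + 1),
          ((J d).card : ℝ) * (E.card * (PP J E (n - d) k).card)) * s ^ n :=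
          mul_le_mul_of_nonneg_right h1 (by positivity)
      _ = ∑ d ∈ Finset.range (n + 1), (((J d).card : ℝ) * s ^ d) *
            (E.card * ((PP J E (n - d) k).card * s ^ (n - d))) := by
          rw [Finset.sum_mul]
          refine Finset.sum_congr rfl (fun d hd => ?_)
          have : s ^ n = s ^ d * s ^ (n - d) := by
            rw [← pow_add]
            congr 1
            have := Finset.mem_range.1 hd
            omega
          rw [this]
          ring
      _ ≤ ∑ d ∈ Finset.range (n + 1), (((J d).card : ℝ) * s ^ d) *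
            (E.card * (Γ * (E.card * Γ) ^ k)) := by
          refine Finset.sum_le_sum (fun d _ => ?_)
          refine mul_le_mul_of_nonneg_left ?_ (by positivity)
          exact mul_le_mul_of_nonneg_left (ih (n - d)) (by positivity)
      _ = (∑ d ∈ Finset.range (n + 1), (((J d).card : ℝ) * s ^ d)) *
            (E.card * (Γ * (E.card * Γ) ^ k)) := by rw [Finset.sum_mul]
      _ ≤ Γ * (E.card * (Γ * (E.card * Γ) ^ k)) :=
          mul_le_mul_of_nonneg_right (hΓ n) (by positivity)
      _ = Γ * (E.card * Γ) ^ (k + 1) := by rw [pow_succ]; ring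

theorem PP_jump {j0 : G} (hj : ∀ d, ∀ j ∈ J d, j0 * j ∈ J (d + 1)) {n k : ℕ} {y : G}
    (hy : y ∈ PP J E n k) : j0 * y ∈ PP J E (n + 1) k := by
  classical
  cases k with
  | zero => exact hj n y hy
  | succ k =>
    rw [PP, Finset.mem_biUnion] at hy ⊢
    obtain ⟨d, hd, hy⟩ := hy
    obtain ⟨⟨j, e, z⟩, ht, rfl⟩ := Finset.mem_image.1 hy
    rw [Finset.mem_product, Finset.mem_product] at ht
    refine ⟨d + 1, Finset.mem_range.2 (by have := Finset.mem_range.1 hd; omega), ?_⟩
    refine Finset.mem_image.2 ⟨(j0 * j, e, z), ?_, ?_⟩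
    · rw [Finset.mem_product, Finset.mem_product]
      refine ⟨hj d j ht.1, ht.2.1, ?_⟩
      rw [show n + 1 - (d + 1) = n - d by omega]
      exact ht.2.2
    · simp only [mul_assoc]

theorem PP_label (h1 : (1 : G) ∈ J 0) {e : G} (he : e ∈ E) {n k : ℕ} {y : G}
    (hy : y ∈ PP J E n k) : e * y ∈ PP J E n (k + 1) := by
  classical
  rw [PP, Finset.mem_biUnion]
  refine ⟨0, Finset.mem_range.2 (Nat.succ_pos _), ?_⟩
  refine Finset.mem_image.2 ⟨(1, e, y), ?_, by simp⟩
  rw [Finset.mem_product, Finset.mem_product]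
  exact ⟨h1, he, hy⟩

theorem PP_mono (h1 : (1 : G) ∈ J 0) (he : (1 : G) ∈ E) {n k l : ℕ} (hkl : k ≤ l) {y : G}
    (hy : y ∈ PP J E n k) : y ∈ PP J E n l := by
  induction l, hkl using Nat.le_induction with
  | base => exact hy
  | succ l _ ih =>
    have := PP_label h1 he ih
    rwa [one_mul] at this

end

end Pool.Agent.W_55e385w_h22
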