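import Pool.Agent.W_55e385w_h22.Grig
import Pool.Agent.W_55e385w_h22.Section

set_option autoImplicit false

/-!
# Random words in Grigorchuk's group, products
-/

namespace Pool.Agent.W_55e385w_h22

/-- For each `r` there is a random word of length `r` in the letters `S` that moves `x` to `y`
with probability at most `C * r ^ (-p)`. -/
def RW {H : Type} [Group H] (X : Type) [MulAction H X] (S : Finset H) (p C : ℝ) : Prop :=
  ∀ r : ℕ, 1 ≤ r → ∃ (ι : Type) (_ : Fintype ι) (_ : Nonempty ι)
      (h : ι → List H), (∀ i, (h i).length = r) ∧ (∀ i, ∀ s ∈ h i, s ∈ S) ∧ ∀ x y : X,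
      (Nat.card {i // (h i).prod • x = y} : ℝ) ≤ C * (r : ℝ) ^ (-p) * Fintype.card ι

section

variable {κ : Type} [Fintype κ] [DecidableEq κ] {H X : κ → Type} [∀ i, Group (H i)]
  [∀ i, MulAction (H i) (X i)]

theorem rw_pi (S : ∀ i, Finset (H i)) (p C : κ → ℝ) (h : ∀ i, RW (X i) (S i) (p i) (C i)) :
    RW (∀ i, X i) (Fintype.piFinset S) (∑ i, p i) (∏ i, C i) := by
  intro r hr
  choose ι i1 i2 g g1 g2 g3 using fun i => h i r hr
  have hr0 : (0 : ℝ) < r := by exact_mod_cast hr
  refine ⟨∀ i, ι i, inferInstance, inferInstance,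
    fun w => List.ofFn fun (t : Fin r) i => (g i (w i))[(t : ℕ)]'(by rw [g1]; exact t.2),
    ?_, ?_, ?_⟩
  · intro w
    simp
  · intro w s hs
    rw [List.mem_ofFn] at hs
    obtain ⟨t, rfl⟩ := hs
    rw [Fintype.mem_piFinset]
    intro i
    exact g2 i (w i) _ (List.getElem_mem _)
  · intro x y
    have hprod : ∀ (w : ∀ i, ι i) (i : κ),
        (List.ofFn fun (t : Fin r) i =>
          (g i (w i))[(t : ℕ)]'(by rw [g1]; exact t.2)).prod i = (g i (w i)).prod := by
      intro w i
      rw [Pi.list_prod_apply, List.map_ofFn]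
      congr 1
      apply List.ext_getElem
      · simp [g1]
      · intro n h1 h2
        simp
    have e1 : Nat.card {w : ∀ i, ι i // (List.ofFn fun (t : Fin r) i =>
          (g i (w i))[(t : ℕ)]'(by rw [g1]; exact t.2)).prod • x = y} =
        ∏ i, Nat.card {j : ι i // (g i j).prod • x i = y i} := by
      rw [← Nat.card_pi]
      refine Nat.card_congr ((Equiv.subtypeEquivRight (fun w => ?_)).trans
        (Equiv.subtypePiEquivPi (p := fun i (j : ι i) => (g i j).prod • x i = y i)))
      rw [funext_iff]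
      refine forall_congr' (fun i => ?_)
      rw [← hprod w i]
      rfl
    rw [e1]
    push_cast
    calc ∏ i, (Nat.card {j : ι i // (g i j).prod • x i = y i} : ℝ)
        ≤ ∏ i, (C i * (r : ℝ) ^ (-(p i)) * Fintype.card (ι i)) :=
          Finset.prod_le_prod (fun i _ => Nat.cast_nonneg _) (fun i _ => g3 i (x i) (y i))
      _ = _ := by
          rw [Finset.prod_mul_distrib, Finset.prod_mul_distrib, ← Real.rpow_sum_of_pos hr0,
            Finset.sum_neg_distrib, Fintype.card_pi]
          push_cast
          rfl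

end

/-- Grigorchuk's group. -/
def grig : Subgroup (Equiv.Perm (ℕ → Bool)) := Subgroup.closure (Set.range gen)

/-- The generators. -/
def gg (s : St) : grig := ⟨gen s, Subgroup.subset_closure ⟨s, rfl⟩⟩

open scoped Classical in
/-- The set of generators. -/
noncomputable def letters : Finset grig := ({.e, .a, .b, .c, .d} : Finset St).image gg

theorem gg_mem (s : St) : gg s ∈ letters := by
  classical
  refine Finset.mem_image.2 ⟨s, ?_, rfl⟩
  cases s <;> simp

theorem gg_inv (s : St) : (gg s)⁻¹ = gg s := by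
  apply Subtype.ext
  change (gen s)⁻¹ = gen s
  rw [inv_eq_iff_mul_eq_one]
  ext x : 1
  exact act_act s x

theorem gg_e : gg .e = 1 := by
  apply Subtype.ext
  ext x : 1
  exact act_e x

theorem letters_symm : ∀ s ∈ letters, s⁻¹ ∈ letters := by
  classical
  intro s hs
  obtain ⟨t, _, rfl⟩ := Finset.mem_image.1 hs
  rw [gg_inv]
  exact gg_mem t

/-- The word of a list of syllables. -/
def lw : List (Fin 3) → List grig
  | [] => []
  | s :: w => gg .a :: gg (sec s) :: lw w

theorem lw_length (w : List (Fin 3)) : (lw w).length = 2 * w.length := by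
  induction w with
  | nil => rfl
  | cons s w ih =>
    rw [lw, List.length_cons, List.length_cons, List.length_cons, ih]
    ring

theorem lw_mem (w : List (Fin 3)) : ∀ s ∈ lw w, s ∈ letters := by
  induction w with
  | nil => intro s hs; simp [lw] at hs
  | cons t w ih =>
    intro s hs
    rw [lw, List.mem_cons, List.mem_cons] at hs
    rcases hs with rfl | rfl | hs
    · exact gg_mem _
    · exact gg_mem _
    · exact ih s hs

theorem lw_prod (w : List (Fin 3)) (x : ℕ → Bool) :
    ((lw w).prod : Equiv.Perm (ℕ → Bool)) x = ev w x := by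
  induction w with
  | nil => rfl
  | cons s w ih =>
    rw [lw, List.prod_cons, List.prod_cons, ev, ← ih]
    rfl

/-- The word of the exponents `ε`. -/
def hw (ε : ℕ → Bool) : ℕ → List grig
  | 0 => []
  | k + 1 => (if ε k then lw (wd k) else []) ++ hw ε k

theorem hw_length (ε : ℕ → Bool) (k : ℕ) : (hw ε k).length + 1 ≤ 3 ^ k := by
  induction k with
  | zero => simp [hw]
  | succ k ih =>
    rw [hw, List.length_append, pow_succ]
    have h1 : (if ε k then lw (wd k) else []).length ≤ 2 * 3 ^ k := by
      split_ifs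
      · rw [lw_length]
        have := length_wd k
        omega
      · simp
    omega

theorem hw_mem (ε : ℕ → Bool) (k : ℕ) : ∀ s ∈ hw ε k, s ∈ letters := by
  induction k with
  | zero => intro s hs; simp [hw] at hs
  | succ k ih =>
    intro s hs
    rw [hw, List.mem_append] at hs
    rcases hs with hs | hs
    · split_ifs at hs
      · exact lw_mem _ s hs
      · simp at hs
    · exact ih s hs

theorem hw_congr {ε ε' : ℕ → Bool} {k : ℕ} (h : ∀ j < k, ε j = ε' j) : hw ε k = hw ε' k := by
  induction k with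
  | zero => rfl
  | succ k ih => rw [hw, hw, h k (by omega), ih (fun j hj => h j (by omega))]

theorem hw_inj {ε ε' : ℕ → Bool} (x : ℕ → Bool) {k : ℕ}
    (h : ∀ j < k, ((hw ε k).prod : Equiv.Perm (ℕ → Bool)) x j =
      ((hw ε' k).prod : Equiv.Perm (ℕ → Bool)) x j) : ∀ j < k, ε j = ε' j := by
  induction k with
  | zero => intro j hj; omega
  | succ k ih =>
    have key : ∀ ε : ℕ → Bool, (∀ j < k, ((hw ε (k + 1)).prod : Equiv.Perm (ℕ → Bool)) x j =
        ((hw ε k).prod : Equiv.Perm (ℕ → Bool)) x j) ∧
        ((hw ε (k + 1)).prod : Equiv.Perm (ℕ → Bool)) x k =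
          xor (ε k) (((hw ε k).prod : Equiv.Perm (ℕ → Bool)) x k) := by
      intro ε
      rw [hw, List.prod_append]
      cases hε : ε k
      · simp
      · have h1 : ∀ y, (((if true = true then lw (wd k) else []).prod : grig) :
            Equiv.Perm (ℕ → Bool)) y = ev (wd k) y := by
          intro y
          rw [if_pos rfl, lw_prod]
        obtain ⟨h2, h3⟩ := flip_wd k (((hw ε k).prod : Equiv.Perm (ℕ → Bool)) x)
        constructor
        · intro j hj
          rw [← h2 j hj, ← h1]
          rfl
        · rw [Bool.true_xor, ← h3, ← h1]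
          rfl
    obtain ⟨k1, k2⟩ := key ε
    obtain ⟨k3, k4⟩ := key ε'
    have h1 : ∀ j < k, ε j = ε' j := by
      refine ih (fun j hj => ?_)
      rw [← k1 j hj, ← k3 j hj]
      exact h j (by omega)
    have h2 : ε k = ε' k := by
      have h3 := h k (by omega)
      rw [k2, k4, hw_congr h1] at h3
      simpa using h3
    intro j hj
    rcases Nat.lt_succ_iff_lt_or_eq.1 hj with h4 | h4
    · exact h1 j h4
    · rw [h4]; exact h2

theorem rw_grig (o : ℕ → Bool) :
    RW (MulAction.orbit grig o) letters (Real.logb 3 2) 2 := by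
  intro r hr
  set k := Nat.log 3 r with hk
  have hk1 : 3 ^ k ≤ r := Nat.pow_log_le_self 3 (by omega)
  have hk2 : r < 3 ^ (k + 1) := Nat.lt_pow_succ_log_self (by norm_num) r
  set ex : (Fin k → Bool) → (ℕ → Bool) := fun ε j => if h : j < k then ε ⟨j, h⟩ else false
    with hex
  refine ⟨Fin k → Bool, inferInstance, inferInstance,
    fun ε => hw (ex ε) k ++ List.replicate (r - (hw (ex ε) k).length) 1, ?_, ?_, ?_⟩
  · intro ε
    have := hw_length (ex ε) k
    rw [List.length_append, List.length_replicate]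
    omega
  · intro ε s hs
    rw [List.mem_append] at hs
    rcases hs with hs | hs
    · exact hw_mem _ _ s hs
    · rw [List.eq_of_mem_replicate hs, ← gg_e]
      exact gg_mem _
  · intro x y
    have hprod : ∀ ε : Fin k → Bool,
        (hw (ex ε) k ++ List.replicate (r - (hw (ex ε) k).length) 1).prod =
          (hw (ex ε) k).prod := by
      intro ε
      rw [List.prod_append, List.prod_replicate, one_pow, mul_one]
    simp only [hprod]
    have hsub : Subsingleton {ε : Fin k → Bool // (hw (ex ε) k).prod • x = y} := by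
      refine ⟨fun a b => Subtype.ext ?_⟩
      have h1 : (hw (ex a.1) k).prod • x = (hw (ex b.1) k).prod • x := a.2.trans b.2.symm
      have h2 := congrArg Subtype.val h1
      have h3 : ((hw (ex a.1) k).prod : Equiv.Perm (ℕ → Bool)) (x : ℕ → Bool) =
          ((hw (ex b.1) k).prod : Equiv.Perm (ℕ → Bool)) (x : ℕ → Bool) := h2
      have h4 := hw_inj (x : ℕ → Bool) (fun j _ => congrFun h3 j)
      funext i
      have h5 := h4 i i.2
      simpa [hex] using h5
    have h1 : (Nat.card {ε : Fin k → Bool // (hw (ex ε) k).prod • x = y} : ℝ) ≤ 1 := by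
      have := Finite.card_le_one_iff_subsingleton.2 hsub
      exact_mod_cast this
    refine h1.trans ?_
    have hr0 : (0 : ℝ) < r := by exact_mod_cast hr
    have h2 : (r : ℝ) ^ (Real.logb 3 2) ≤ 2 ^ (k + 1) := by
      have h3 : (r : ℝ) ≤ 3 ^ (k + 1) := by exact_mod_cast hk2.le
      have h4 : 0 ≤ Real.logb 3 2 := Real.logb_nonneg (by norm_num) (by norm_num)
      calc (r : ℝ) ^ (Real.logb 3 2) ≤ ((3 : ℝ) ^ (k + 1)) ^ (Real.logb 3 2) :=
            Real.rpow_le_rpow hr0.le h3 h4
        _ = ((3 : ℝ) ^ (Real.logb 3 2)) ^ (k + 1) := by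
            rw [← Real.rpow_natCast, ← Real.rpow_natCast, ← Real.rpow_mul (by norm_num),
              ← Real.rpow_mul (by norm_num), mul_comm]
        _ = 2 ^ (k + 1) := by
            rw [Real.rpow_logb (by norm_num) (by norm_num) (by norm_num)]
    have h3 : Fintype.card (Fin k → Bool) = 2 ^ k := by simp
    rw [h3, Real.rpow_neg hr0.le]
    push_cast
    have h4 : 0 < (r : ℝ) ^ (Real.logb 3 2) := by positivity
    rw [mul_assoc, mul_comm, mul_assoc, inv_mul_eq_div, le_div_iff₀ h4, one_mul]
    calc (r : ℝ) ^ (Real.logb 3 2) ≤ 2 ^ (k + 1) := h2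
      _ = _ := by rw [pow_succ]

theorem logb_gt {n : ℕ} (hn : 2 ≤ n) : 1 < (n : ℝ) * Real.logb 3 2 := by
  have h1 : (1 : ℝ) < 2 * Real.logb 3 2 := by
    have h2 : Real.logb 3 (2 ^ 2) = 2 * Real.logb 3 2 := by
      rw [Real.logb_pow]
      norm_num
    rw [← h2, Real.lt_logb_iff_rpow_lt (by norm_num) (by norm_num)]
    norm_num
  have h2 : (2 : ℝ) ≤ n := by exact_mod_cast hn
  have h3 : 0 ≤ Real.logb 3 2 := Real.logb_nonneg (by norm_num) (by norm_num)
  nlinarith

end Pool.Agent.W_55e385w_h22
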