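import Pool.Agent.W_55e385w_h22.Prod
import Pool.Agent.W_55e385w_h22.Square

set_option autoImplicit false

/-!
# Spreading exponents
-/

namespace Pool.Agent.W_55e385w_h22

open W_55e385_h22 (HasExpandingSubgraph)

/-- For every `r ≥ 1` some random product of at most `r` elements of a fixed finite set and of
their inverses moves any `x` to any `y` with probability at most `C * r ^ (-p)`. -/
def Spreads (H X : Type) [Group H] [MulAction H X] (p : ℝ) : Prop :=
  ∃ (S : Finset H) (C : ℝ), ∀ r : ℕ, 1 ≤ r →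
    ∃ (ι : Type) (_ : Fintype ι) (_ : Nonempty ι) (h : ι → H),
      (∀ i, ∃ l : List H, l.length ≤ r ∧ (∀ s ∈ l, s ∈ S ∨ s⁻¹ ∈ S) ∧ l.prod = h i) ∧
      ∀ x y : X, (Nat.card {i // h i • x = y} : ℝ) ≤ C * (r : ℝ) ^ (-p) * Fintype.card ι

section

variable {H X : Type} [Group H] [MulAction H X]

theorem spreads_of_rw {S : Finset H} {p C : ℝ} (h : RW X S p C) : Spreads H X p := by
  refine ⟨S, C, fun r hr => ?_⟩
  obtain ⟨ι, i1, i2, g, g1, g2, g3⟩ := h r hr
  exact ⟨ι, i1, i2, fun i => (g i).prod, fun i => ⟨g i, (g1 i).le, fun s hs => Or.inl (g2 i s hs),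
    rfl⟩, g3⟩

theorem rw_of_spreads {p : ℝ} (h : Spreads H X p) : ∃ (S : Finset H) (C : ℝ), 1 ∈ S ∧
    (∀ s ∈ S, s⁻¹ ∈ S) ∧ RW X S p C := by
  classical
  obtain ⟨S, C, h⟩ := h
  refine ⟨S ∪ S.image (fun t => t⁻¹) ∪ {1}, C, by simp, ?_, ?_⟩
  · intro s hs
    simp only [Finset.mem_union, Finset.mem_image, Finset.mem_singleton] at hs ⊢
    rcases hs with (hs | ⟨t, ht, rfl⟩) | rfl
    · exact Or.inl (Or.inr ⟨s, hs, rfl⟩)
    · exact Or.inl (Or.inl (by rwa [inv_inv]))
    · exact Or.inr inv_one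
  · intro r hr
    obtain ⟨ι, i1, i2, g, g1, g2⟩ := h r hr
    choose l l1 l2 l3 using g1
    refine ⟨ι, i1, i2, fun i => l i ++ List.replicate (r - (l i).length) 1, ?_, ?_, ?_⟩
    · intro i
      rw [List.length_append, List.length_replicate]
      have := l1 i
      omega
    · intro i s hs
      rw [List.mem_append] at hs
      simp only [Finset.mem_union, Finset.mem_image, Finset.mem_singleton]
      rcases hs with hs | hs
      · rcases l2 i s hs with h1 | h1
        · exact Or.inl (Or.inl h1)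
        · exact Or.inl (Or.inr ⟨s⁻¹, h1, inv_inv s⟩)
      · exact Or.inr (List.eq_of_mem_replicate hs)
    · intro x y
      have h1 : ∀ i, (l i ++ List.replicate (r - (l i).length) 1).prod = g i := by
        intro i
        rw [List.prod_append, List.prod_replicate, one_pow, mul_one, l3]
      simp only [h1]
      exact g2 x y

theorem expand [Nonempty X] {p : ℝ} (hp : 1 < p) (h : Spreads H X p) {A : Type} [AddCommGroup A]
    [Nontrivial A] {G : Type} [Group G] {T : Set G} (hTf : T.Finite)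
    (hT : Subgroup.closure T = ⊤) (K : Subgroup G)
    (π : K →* Multiplicative (X →₀ A) ⋊[lamps A H X] H) (hπ : Function.Surjective π) :
    HasExpandingSubgraph (SimpleGraph.mulCayley T) := by
  obtain ⟨S, C, h1, hS, hRW⟩ := rw_of_spreads h
  exact of_section hTf hT K π hπ ⟨1, h1⟩ hS hp hRW

theorem spreads_half (hFG : Group.FG H) [Infinite X] [MulAction.IsPretransitive H X] :
    Spreads H X (1 / 2) := by
  classical
  obtain ⟨T, hT, hTf⟩ := Group.fg_iff.1 hFG
  obtain ⟨S, h1, hS, hgen⟩ : ∃ S : Finset H, 1 ∈ S ∧ (∀ s ∈ S, s⁻¹ ∈ S) ∧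
      Subgroup.closure (S : Set H) = ⊤ := by
    refine ⟨hTf.toFinset ∪ hTf.toFinset.image (fun t => t⁻¹) ∪ {1}, by simp, ?_, ?_⟩
    · intro s hs
      simp only [Finset.mem_union, Finset.mem_image, Finset.mem_singleton] at hs ⊢
      rcases hs with (hs | ⟨t, ht, rfl⟩) | rfl
      · exact Or.inl (Or.inr ⟨s, hs, rfl⟩)
      · exact Or.inl (Or.inl (by rwa [inv_inv]))
      · exact Or.inr inv_one
    · rw [eq_top_iff, ← hT]
      refine Subgroup.closure_mono (fun t ht => ?_)
      simp only [Finset.coe_union, Set.mem_union, Finset.mem_coe, Set.Finite.mem_toFinset]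
      exact Or.inl (Or.inl ht)
  have o : X := Classical.arbitrary X
  obtain ⟨C, -, hC⟩ := uniform hS hgen h1 o (fun x => MulAction.exists_smul_eq H o x)
  have : Nonempty S := ⟨⟨1, h1⟩⟩
  refine spreads_of_rw (S := S) (C := C) (fun r hr => ?_)
  refine ⟨Fin r → S, inferInstance, inferInstance, fun w => List.ofFn fun i => (w i : H), ?_, ?_,
    ?_⟩
  · intro w
    simp
  · intro w s hs
    rw [List.mem_ofFn] at hs
    obtain ⟨i, rfl⟩ := hs
    exact (w i).2
  · intro x y
    have h2 := hC r hr x y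
    rw [cnt] at h2
    simpa using h2

end

theorem spreads_pi {κ : Type} [Fintype κ] {H X : κ → Type} [∀ i, Group (H i)]
    [∀ i, MulAction (H i) (X i)] (p : κ → ℝ) (h : ∀ i, Spreads (H i) (X i) (p i)) :
    Spreads (∀ i, H i) (∀ i, X i) (∑ i, p i) := by
  classical
  choose S C h1 hS hRW using fun i => rw_of_spreads (h i)
  exact spreads_of_rw (rw_pi S p C hRW)

theorem spreads_grig (o : ℕ → Bool) : Spreads grig (MulAction.orbit grig o) (Real.logb 3 2) :=
  spreads_of_rw (rw_grig o)

end Pool.Agent.W_55e385w_h22
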