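import Pool.Agent.W_55e385w_h22.Conv2
import Pool.Agent.W_55e385w_h22.Final
import Pool.Agent.W_55e385_h22.Coin

set_option autoImplicit false

/-!
# The equivalence
-/

namespace Pool.Agent.W_55e385w_h22

open scoped Pointwise
open W_55e385_h22 (HasExpandingSubgraph)

section

variable {H X : Type} [Group H] [MulAction H X]

theorem vis_iff (o : X) (v : List H) (x : X) :
    x ∈ vis o v ↔ ∃ u, u <+: v ∧ u.prod • o = x := by
  classical
  constructor
  · intro hx
    obtain ⟨i, _, hi⟩ := vis_exists o v x hx
    exact ⟨v.take i, List.take_prefix i v, hi⟩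
  · rintro ⟨u, hu, rfl⟩
    induction v generalizing u with
    | nil =>
      rw [List.prefix_nil] at hu
      subst hu
      simp [vis]
    | cons s v ih =>
      cases u with
      | nil =>
        rw [List.prod_nil, one_smul]
        exact mem_vis_self o _
      | cons t u =>
        rw [List.cons_prefix_cons] at hu
        obtain ⟨rfl, hu⟩ := hu
        rw [vis, Finset.mem_insert, Finset.mem_image]
        right
        exact ⟨u.prod • o, ih u hu, by rw [List.prod_cons, mul_smul]⟩

/-- Words all of whose factors visit linearly many points. -/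
def Good (H X : Type) [Group H] [MulAction H X] : Prop :=
  ∃ (S : Finset H) (o : X) (Q : ℕ), ∀ L : ℕ, ∃ w : List H, L ≤ w.length ∧ (∀ s ∈ w, s ∈ S) ∧
    ∀ v, v <:+: w → v.length ≤ Q * (vis o v).card

theorem drop_flatMap {E : H → List H} {M : ℕ} (hE : ∀ h, (E h).length = M) (i : ℕ) (w : List H) :
    (w.flatMap E).drop (M * i) = (w.drop i).flatMap E := by
  induction i generalizing w with
  | zero => simp
  | succ i ih =>
    cases w with
    | nil => simp
    | cons h w =>
      rw [List.flatMap_cons, List.drop_succ_cons, ← ih w, Nat.mul_succ, Nat.add_comm,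
        ← List.drop_drop, ← hE h, List.drop_left]

theorem take_flatMap {E : H → List H} {M : ℕ} (hE : ∀ h, (E h).length = M) (i : ℕ) (w : List H) :
    (w.flatMap E).take (M * i) = (w.take i).flatMap E := by
  induction i generalizing w with
  | zero => simp
  | succ i ih =>
    cases w with
    | nil => simp
    | cons h w =>
      rw [List.flatMap_cons, List.take_succ_cons, List.flatMap_cons, ← ih w, Nat.mul_succ,
        Nat.add_comm, ← hE h, List.take_length_add_append]

theorem length_flatMap' {E : H → List H} {M : ℕ} (hE : ∀ h, (E h).length = M) (w : List H) :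
    (w.flatMap E).length = M * w.length := by
  induction w with
  | nil => simp
  | cons h w ih =>
    rw [List.flatMap_cons, List.length_append, ih, hE, List.length_cons]
    ring

theorem infix_flatMap {E : H → List H} {M : ℕ} (hM : 1 ≤ M) (hE : ∀ h, (E h).length = M)
    {w w' : List H} (h : w' <:+: w.flatMap E) :
    ∃ v, v <:+: w ∧ v.flatMap E <:+: w' ∧ w'.length ≤ M * (v.length + 2) := by
  obtain ⟨s, t, hst⟩ := h
  have hlen : s.length + w'.length + t.length = M * w.length := by
    rw [← length_flatMap' hE, ← hst]
    simp only [List.length_append]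
  set i := s.length with hi
  set j := w'.length with hj
  set i1 := (i + M - 1) / M with hi1
  set e1 := (i + j) / M with he1
  have a1 : i ≤ M * i1 := by
    have := Nat.div_add_mod (i + M - 1) M
    have := Nat.mod_lt (i + M - 1) (by omega : 0 < M)
    rw [← hi1] at *
    omega
  have a2 : M * i1 < i + M := by
    have := Nat.div_mul_le_self (i + M - 1) M
    rw [← hi1, mul_comm] at this
    omega
  have a3 : M * e1 ≤ i + j := Nat.mul_div_le _ _
  have a4 : i + j < M * e1 + M := by
    have := Nat.lt_mul_div_succ (i + j) (by omega : 0 < M)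
    rw [← he1, Nat.mul_add, mul_one] at this
    exact this
  rcases Nat.lt_or_ge i1 e1 with h1 | h1
  · have a5 : e1 ≤ w.length := by
      by_contra h2
      have : M * (w.length + 1) ≤ M * e1 := Nat.mul_le_mul_left _ (by omega)
      have : M * w.length + M ≤ M * e1 := by rwa [Nat.mul_add, mul_one] at this
      omega
    have hmul : M * (e1 - i1) = M * e1 - M * i1 := Nat.mul_sub M e1 i1
    have a7 : M * i1 ≤ M * e1 := Nat.mul_le_mul_left _ h1.le
    refine ⟨(w.drop i1).take (e1 - i1), ?_, ?_, ?_⟩
    · exact (List.take_prefix _ _).isInfix.trans (List.drop_suffix _ _).isInfix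
    · rw [← take_flatMap hE, ← drop_flatMap hE, ← hst, List.append_assoc, List.drop_append,
        List.drop_of_length_le (by omega : s.length ≤ M * i1), List.nil_append,
        List.drop_append_of_le_length (by omega), List.take_append_of_le_length (by
          rw [List.length_drop, hmul]
          omega)]
      exact (List.take_prefix _ _).isInfix.trans (List.drop_suffix _ _).isInfix
    · have a6 : ((w.drop i1).take (e1 - i1)).length = e1 - i1 := by
        rw [List.length_take, List.length_drop]
        omega
      rw [a6, Nat.mul_add, hmul]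
      have : M * i1 ≤ M * e1 := Nat.mul_le_mul_left _ h1.le
      omega
  · refine ⟨[], List.nil_infix, List.nil_infix, ?_⟩
    have : M * e1 ≤ M * i1 := Nat.mul_le_mul_left _ h1
    simp only [List.length_nil]
    omega

open scoped Classical in
theorem good_of_steps [MulAction.IsPretransitive H X] (o : X) {U : Finset H} {F : Finset X}
    {q a0 : ℕ} (h : ∀ n, ∃ w : List H, w.length = n ∧ (∀ s ∈ w, s ∈ U) ∧
      ∀ v, v <:+: w → a0 ≤ v.length → v.length < q * (Vs F v).card) : Good H X := by
  choose k hk using fun z : X => MulAction.exists_smul_eq H o z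
  set fl : List X → List H := fun l => l.flatMap (fun z => [k z, (k z)⁻¹]) with hfl
  have hflp : ∀ l, (fl l).prod = 1 := by
    intro l
    induction l with
    | nil => rfl
    | cons z l ih =>
      simp only [hfl, List.flatMap_cons, List.prod_append] at ih ⊢
      rw [ih]
      simp
  have hfll : ∀ l, (fl l).length = 2 * l.length := by
    intro l
    induction l with
    | nil => rfl
    | cons z l ih =>
      simp only [hfl, List.flatMap_cons, List.length_append, List.length_cons,
        List.length_nil] at ih ⊢
      omega
  set E : H → List H := fun g => fl F.toList ++ [g] with hEd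
  set M := 2 * F.card + 1 with hM
  have hE : ∀ g, (E g).length = M := by
    intro g
    rw [hEd, List.length_append, hfll, Finset.length_toList, List.length_singleton]
  have hEp : ∀ g, (E g).prod = g := by
    intro g
    rw [hEd, List.prod_append, hflp, one_mul, List.prod_singleton]
  have hvis : ∀ v : List H, Vs F v ⊆ vis o (v.flatMap E) := by
    intro v
    induction v with
    | nil => simp [Vs]
    | cons g v ih =>
      intro x hx
      rw [vis_iff]
      rw [Vs, Finset.mem_union] at hx
      rcases hx with hx | hx
      · obtain ⟨l1, l2, hl⟩ := List.append_of_mem (Finset.mem_toList.2 hx)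
        refine ⟨fl l1 ++ [k x], ?_, ?_⟩
        · refine ⟨[(k x)⁻¹] ++ fl l2 ++ [g] ++ v.flatMap E, ?_⟩
          simp only [List.flatMap_cons, hEd, hl, hfl, List.flatMap_append]
          simp
        · rw [List.prod_append, hflp, one_mul, List.prod_singleton, hk]
      · obtain ⟨y, hy, rfl⟩ := Finset.mem_image.1 hx
        obtain ⟨u, hu, rfl⟩ := (vis_iff o _ y).1 (ih hy)
        refine ⟨E g ++ u, ?_, ?_⟩
        · rw [List.flatMap_cons]
          exact (List.prefix_append_right_inj _).2 hu
        · rw [List.prod_append, hEp, mul_smul]
  refine ⟨U ∪ F.image k ∪ F.image (fun z => (k z)⁻¹), o, M * (q + a0 + 2), fun L => ?_⟩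
  obtain ⟨w, hw1, hw2, hw3⟩ := h L
  refine ⟨w.flatMap E, ?_, ?_, ?_⟩
  · rw [length_flatMap' hE, hw1]
    exact Nat.le_mul_of_pos_left L (by omega)
  · intro s hs
    obtain ⟨g, hg, hs⟩ := List.mem_flatMap.1 hs
    rw [hEd, List.mem_append, List.mem_singleton] at hs
    simp only [Finset.mem_union, Finset.mem_image]
    rcases hs with hs | rfl
    · obtain ⟨z, hz, hs⟩ := List.mem_flatMap.1 hs
      rw [Finset.mem_toList] at hz
      simp only [List.mem_cons, List.not_mem_nil, or_false] at hs
      rcases hs with rfl | rfl
      · exact Or.inl (Or.inr ⟨z, hz, rfl⟩)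
      · exact Or.inr ⟨z, hz, rfl⟩
    · exact Or.inl (Or.inl (hw2 s hg))
  · intro w' hw'
    obtain ⟨v, hv1, hv2, hv3⟩ := infix_flatMap (by omega) hE hw'
    have h1 : (Vs F v).card ≤ (vis o w').card :=
      (Finset.card_le_card (hvis v)).trans (card_vis_infix o hv2)
    have h2 : 1 ≤ (vis o w').card := card_vis_pos o w'
    have h3 : v.length + 2 ≤ (q + a0 + 2) * (vis o w').card := by
      rcases Nat.lt_or_ge v.length a0 with h4 | h4
      · nlinarith
      · have h5 := hw3 v hv1 h4
        have h6 : q * (Vs F v).card ≤ q * (vis o w').card := Nat.mul_le_mul_left _ h1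
        nlinarith
    calc w'.length ≤ M * (v.length + 2) := hv3
      _ ≤ M * ((q + a0 + 2) * (vis o w').card) := Nat.mul_le_mul_left _ h3
      _ = _ := by ring

end

end Pool.Agent.W_55e385w_h22
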