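import Pool.Agent.W_55e385w_h22.Word

set_option autoImplicit false

/-!
# Filling a word with excursions, joining copies of a word
-/

namespace Pool.Agent.W_55e385w_h22

section

variable {H : Type} [Group H]

/-- The word `h` is cut into `k` pieces of length `len`; each piece is treated by `F` and
followed by `E`. -/
def fillN (F : List H → List H) (E : List H) (len : ℕ) : ℕ → List H → List H
  | 0, _ => []
  | k + 1, h => F (h.take len) ++ E ++ fillN F E len k (h.drop len)

/-- The word `h` filled with excursions along `W 0, ..., W (m - 1)`. -/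
def T (B q : ℕ) (W : ℕ → List H) : ℕ → List H → List H
  | 0, h => h
  | m + 1, h => fillN (T B q W m) (W m ++ linv (W m)) (B * q ^ m) q h

/-- Copies of `w` joined by the words of a list. -/
def joinW (w : List H) : List (List H) → List H
  | [] => w
  | c :: cs => w ++ (c ++ joinW w cs)

theorem T_congr (B q : ℕ) {W W' : ℕ → List H} {m : ℕ} (h : ∀ i < m, W i = W' i) :
    T B q W m = T B q W' m := by
  induction m with
  | zero => rfl
  | succ m ih =>
    funext w
    rw [T, T, ih (fun i hi => h i (by omega)), h m (by omega)]

theorem fillN_len {F : List H → List H} {E : List H} {len t : ℕ}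
    (hF : ∀ h, h.length = len → (F h).length = t) (k : ℕ) (h : List H)
    (hk : h.length = k * len) : (fillN F E len k h).length = k * (t + E.length) := by
  induction k generalizing h with
  | zero => simp [fillN]
  | succ k ih =>
    have h1 : (h.take len).length = len := by
      rw [List.length_take, hk]
      exact min_eq_left (by nlinarith)
    have h2 : (h.drop len).length = k * len := by
      rw [List.length_drop, hk]
      rw [Nat.succ_mul]; omega
    rw [fillN, List.length_append, List.length_append, hF _ h1, ih _ h2]
    ring

theorem fillN_prod {F : List H → List H} {E : List H} {len : ℕ}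
    (hF : ∀ h, h.length = len → (F h).prod = h.prod) (hE : E.prod = 1) (k : ℕ) (h : List H)
    (hk : h.length = k * len) : (fillN F E len k h).prod = h.prod := by
  induction k generalizing h with
  | zero =>
    rw [Nat.zero_mul] at hk
    rw [List.length_eq_zero_iff.1 hk]
    rfl
  | succ k ih =>
    have h1 : (h.take len).length = len := by
      rw [List.length_take, hk]
      exact min_eq_left (by nlinarith)
    have h2 : (h.drop len).length = k * len := by
      rw [List.length_drop, hk]
      rw [Nat.succ_mul]; omega
    rw [fillN, List.prod_append, List.prod_append, hF _ h1, ih _ h2, hE, mul_one,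
      ← List.prod_append, List.take_append_drop]

theorem fillN_mem {S : Set H} {F : List H → List H} {E : List H} {len : ℕ}
    (hF : ∀ h : List H, (∀ s ∈ h, s ∈ S) → ∀ s ∈ F h, s ∈ S) (hE : ∀ s ∈ E, s ∈ S) (k : ℕ)
    (h : List H) (hh : ∀ s ∈ h, s ∈ S) : ∀ s ∈ fillN F E len k h, s ∈ S := by
  induction k generalizing h with
  | zero => simp [fillN]
  | succ k ih =>
    intro s hs
    rw [fillN, List.mem_append, List.mem_append] at hs
    rcases hs with (hs | hs) | hs
    · exact hF _ (fun s hs => hh s (List.mem_of_mem_take hs)) s hs
    · exact hE s hs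
    · exact ih _ (fun s hs => hh s (List.mem_of_mem_drop hs)) s hs

variable {B q : ℕ} {W : ℕ → List H} {n t : ℕ → ℕ}

theorem T_len (ht0 : t 0 = B) (ht : ∀ l, t (l + 1) = q * (t l + 2 * n l)) (m : ℕ)
    (hW : ∀ i < m, (W i).length = n i) (h : List H) (hh : h.length = B * q ^ m) :
    (T B q W m h).length = t m := by
  induction m generalizing h with
  | zero => rw [T, hh, ht0]; simp
  | succ m ih =>
    rw [T, fillN_len (t := t m) (fun h' h1 => ih (fun i hi => hW i (by omega)) h' h1) q h
      (by rw [hh]; ring), List.length_append, length_linv, hW m (by omega), ht]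
    ring

theorem T_prod (m : ℕ) (h : List H) (hh : h.length = B * q ^ m) :
    (T B q W m h).prod = h.prod := by
  induction m generalizing h with
  | zero => rfl
  | succ m ih =>
    rw [T]
    exact fillN_prod (fun h' h1 => ih h' h1) (by rw [List.prod_append, prod_linv, mul_inv_cancel])
      q h (by rw [hh]; ring)

theorem T_mem {S : Set H} (hS : ∀ s ∈ S, s⁻¹ ∈ S) (m : ℕ)
    (hW : ∀ i < m, ∀ s ∈ W i, s ∈ S) (h : List H) (hh : ∀ s ∈ h, s ∈ S) :
    ∀ s ∈ T B q W m h, s ∈ S := by
  induction m generalizing h with
  | zero => exact hh
  | succ m ih =>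
    rw [T]
    refine fillN_mem (fun h' h1 => ih (fun i hi => hW i (by omega)) h' h1) ?_ q h hh
    intro s hs
    rw [List.mem_append] at hs
    rcases hs with hs | hs
    · exact hW m (by omega) s hs
    · exact mem_linv hS (hW m (by omega)) s hs

theorem join_len (w : List H) (cs : List (List H)) {c : ℕ} (hc : ∀ u ∈ cs, u.length = c) :
    (joinW w cs).length = (cs.length + 1) * w.length + cs.length * c := by
  induction cs with
  | nil => simp [joinW]
  | cons u cs ih =>
    rw [joinW, List.length_append, List.length_append, hc u (by simp),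
      ih (fun v hv => hc v (by simp [hv])), List.length_cons]
    ring

theorem join_mem {S : Set H} {w : List H} (hw : ∀ s ∈ w, s ∈ S) (cs : List (List H))
    (hc : ∀ u ∈ cs, ∀ s ∈ u, s ∈ S) : ∀ s ∈ joinW w cs, s ∈ S := by
  induction cs with
  | nil => exact hw
  | cons u cs ih =>
    intro s hs
    rw [joinW, List.mem_append, List.mem_append] at hs
    rcases hs with hs | hs | hs
    · exact hw s hs
    · exact hc u (by simp) s hs
    · exact ih (fun v hv => hc v (by simp [hv])) s hs

theorem join_ge (w : List H) (cs : List (List H)) : w.length ≤ (joinW w cs).length := by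
  cases cs with
  | nil => simp [joinW]
  | cons u cs => rw [joinW, List.length_append]; omega

/-- Coverage of a join. -/
theorem join_cv {b w : List H} {n0 t0 : ℕ} (hw : Cv (2 * n0 + t0) n0 n0 b w)
    (hn : n0 ≤ w.length) (cs : List (List H))
    (hc : ∀ c ∈ cs, c.length ≤ t0 ∨ (Cv (2 * n0 + t0) n0 (t0 + n0) b c ∧ t0 + n0 ≤ c.length)) :
    Cv (2 * n0 + t0) n0 n0 b (joinW w cs) := by
  induction cs with
  | nil => exact hw
  | cons c cs ih =>
    have h1 := ih (fun v hv => hc v (by simp [hv]))
    have h2 : n0 ≤ (joinW w cs).length := hn.trans (join_ge w cs)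
    rw [joinW]
    have h3 : Cv (2 * n0 + t0) n0 (t0 + n0) b (c ++ joinW w cs) := by
      rcases hc c (by simp) with h4 | ⟨h4, h5⟩
      · exact h1.gap h4 (by omega) h2
      · exact h4.append h1 (by omega) h5 h2
    exact hw.append h3 (by omega) hn (by rw [List.length_append]; omega)

/-- Coverage of a filled word. -/
theorem fillN_cv {b : List H} {n0 t0 : ℕ} {F : List H → List H} {E : List H} {len : ℕ}
    (hF : ∀ h, h.length = len → Cv (2 * n0 + t0) n0 (t0 + n0) b (F h ++ E) ∧
      t0 + n0 ≤ (F h ++ E).length) (k : ℕ) (hk : 1 ≤ k) (h : List H)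
    (hh : h.length = k * len) :
    Cv (2 * n0 + t0) n0 (t0 + n0) b (fillN F E len k h) ∧
      t0 + n0 ≤ (fillN F E len k h).length := by
  induction k generalizing h with
  | zero => omega
  | succ k ih =>
    have h1 : (h.take len).length = len := by
      rw [List.length_take, hh]
      exact min_eq_left (by nlinarith)
    have h2 : (h.drop len).length = k * len := by
      rw [List.length_drop, hh]
      rw [Nat.succ_mul]; omega
    obtain ⟨h3, h4⟩ := hF _ h1
    rcases Nat.eq_zero_or_pos k with rfl | hk'
    · rw [fillN, fillN, List.append_nil]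
      exact ⟨h3, h4⟩
    · obtain ⟨h5, h6⟩ := ih hk' _ h2
      rw [fillN]
      refine ⟨h3.append h5 (by omega) h4 (by omega), ?_⟩
      rw [List.length_append]
      omega

/-- Coverage of the connectors. -/
theorem T_cv (ht0 : t 0 = B) (ht : ∀ l, t (l + 1) = q * (t l + 2 * n l)) (hq : 1 ≤ q)
    {i : ℕ} (m : ℕ) (him : i < m) (hn : ∀ j, i ≤ j → n i ≤ n j)
    (hlen : ∀ j < m, (W j).length = n j)
    (hcv : ∀ j, i ≤ j → j < m → Cv (2 * n i + t i) (n i) (n i) (W i) (W j))
    (h : List H) (hh : h.length = B * q ^ m) :
    Cv (2 * n i + t i) (n i) (t i + n i) (W i) (T B q W m h) ∧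
      t i + n i ≤ (T B q W m h).length := by
  induction m generalizing h with
  | zero => omega
  | succ m ih =>
    have hE : Cv (2 * n i + t i) (n i) (n i) (W i) (W m ++ linv (W m)) :=
      (hcv m (by omega) (by omega)).append (hcv m (by omega) (by omega)).linv (by omega)
        (by rw [hlen m (by omega)]; exact hn m (by omega))
        (by rw [length_linv, hlen m (by omega)]; exact hn m (by omega))
    have hEl : (W m ++ linv (W m)).length = 2 * n m := by
      rw [List.length_append, length_linv, hlen m (by omega)]; ring
    have hnm := hn m (by omega)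
    rw [T]
    refine fillN_cv (fun h' h1 => ?_) q hq h (by rw [hh]; ring)
    rcases Nat.eq_or_lt_of_le (show i ≤ m by omega) with rfl | h2
    · have h3 : (T B q W i h').length = t i :=
        T_len ht0 ht i (fun j hj => hlen j (by omega)) h' h1
      refine ⟨hE.gap h3.le (by omega) (by rw [hEl]; omega), ?_⟩
      rw [List.length_append, h3, hEl]
      omega
    · obtain ⟨h3, h4⟩ := ih h2 (fun j hj => hlen j (by omega))
        (fun j h5 h6 => hcv j h5 (by omega)) h' h1
      refine ⟨h3.append hE (by omega) h4 (by rw [hEl]; omega), ?_⟩
      rw [List.length_append]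
      omega

end

section

variable {H X : Type} [Group H] [MulAction H X] (o : X)

open scoped Classical in
/-- Joining with small overlap. -/
theorem join_vis (w : List H) (x : ℝ) (cs : List (List H))
    (hc : ∀ c (ds : List (List H)), c :: ds <:+ cs →
      (((vis o w).image (fun y => w.prod⁻¹ • y) ∩
        (vis o (joinW w ds)).image (fun y => c.prod • y)).card : ℝ) ≤ (vis o w).card * x) :
    ((cs.length : ℝ) + 1) * (vis o w).card - cs.length * ((vis o w).card * x) ≤
      ((vis o (joinW w cs)).card : ℝ) := by
  induction cs with
  | nil => simp [joinW]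
  | cons c cs ih =>
    have h1 := ih (fun c' ds h => hc c' ds (h.trans (List.suffix_cons c cs)))
    have h2 := hc c cs List.suffix_rfl
    have h3 : ((vis o w).image (fun y => w.prod⁻¹ • y) ∩
        (vis o (joinW w cs)).image (fun y => c.prod • y)).card =
        (vis o w ∩ (vis o (joinW w cs)).image (fun y => (w.prod * c.prod) • y)).card := by
      rw [← card_smul w.prod⁻¹ (vis o w ∩ _), Finset.image_inter _ _ (MulAction.injective _),
        Finset.image_image]
      congr 3
      funext y
      simp [mul_smul]
    have h4 : vis o w ∪ (vis o (joinW w cs)).image (fun y => (w.prod * c.prod) • y) ⊆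
        vis o (joinW w (c :: cs)) := by
      rw [joinW, vis_append, vis_append, Finset.image_union, Finset.image_image]
      refine Finset.union_subset_union le_rfl ?_
      refine subset_trans ?_ Finset.subset_union_right
      intro y hy
      rw [Finset.mem_image] at hy ⊢
      obtain ⟨z, hz, rfl⟩ := hy
      exact ⟨z, hz, by simp [mul_smul]⟩
    have h5 := Finset.card_le_card h4
    have h6 := Finset.card_union_add_card_inter (vis o w)
      ((vis o (joinW w cs)).image (fun y => (w.prod * c.prod) • y))
    rw [card_smul, ← h3] at h6
    rw [List.length_cons]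
    have h7 : ((vis o w ∪ (vis o (joinW w cs)).image
        (fun y => (w.prod * c.prod) • y)).card : ℝ) +
        (((vis o w).image (fun y => w.prod⁻¹ • y) ∩
          (vis o (joinW w cs)).image (fun y => c.prod • y)).card : ℝ) =
        (vis o w).card + (vis o (joinW w cs)).card := by exact_mod_cast h6
    have h8 : ((vis o w ∪ (vis o (joinW w cs)).image
        (fun y => (w.prod * c.prod) • y)).card : ℝ) ≤
        ((vis o (joinW w (c :: cs))).card : ℝ) := by exact_mod_cast h5
    push_cast
    nlinarith

end

end Pool.Agent.W_55e385w_h22
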