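import Mathlib

set_option autoImplicit false

/-!
# Grigorchuk's group
-/

namespace Pool.Agent.W_55e385w_h22

/-- The states of the automaton. -/
inductive St
  | e | a | b | c | d
  deriving DecidableEq

/-- The transitions. -/
def nxt : St → Bool → St
  | .b, false => .a
  | .b, true => .c
  | .c, false => .a
  | .c, true => .d
  | .d, false => .e
  | .d, true => .b
  | .e, _ => .e
  | .a, _ => .e

/-- The state after reading `n` letters. -/
def st (s : St) (x : ℕ → Bool) : ℕ → St
  | 0 => s
  | n + 1 => nxt (st s x n) (x n)

/-- The transformation of the sequence `x`: the letter read in state `a` is changed. -/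
def act (s : St) (x : ℕ → Bool) (n : ℕ) : Bool := if st s x n = .a then !(x n) else x n

theorem st_act (s : St) (x : ℕ → Bool) (n : ℕ) : st s (act s x) n = st s x n := by
  induction n with
  | zero => rfl
  | succ n ih =>
    rw [st, st, ih, act]
    split_ifs with h
    · rw [h]; rfl
    · rfl

theorem act_act (s : St) (x : ℕ → Bool) : act s (act s x) = x := by
  funext n
  rw [act, st_act, act]
  split_ifs <;> simp

/-- The generators, as permutations. -/
def gen (s : St) : Equiv.Perm (ℕ → Bool) := Function.Involutive.toPerm (act s) (act_act s)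

theorem gen_apply (s : St) (x : ℕ → Bool) : gen s x = act s x := rfl

/-- Put the letter `i` in front. -/
def cons (i : Bool) (x : ℕ → Bool) : ℕ → Bool
  | 0 => i
  | n + 1 => x n

theorem cons_eta (x : ℕ → Bool) : cons (x 0) (fun n => x (n + 1)) = x := by
  funext n
  cases n <;> rfl

theorem st_cons (s : St) (i : Bool) (x : ℕ → Bool) (n : ℕ) :
    st s (cons i x) (n + 1) = st (nxt s i) x n := by
  induction n with
  | zero => rfl
  | succ n ih => rw [st, ih]; rfl

theorem act_cons (s : St) (i : Bool) (x : ℕ → Bool) :
    act s (cons i x) = cons (if s = .a then !i else i) (act (nxt s i) x) := by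
  funext n
  cases n with
  | zero => rfl
  | succ n =>
    rw [act, st_cons]
    rfl

theorem act_e (x : ℕ → Bool) : act .e x = x := by
  have h : ∀ n, st .e x n = .e := by
    intro n
    induction n with
    | zero => rfl
    | succ n ih => rw [st, ih]; rfl
  funext n
  rw [act, h]
  rfl

theorem a_cons (i : Bool) (x : ℕ → Bool) : act .a (cons i x) = cons (!i) x := by
  rw [act_cons]
  simp [nxt, act_e]

theorem b_false (x : ℕ → Bool) : act .b (cons false x) = cons false (act .a x) := by
  rw [act_cons]; simp [nxt]

theorem b_true (x : ℕ → Bool) : act .b (cons true x) = cons true (act .c x) := by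
  rw [act_cons]; simp [nxt]

theorem c_false (x : ℕ → Bool) : act .c (cons false x) = cons false (act .a x) := by
  rw [act_cons]; simp [nxt]

theorem c_true (x : ℕ → Bool) : act .c (cons true x) = cons true (act .d x) := by
  rw [act_cons]; simp [nxt]

theorem d_false (x : ℕ → Bool) : act .d (cons false x) = cons false x := by
  rw [act_cons]; simp [nxt, act_e]

theorem d_true (x : ℕ → Bool) : act .d (cons true x) = cons true (act .b x) := by
  rw [act_cons]; simp [nxt]

theorem klein (n : ℕ) : ∀ x : ℕ → Bool, act .c (act .d x) n = act .b x n ∧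
    act .d (act .b x) n = act .c x n ∧ act .b (act .c x) n = act .d x n := by
  induction n with
  | zero =>
    intro x
    rw [← cons_eta x]
    cases x 0
    · simp [b_false, c_false, d_false, act_act]
    · simp only [b_true, c_true, d_true]
      exact ⟨rfl, rfl, rfl⟩
  | succ n ih =>
    intro x
    rw [← cons_eta x]
    cases x 0
    · simp [b_false, c_false, d_false, act_act]
    · simp only [b_true, c_true, d_true]
      obtain ⟨h1, h2, h3⟩ := ih (fun n => x (n + 1))
      exact ⟨h2, h3, h1⟩

theorem cd (x : ℕ → Bool) : act .c (act .d x) = act .b x := by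
  funext n
  exact (klein n x).1

/-- The letter of a syllable: `0, 1, 2` stand for `ab`, `ac`, `ad`. -/
def sec : Fin 3 → St
  | 0 => .b
  | 1 => .c
  | 2 => .d

/-- The value of a word in the syllables. -/
def ev : List (Fin 3) → (ℕ → Bool) → (ℕ → Bool)
  | [], x => x
  | s :: w, x => act .a (act (sec s) (ev w x))

/-- The substitution `ab ↦ abadac`, `ac ↦ abab`, `ad ↦ acac`. -/
def sub : List (Fin 3) → List (Fin 3)
  | [] => []
  | 0 :: w => 0 :: 2 :: 1 :: sub w
  | 1 :: w => 0 :: 0 :: sub w
  | 2 :: w => 1 :: 1 :: sub w

/-- The parity of the number of syllables `ab`. -/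
def par : List (Fin 3) → Bool
  | [] => false
  | 0 :: w => !(par w)
  | 1 :: w => par w
  | 2 :: w => par w

theorem par_sub (w : List (Fin 3)) : par (sub w) = par w := by
  induction w with
  | nil => rfl
  | cons s w ih =>
    fin_cases s
    · change (!(par (sub w))) = !(par w)
      rw [ih]
    · change (!(!(par (sub w)))) = par w
      rw [ih, Bool.not_not]
    · exact ih

theorem length_sub (w : List (Fin 3)) : (sub w).length ≤ 3 * w.length := by
  induction w with
  | nil => simp [sub]
  | cons s w ih =>
    fin_cases s
    · change (sub w).length + 1 + 1 + 1 ≤ 3 * (w.length + 1)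
      omega
    · change (sub w).length + 1 + 1 ≤ 3 * (w.length + 1)
      omega
    · change (sub w).length + 1 + 1 ≤ 3 * (w.length + 1)
      omega

theorem ev_sub (w : List (Fin 3)) :
    (par w = false → ∀ x, ev (sub w) (cons false x) = cons false (act .a (ev w (act .a x))) ∧
      ev (sub w) (cons true x) = cons true (ev w x)) ∧
    (par w = true → ∀ x, ev (sub w) (cons false x) = cons true (ev w (act .a x)) ∧
      ev (sub w) (cons true x) = cons false (act .a (ev w x))) := by
  induction w with
  | nil =>
    refine ⟨fun _ x => ⟨?_, rfl⟩, fun h => by simp [par] at h⟩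
    change cons false x = cons false (act .a (act .a x))
    rw [act_act]
  | cons s w ih =>
    obtain ⟨ih0, ih1⟩ := ih
    fin_cases s
    · have hev : ∀ y, ev (sub (0 :: w)) y = act .a (act .b (act .a (act .d (act .a
          (act .c (ev (sub w) y)))))) := fun y => rfl
      have hev' : ∀ y, ev (0 :: w) y = act .a (act .b (ev w y)) := fun y => rfl
      refine ⟨fun h x => ?_, fun h x => ?_⟩
      · have hp : par w = true := by
          change (!(par w)) = false at h
          simpa using h
        obtain ⟨h1, h2⟩ := ih1 hp x
        change ev (sub (0 :: w)) _ = cons false (act .a (ev (0 :: w) _)) ∧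
          ev (sub (0 :: w)) _ = cons true (ev (0 :: w) _)
        rw [hev, hev, hev', hev', h1, h2]
        constructor
        · simp only [a_cons, c_true, d_false, b_true, Bool.not_true, Bool.not_false, cd, act_act]
        · simp only [a_cons, c_false, d_true, b_false, Bool.not_true, Bool.not_false, act_act]
      · have hp : par w = false := by
          change (!(par w)) = true at h
          simpa using h
        obtain ⟨h1, h2⟩ := ih0 hp x
        change ev (sub (0 :: w)) _ = cons true (ev (0 :: w) _) ∧
          ev (sub (0 :: w)) _ = cons false (act .a (ev (0 :: w) _))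
        rw [hev, hev, hev', hev', h1, h2]
        constructor
        · simp only [a_cons, c_false, d_true, b_false, Bool.not_true, Bool.not_false, act_act]
        · simp only [a_cons, c_true, d_false, b_true, Bool.not_true, Bool.not_false, cd, act_act]
    · have hev : ∀ y, ev (sub (1 :: w)) y = act .a (act .b (act .a (act .b
          (ev (sub w) y)))) := fun y => rfl
      have hev' : ∀ y, ev (1 :: w) y = act .a (act .c (ev w y)) := fun y => rfl
      refine ⟨fun h x => ?_, fun h x => ?_⟩
      · obtain ⟨h1, h2⟩ := ih0 h x
        change ev (sub (1 :: w)) _ = cons false (act .a (ev (1 :: w) _)) ∧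
          ev (sub (1 :: w)) _ = cons true (ev (1 :: w) _)
        rw [hev, hev, hev', hev', h1, h2]
        constructor
        · simp only [a_cons, b_false, b_true, Bool.not_true, Bool.not_false, act_act]
        · simp only [a_cons, b_false, b_true, Bool.not_true, Bool.not_false]
      · obtain ⟨h1, h2⟩ := ih1 h x
        change ev (sub (1 :: w)) _ = cons true (ev (1 :: w) _) ∧
          ev (sub (1 :: w)) _ = cons false (act .a (ev (1 :: w) _))
        rw [hev, hev, hev', hev', h1, h2]
        constructor
        · simp only [a_cons, b_false, b_true, Bool.not_true, Bool.not_false]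
        · simp only [a_cons, b_false, b_true, Bool.not_true, Bool.not_false, act_act]
    · have hev : ∀ y, ev (sub (2 :: w)) y = act .a (act .c (act .a (act .c
          (ev (sub w) y)))) := fun y => rfl
      have hev' : ∀ y, ev (2 :: w) y = act .a (act .d (ev w y)) := fun y => rfl
      refine ⟨fun h x => ?_, fun h x => ?_⟩
      · obtain ⟨h1, h2⟩ := ih0 h x
        change ev (sub (2 :: w)) _ = cons false (act .a (ev (2 :: w) _)) ∧
          ev (sub (2 :: w)) _ = cons true (ev (2 :: w) _)
        rw [hev, hev, hev', hev', h1, h2]
        constructor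
        · simp only [a_cons, c_false, c_true, Bool.not_true, Bool.not_false, act_act]
        · simp only [a_cons, c_false, c_true, Bool.not_true, Bool.not_false]
      · obtain ⟨h1, h2⟩ := ih1 h x
        change ev (sub (2 :: w)) _ = cons true (ev (2 :: w) _) ∧
          ev (sub (2 :: w)) _ = cons false (act .a (ev (2 :: w) _))
        rw [hev, hev, hev', hev', h1, h2]
        constructor
        · simp only [a_cons, c_false, c_true, Bool.not_true, Bool.not_false]
        · simp only [a_cons, c_false, c_true, Bool.not_true, Bool.not_false, act_act]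

/-- `f` keeps the first `k` letters and changes the next one. -/
def Flip (k : ℕ) (f : (ℕ → Bool) → (ℕ → Bool)) : Prop :=
  ∀ x, (∀ j < k, f x j = x j) ∧ f x k = !(x k)

theorem act_a_zero (x : ℕ → Bool) : act .a x 0 = !(x 0) := rfl

theorem act_a_succ (x : ℕ → Bool) (n : ℕ) : act .a x (n + 1) = x (n + 1) := by
  rw [← cons_eta x, a_cons]
  rfl

theorem flip_conj {k : ℕ} {f : (ℕ → Bool) → (ℕ → Bool)} (h : Flip k f) :
    Flip k (fun x => act .a (f (act .a x))) := by
  intro x
  obtain ⟨h1, h2⟩ := h (act .a x)
  change (∀ j < k, act .a (f (act .a x)) j = x j) ∧ act .a (f (act .a x)) k = !(x k)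
  constructor
  · intro j hj
    cases j with
    | zero => rw [act_a_zero, h1 0 hj, act_a_zero, Bool.not_not]
    | succ j => rw [act_a_succ, h1 _ hj, act_a_succ]
  · cases k with
    | zero => rw [act_a_zero, h2, act_a_zero, Bool.not_not]
    | succ k => rw [act_a_succ, h2, act_a_succ]

theorem flip_sub {k : ℕ} {w : List (Fin 3)} (hw : par w = false) (h : Flip k (ev w)) :
    Flip (k + 1) (ev (sub w)) := by
  intro x
  rw [← cons_eta x]
  set y : ℕ → Bool := fun n => x (n + 1)
  obtain ⟨h1, h2⟩ := (ev_sub w).1 hw y
  cases x 0
  · rw [h1]
    obtain ⟨h3, h4⟩ := flip_conj h y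
    refine ⟨?_, h4⟩
    intro j hj
    cases j with
    | zero => rfl
    | succ j => exact h3 j (by omega)
  · rw [h2]
    obtain ⟨h3, h4⟩ := h y
    refine ⟨?_, h4⟩
    intro j hj
    cases j with
    | zero => rfl
    | succ j => exact h3 j (by omega)

/-- The word `ζ^k (ac)`. -/
def wd : ℕ → List (Fin 3)
  | 0 => [1]
  | k + 1 => sub (wd k)

theorem par_wd (k : ℕ) : par (wd k) = false := by
  induction k with
  | zero => rfl
  | succ k ih => rw [wd, par_sub, ih]

theorem length_wd (k : ℕ) : (wd k).length ≤ 3 ^ k := by
  induction k with
  | zero => simp [wd]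
  | succ k ih =>
    rw [wd, pow_succ]
    have := length_sub (wd k)
    omega

theorem flip_wd (k : ℕ) : Flip k (ev (wd k)) := by
  induction k with
  | zero =>
    intro x
    refine ⟨fun j hj => by omega, ?_⟩
    rw [← cons_eta x]
    change act .a (act .c (cons _ _)) 0 = _
    cases x 0
    · rw [c_false, a_cons]; rfl
    · rw [c_true, a_cons]; rfl
  | succ k ih => exact flip_sub (par_wd k) ih

end Pool.Agent.W_55e385w_h22
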