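import Pool.Agent.W_55e385w_h22.Path

set_option autoImplicit false

/-!
# Growth conditions give spreading exponents
-/

namespace Pool.Agent.W_55e385w_h22

section

variable {H X : Type} [Group H] [MulAction H X] {S : Finset H}

/-- A Nash inequality with the exponent `p`. -/
def Nash (X : Type) [MulAction H X] (S : Finset H) (c p : ℝ) : Prop :=
  ∀ (u : X → ℕ) (Z : Finset X), (∀ z ∉ Z, u z = 0) → ∀ N : ℝ, 0 < N →
    ∑ z ∈ Z, (u z : ℝ) ≤ N →
    c * (∑ z ∈ Z, (u z : ℝ) ^ 2) * ((∑ z ∈ Z, (u z : ℝ) ^ 2) / N ^ 2) ^ (1 / p) ≤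
      ∑ p ∈ Z ×ˢ S, ((u (p.2 • p.1) : ℝ) - u p.1) ^ 2

theorem diag_nash (hS : ∀ s ∈ S, s⁻¹ ∈ S) (h1 : (1 : H) ∈ S) {c p : ℝ} (hc : 0 < c) (hp : 0 < p)
    (hnash : Nash X S c p) :
    ∃ κ : ℝ, 0 < κ ∧ ∀ (x : X) (r : ℕ),
      ((cnt S (2 * r) x x : ℝ) / (S.card : ℝ) ^ (2 * r)) ^ (1 / p) * (1 + κ * r) ≤ 1 := by
  classical
  set d : ℝ := (S.card : ℝ) with hd
  have hd1 : 1 ≤ d := by
    have : 1 ≤ S.card := Finset.card_pos.2 ⟨1, h1⟩
    rw [hd]
    exact_mod_cast this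
  set κ : ℝ := c / d ^ 2 with hκ
  have hκ0 : 0 < κ := by positivity
  refine ⟨κ / p, by positivity, fun x => ?_⟩
  set b : ℕ → ℝ := fun r => (cnt S (2 * r) x x : ℝ) / d ^ (2 * r) with hb
  have hb0 : ∀ r, 0 ≤ b r := fun r => by positivity
  have hstep : ∀ r, b (r + 1) ≤ b r - κ * b r ^ (1 / p) * b r := by
    intro r
    obtain ⟨Z1, hZ1⟩ := cnt_supp hS r x
    obtain ⟨Z2, hZ2⟩ := cnt_supp hS (r + 1) x
    set Z := Z1 ∪ Z2 with hZd
    have hZr : ∀ z ∉ Z, cnt S r x z = 0 := fun z hz => hZ1 z (fun h => hz (by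
      rw [hZd]; exact Finset.mem_union_left _ h))
    have hZr1 : ∀ z ∉ Z, cnt S (r + 1) x z = 0 := fun z hz => hZ2 z (fun h => hz (by
      rw [hZd]; exact Finset.mem_union_right _ h))
    have e1 := energy h1 (fun z => cnt S r x z) Z hZr
    have hdr : (0 : ℝ) < d ^ r := by positivity
    have e2 := hnash (fun z => cnt S r x z) Z hZr (d ^ r) hdr (mass_le hS r x Z)
    have e3 : ∑ z ∈ Z, (cnt S r x z : ℝ) ^ 2 = cnt S (2 * r) x x := by
      rw [← cnt_sq hS r x Z hZr]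
      push_cast
      rfl
    have e4 : ∑ z ∈ Z, (∑ s ∈ S, (cnt S r x (s • z) : ℝ)) ^ 2 = cnt S (2 * (r + 1)) x x := by
      rw [← cnt_sq hS (r + 1) x Z hZr1]
      push_cast
      refine Finset.sum_congr rfl (fun z _ => ?_)
      rw [cnt_succ hS]
      push_cast
      rfl
    rw [e3] at e1 e2
    rw [e4] at e1
    set E : ℝ := ∑ p ∈ Z ×ˢ S, ((cnt S r x (p.2 • p.1) : ℝ) - cnt S r x p.1) ^ 2 with hE
    set n : ℝ := (cnt S (2 * r) x x : ℝ) with hn
    set n' : ℝ := (cnt S (2 * (r + 1)) x x : ℝ) with hn'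
    have hn0 : 0 ≤ n := by positivity
    have hE0 : 0 ≤ E := Finset.sum_nonneg (fun p _ => by positivity)
    have hdp : (0 : ℝ) < d ^ (2 * r) := by positivity
    have e8 : b (r + 1) = n' / (d ^ (2 * r) * d ^ 2) := by
      simp only [hb, hn']
      rw [show 2 * (r + 1) = 2 * r + 2 by ring, pow_add]
    have e9 : b r = n / d ^ (2 * r) := rfl
    have e7 : (n / (d ^ r) ^ 2) ^ (1 / p) = b r ^ (1 / p) := by
      congr 1
      rw [e9, ← pow_mul, mul_comm r 2]
    rw [e7] at e2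
    have e10 : κ * b r ^ (1 / p) * b r ≤ E / (d ^ (2 * r) * d ^ 2) := by
      rw [le_div_iff₀ (by positivity)]
      have e11 : κ * b r ^ (1 / p) * b r * (d ^ (2 * r) * d ^ 2) =
          c * n * b r ^ (1 / p) := by
        rw [hκ]
        have : b r * d ^ (2 * r) = n := by
          rw [e9]
          field_simp
        rw [← this]
        field_simp
      rw [e11]
      exact e2
    have e13 : b (r + 1) ≤ b r - E / (d ^ (2 * r) * d ^ 2) := by
      have : b r = (d ^ 2 * n) / (d ^ (2 * r) * d ^ 2) := by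
        rw [e9]
        field_simp
      rw [e8, this, ← sub_div]
      exact div_le_div_of_nonneg_right e1 (by positivity)
    linarith
  intro r
  change b r ^ (1 / p) * (1 + κ / p * r) ≤ 1
  induction r with
  | zero =>
    have : b 0 = 1 := by
      simp only [hb]
      rw [Nat.mul_zero, cnt_zero]
      simp
    rw [this]
    simp
  | succ r ih =>
    have h2 := hstep r
    have h3 := hb0 r
    have h4 := hb0 (r + 1)
    have hr : (0 : ℝ) ≤ r := Nat.cast_nonneg r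
    set β : ℝ := b r ^ (1 / p) with hβ
    have hβ0 : 0 ≤ β := by positivity
    set y : ℝ := κ * β with hy
    have hy0 : 0 ≤ y := by positivity
    have h5 : b (r + 1) ≤ b r * Real.exp (-y) := by
      have h6 : 1 - y ≤ Real.exp (-y) := by
        have := Real.add_one_le_exp (-y)
        linarith
      calc b (r + 1) ≤ b r * (1 - y) := by
            refine h2.trans (le_of_eq ?_)
            ring
        _ ≤ b r * Real.exp (-y) := mul_le_mul_of_nonneg_left h6 h3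
    have h6 : b (r + 1) ^ (1 / p) ≤ β * Real.exp (-(y / p)) := by
      calc b (r + 1) ^ (1 / p) ≤ (b r * Real.exp (-y)) ^ (1 / p) :=
            Real.rpow_le_rpow h4 h5 (by positivity)
        _ = β * Real.exp (-(y / p)) := by
            rw [Real.mul_rpow h3 (Real.exp_pos _).le, ← Real.exp_mul]
            congr 2
            ring
    have h7 : Real.exp (-(y / p)) * (1 + y / p) ≤ 1 := by
      have h8 := Real.add_one_le_exp (y / p)
      rw [Real.exp_neg, inv_mul_le_iff₀ (Real.exp_pos _)]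
      linarith
    calc b (r + 1) ^ (1 / p) * (1 + κ / p * ((r + 1 : ℕ) : ℝ))
        ≤ (β * Real.exp (-(y / p))) * (1 + κ / p * ((r + 1 : ℕ) : ℝ)) :=
          mul_le_mul_of_nonneg_right h6 (by positivity)
      _ = Real.exp (-(y / p)) * (β * (1 + κ / p * r) + y / p) := by
          push_cast
          rw [hy]
          ring
      _ ≤ Real.exp (-(y / p)) * (1 + y / p) :=
          mul_le_mul_of_nonneg_left (by linarith) (Real.exp_pos _).le
      _ ≤ 1 := h7

theorem uniform_nash (hS : ∀ s ∈ S, s⁻¹ ∈ S) (h1 : (1 : H) ∈ S) {c p : ℝ} (hc : 0 < c)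
    (hp : 0 < p) (hnash : Nash X S c p) :
    ∃ C : ℝ, 0 ≤ C ∧ ∀ n : ℕ, 1 ≤ n → ∀ x y : X,
      (cnt S n x y : ℝ) ≤ C * (n : ℝ) ^ (-p) * (S.card : ℝ) ^ n := by
  classical
  set d : ℝ := (S.card : ℝ) with hd
  have hd1 : 1 ≤ d := by
    have : 1 ≤ S.card := Finset.card_pos.2 ⟨1, h1⟩
    rw [hd]
    exact_mod_cast this
  obtain ⟨κ, hκ0, hκ⟩ := diag_nash hS h1 hc hp hnash
  set κ' : ℝ := min 1 (κ / 2) with hκ'
  have hκ'0 : 0 < κ' := lt_min one_pos (by positivity)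
  have hκ'1 : κ' ≤ 1 := min_le_left _ _
  have hκ'2 : κ' ≤ κ / 2 := min_le_right _ _
  have hdiag : ∀ (r : ℕ) (x : X) (n : ℕ), 1 ≤ n → n ≤ 2 * r + 1 →
      (cnt S (2 * r) x x : ℝ) ≤ κ' ^ (-p) * (n : ℝ) ^ (-p) * d ^ (2 * r) := by
    intro r x n hn hnr
    have h2 := hκ x r
    set b : ℝ := (cnt S (2 * r) x x : ℝ) / (S.card : ℝ) ^ (2 * r) with hb
    have hb0 : 0 ≤ b := by positivity
    have hnr' : (n : ℝ) ≤ 2 * r + 1 := by exact_mod_cast hnr
    have hn' : (1 : ℝ) ≤ n := by exact_mod_cast hn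
    have hr0 : (0 : ℝ) ≤ r := Nat.cast_nonneg r
    have hT : κ' * n ≤ 1 + κ * r := by
      calc κ' * n ≤ κ' * (2 * r + 1) := mul_le_mul_of_nonneg_left hnr' hκ'0.le
        _ = κ' * (2 * r) + κ' := by ring
        _ ≤ κ / 2 * (2 * r) + 1 :=
            add_le_add (mul_le_mul_of_nonneg_right hκ'2 (by positivity)) hκ'1
        _ = _ := by ring
    have hT0 : 0 < κ' * n := by positivity
    have h3 : b ^ (1 / p) ≤ (κ' * n)⁻¹ := by
      rw [← one_div, le_div_iff₀ hT0]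
      exact (mul_le_mul_of_nonneg_left hT (by positivity)).trans h2
    have h4 : b ≤ κ' ^ (-p) * (n : ℝ) ^ (-p) := by
      calc b = (b ^ (1 / p)) ^ p := by
            rw [← Real.rpow_mul hb0, one_div, inv_mul_cancel₀ hp.ne', Real.rpow_one]
        _ ≤ ((κ' * n)⁻¹) ^ p := Real.rpow_le_rpow (by positivity) h3 hp.le
        _ = κ' ^ (-p) * (n : ℝ) ^ (-p) := by
            rw [← Real.mul_rpow hκ'0.le (by positivity), Real.inv_rpow hT0.le, ← Real.rpow_neg hT0.le]
    have hdp : 0 < (S.card : ℝ) ^ (2 * r) := by positivity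
    rw [hb, div_le_iff₀ hdp] at h4
    exact h4
  have heven : ∀ (r : ℕ) (x y : X) (n : ℕ), 1 ≤ n → n ≤ 2 * r + 1 →
      (cnt S (2 * r) x y : ℝ) ≤ κ' ^ (-p) * (n : ℝ) ^ (-p) * d ^ (2 * r) := by
    intro r x y n hn hnr
    obtain ⟨Z1, hZ1⟩ := cnt_supp hS r x
    obtain ⟨Z2, hZ2⟩ := cnt_supp hS r y
    have hZx : ∀ z ∉ Z1 ∪ Z2, cnt S r x z = 0 :=
      fun z hz => hZ1 z (fun h => hz (Finset.mem_union_left _ h))
    have hZy : ∀ z ∉ Z1 ∪ Z2, cnt S r y z = 0 :=
      fun z hz => hZ2 z (fun h => hz (Finset.mem_union_right _ h))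
    have h2 : (cnt S (2 * r) x y : ℝ) = ∑ z ∈ Z1 ∪ Z2, (cnt S r x z : ℝ) * cnt S r y z := by
      rw [two_mul, cnt_conv hS r r x y _ hZx]
      push_cast
      refine Finset.sum_congr rfl (fun z _ => ?_)
      rw [cnt_symm hS r z y]
    have h3 : (cnt S (2 * r) x x : ℝ) = ∑ z ∈ Z1 ∪ Z2, (cnt S r x z : ℝ) ^ 2 := by
      rw [← cnt_sq hS r x _ hZx]
      push_cast
      rfl
    have h4 : (cnt S (2 * r) y y : ℝ) = ∑ z ∈ Z1 ∪ Z2, (cnt S r y z : ℝ) ^ 2 := by
      rw [← cnt_sq hS r y _ hZy]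
      push_cast
      rfl
    have h5 : (cnt S (2 * r) x y : ℝ) ≤
        (1 / 2) * ((cnt S (2 * r) x x : ℝ) + cnt S (2 * r) y y) := by
      rw [h2, h3, h4, ← Finset.sum_add_distrib, Finset.mul_sum]
      refine Finset.sum_le_sum (fun z _ => ?_)
      nlinarith [sq_nonneg ((cnt S r x z : ℝ) - cnt S r y z)]
    have h6 := hdiag r x n hn hnr
    have h7 := hdiag r y n hn hnr
    linarith
  refine ⟨κ' ^ (-p), by positivity, fun n hn x y => ?_⟩
  obtain ⟨r, hr⟩ := Nat.even_or_odd' n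
  rcases hr with hr | hr
  · have h2 := heven r x y n hn (by omega)
    rwa [← hr] at h2
  · have h2 : (cnt S n x y : ℝ) = ∑ s ∈ S, (cnt S (2 * r) x (s • y) : ℝ) := by
      rw [hr, cnt_succ hS]
      push_cast
      rfl
    rw [h2]
    calc ∑ s ∈ S, (cnt S (2 * r) x (s • y) : ℝ)
        ≤ ∑ s ∈ S, κ' ^ (-p) * (n : ℝ) ^ (-p) * d ^ (2 * r) :=
          Finset.sum_le_sum (fun s _ => heven r x (s • y) n hn (by omega))
      _ = κ' ^ (-p) * (n : ℝ) ^ (-p) * d ^ n := by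
          rw [Finset.sum_const, nsmul_eq_mul, ← hd, hr, pow_succ]
          ring

theorem spreads_nash (hS : ∀ s ∈ S, s⁻¹ ∈ S) (h1 : (1 : H) ∈ S) {c p : ℝ} (hc : 0 < c)
    (hp : 0 < p) (hnash : Nash X S c p) : Spreads H X p := by
  obtain ⟨C, -, hC⟩ := uniform_nash hS h1 hc hp hnash
  have : Nonempty S := ⟨⟨1, h1⟩⟩
  refine spreads_of_rw (S := S) (C := C) (fun r hr => ?_)
  refine ⟨Fin r → S, inferInstance, inferInstance, fun w => List.ofFn fun i => (w i : H), ?_, ?_,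
    ?_⟩
  · intro w
    simp
  · intro w s hs
    rw [List.mem_ofFn] at hs
    obtain ⟨i, rfl⟩ := hs
    exact (w i).2
  · intro x y
    have h2 := hC r hr x y
    rw [cnt] at h2
    simpa using h2

theorem nash_growth {c D : ℝ} (hc : 0 < c) (hD : 0 < D)
    (hgr : ∀ (x : X) (r : ℕ), 1 ≤ r → c * (r : ℝ) ^ D ≤ ((reach S x r).ncard : ℝ)) :
    Nash X S (1 / (4 * ((2 / c) ^ (1 / D) + 1))) (D / (D + 1)) := by
  classical
  intro u Z hZ N hN hu
  set n2 : ℝ := ∑ z ∈ Z, (u z : ℝ) ^ 2 with hn2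
  set E : ℝ := ∑ p ∈ Z ×ˢ S, ((u (p.2 • p.1) : ℝ) - u p.1) ^ 2 with hE
  set C : ℝ := (2 / c) ^ (1 / D) + 1 with hC
  have hC0 : 0 < C := by positivity
  have hn2' : 0 ≤ n2 := Finset.sum_nonneg (fun z _ => by positivity)
  have hE' : 0 ≤ E := Finset.sum_nonneg (fun z _ => by positivity)
  rcases hn2'.eq_or_lt with h0 | h0
  · rw [← h0]
    simp only [mul_zero, zero_mul]
    exact hE'
  have hZn : Z.Nonempty := by
    rw [Finset.nonempty_iff_ne_empty]
    rintro rfl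
    rw [hn2, Finset.sum_empty] at h0
    exact lt_irrefl _ h0
  obtain ⟨z0, hz0, hmax⟩ := Z.exists_max_image u hZn
  set M : ℝ := (u z0 : ℝ) with hM
  have hM1 : n2 ≤ M * N := by
    calc n2 ≤ ∑ z ∈ Z, M * (u z : ℝ) := by
          rw [hn2]
          refine Finset.sum_le_sum (fun z hz => ?_)
          have h4 : (u z : ℝ) ≤ u z0 := by exact_mod_cast hmax z hz
          rw [sq]
          exact mul_le_mul_of_nonneg_right h4 (Nat.cast_nonneg _)
      _ = M * ∑ z ∈ Z, (u z : ℝ) := by rw [Finset.mul_sum]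
      _ ≤ M * N := mul_le_mul_of_nonneg_left hu (Nat.cast_nonneg _)
  have hM0 : 0 < M := by
    by_contra h
    have h1 : M = 0 := le_antisymm (not_lt.1 h) (Nat.cast_nonneg _)
    rw [h1, zero_mul] at hM1
    linarith
  have hu0 : 0 < u z0 := by
    rw [hM] at hM0
    exact_mod_cast hM0
  have hMN : M ≤ N :=
    (Finset.single_le_sum (f := fun z => (u z : ℝ)) (fun z _ => Nat.cast_nonneg _) hz0).trans hu
  set w : ℝ := (N / M) ^ (1 / D) with hw
  have hw1 : 1 ≤ w := Real.one_le_rpow ((one_le_div hM0).2 hMN) (by positivity)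
  set t : ℝ := (2 * N / (c * M)) ^ (1 / D) with ht
  have ht0 : 0 ≤ t := by positivity
  have htw : t = (2 / c) ^ (1 / D) * w := by
    rw [ht, hw, ← Real.mul_rpow (by positivity) (by positivity)]
    congr 1
    field_simp
  set ρ : ℕ := ⌊t⌋₊ + 1 with hρ
  have hρ1 : t < ρ := by
    rw [hρ]
    push_cast
    exact Nat.lt_floor_add_one t
  have hρ2 : (ρ : ℝ) ≤ C * w := by
    rw [hρ, hC]
    push_cast
    have h1 : (⌊t⌋₊ : ℝ) ≤ (2 / c) ^ (1 / D) * w := (Nat.floor_le ht0).trans_eq htw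
    linarith
  have hbig : 2 * N / M < ((reach S z0 ρ).ncard : ℝ) := by
    refine lt_of_lt_of_le ?_ (hgr z0 ρ (by omega))
    have h1 : t ^ D < (ρ : ℝ) ^ D := Real.rpow_lt_rpow ht0 hρ1 hD
    have h2 : t ^ D = 2 * N / (c * M) := by
      rw [ht, ← Real.rpow_mul (by positivity), one_div, inv_mul_cancel₀ hD.ne', Real.rpow_one]
    rw [h2] at h1
    calc 2 * N / M = c * (2 * N / (c * M)) := by field_simp
      _ < c * (ρ : ℝ) ^ D := mul_lt_mul_of_pos_left h1 hc
  have hsmall : ((Z.filter (fun z => u z0 ≤ 2 * u z)).card : ℝ) ≤ 2 * N / M := by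
    rw [le_div_iff₀ hM0]
    have h1 : ((Z.filter (fun z => u z0 ≤ 2 * u z)).card : ℝ) * (M / 2) ≤ N := by
      calc ((Z.filter (fun z => u z0 ≤ 2 * u z)).card : ℝ) * (M / 2)
          = ∑ z ∈ Z.filter (fun z => u z0 ≤ 2 * u z), M / 2 := by
            rw [Finset.sum_const, nsmul_eq_mul]
        _ ≤ ∑ z ∈ Z.filter (fun z => u z0 ≤ 2 * u z), (u z : ℝ) := by
            refine Finset.sum_le_sum (fun z hz => ?_)
            have h2 : (u z0 : ℝ) ≤ 2 * u z := by exact_mod_cast (Finset.mem_filter.1 hz).2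
            linarith
        _ ≤ ∑ z ∈ Z, (u z : ℝ) := Finset.sum_le_sum_of_subset_of_nonneg
            (Finset.filter_subset _ _) (fun z _ _ => Nat.cast_nonneg _)
        _ ≤ N := hu
    linarith
  have hy : ∃ y ∈ reach S z0 ρ, 2 * u y < u z0 := by
    by_contra hcon
    push Not at hcon
    have h1 : reach S z0 ρ ⊆ (Z.filter (fun z => u z0 ≤ 2 * u z) : Finset X) := by
      intro y hy
      have h2 := hcon y hy
      rw [Finset.mem_coe, Finset.mem_filter]
      refine ⟨?_, h2⟩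
      by_contra h3
      rw [hZ y h3] at h2
      omega
    have h2 := Set.ncard_le_ncard h1 (Finset.finite_toSet _)
    rw [Set.ncard_coe_finset] at h2
    have h3 : ((reach S z0 ρ).ncard : ℝ) ≤ ((Z.filter (fun z => u z0 ≤ 2 * u z)).card : ℝ) := by
      exact_mod_cast h2
    linarith
  have hen := path_energy (S := S) u Z hZ z0 hu0 ρ hy
  have hfin : M ^ 2 ≤ 4 * C * w * E := by
    calc M ^ 2 ≤ 4 * ρ * E := hen
      _ ≤ 4 * (C * w) * E := by
          refine mul_le_mul_of_nonneg_right ?_ hE'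
          linarith
      _ = _ := by ring
  -- conclusion
  set v : ℝ := n2 / N ^ 2 with hv
  have hv0 : 0 < v := by positivity
  have hvM : v ≤ M / N := by
    rw [hv, div_le_div_iff₀ (by positivity) hN]
    nlinarith
  have h1 : v ^ (1 / (D / (D + 1))) ≤ v * w⁻¹ := by
    have h2 : (1 / (D / (D + 1)) : ℝ) = 1 + 1 / D := by
      field_simp
    rw [h2, Real.rpow_add hv0, Real.rpow_one]
    refine mul_le_mul_of_nonneg_left ?_ hv0.le
    have h3 : w⁻¹ = (M / N) ^ (1 / D) := by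
      rw [hw, ← Real.inv_rpow (by positivity), inv_div]
    rw [h3]
    exact Real.rpow_le_rpow hv0.le hvM (by positivity)
  have h2 : n2 * v ≤ M ^ 2 := by
    have h3 : n2 * v = (n2 / N) ^ 2 := by
      rw [hv]
      field_simp
    rw [h3]
    refine pow_le_pow_left₀ (by positivity) ?_ 2
    rw [div_le_iff₀ hN]
    exact hM1
  have hw0 : 0 < w := by linarith
  calc 1 / (4 * C) * n2 * v ^ (1 / (D / (D + 1)))
      ≤ 1 / (4 * C) * n2 * (v * w⁻¹) := mul_le_mul_of_nonneg_left h1 (by positivity)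
    _ = (n2 * v) / (4 * C * w) := by field_simp
    _ ≤ M ^ 2 / (4 * C * w) := div_le_div_of_nonneg_right h2 (by positivity)
    _ ≤ E := by
        rw [div_le_iff₀ (by positivity)]
        linarith

/-- Growth of degree `D` of the orbits gives the spreading exponent `D / (D + 1)`. -/
theorem spreads_growth {T : Finset H} {c D : ℝ} (hc : 0 < c) (hD : 0 < D)
    (hgr : ∀ (x : X) (r : ℕ), 1 ≤ r → c * (r : ℝ) ^ D ≤
      (({y : X | ∃ l : List H, l.length ≤ r ∧ (∀ s ∈ l, s ∈ T ∨ s⁻¹ ∈ T) ∧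
        l.prod • x = y}.ncard : ℕ) : ℝ)) :
    Spreads H X (D / (D + 1)) := by
  classical
  obtain ⟨S, h1, hS, hTS⟩ : ∃ S : Finset H, 1 ∈ S ∧ (∀ s ∈ S, s⁻¹ ∈ S) ∧
      ∀ s, s ∈ T ∨ s⁻¹ ∈ T → s ∈ S := by
    refine ⟨T ∪ T.image (fun t => t⁻¹) ∪ {1}, by simp, ?_, ?_⟩
    · intro s hs
      simp only [Finset.mem_union, Finset.mem_image, Finset.mem_singleton] at hs ⊢
      rcases hs with (hs | ⟨t, ht, rfl⟩) | rfl
      · exact Or.inl (Or.inr ⟨s, hs, rfl⟩)
      · exact Or.inl (Or.inl (by rwa [inv_inv]))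
      · exact Or.inr inv_one
    · intro s hs
      simp only [Finset.mem_union, Finset.mem_image]
      rcases hs with hs | hs
      · exact Or.inl (Or.inl hs)
      · exact Or.inl (Or.inr ⟨s⁻¹, hs, inv_inv s⟩)
  refine spreads_nash hS h1 (by positivity) (by positivity) (nash_growth hc hD (fun x r hr => ?_))
  refine (hgr x r hr).trans ?_
  have h2 : {y : X | ∃ l : List H, l.length ≤ r ∧ (∀ s ∈ l, s ∈ T ∨ s⁻¹ ∈ T) ∧
      l.prod • x = y} ⊆ reach S x r := by
    rintro y ⟨l, hl, hs, rfl⟩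
    exact ⟨l, hl, fun s h => hTS s (hs s h), rfl⟩
  exact_mod_cast Set.ncard_le_ncard h2 (reach_finite S x r)

end

end Pool.Agent.W_55e385w_h22
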