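import Pool.Agent.W_55e385w_h22.Window

set_option autoImplicit false

/-!
# The number of words that move `x` to `y`
-/

namespace Pool.Agent.W_55e385w_h22

section

variable {H X : Type} [Group H] [MulAction H X] {S : Finset H}

open scoped Classical in
theorem cnt_zero (x y : X) : cnt S 0 x y = if x = y then 1 else 0 := by
  rw [cnt]
  split_ifs with h
  · rw [Nat.card_eq_one_iff_unique]
    refine ⟨⟨fun a b => Subtype.ext (Subsingleton.elim _ _)⟩, ⟨⟨Fin.elim0, ?_⟩⟩⟩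
    simpa using h
  · rw [Nat.card_eq_zero]
    left
    refine ⟨fun a => h ?_⟩
    have := a.2
    simpa using this

theorem cnt_succ_inv (r : ℕ) (x y : X) :
    cnt S (r + 1) x y = ∑ s ∈ S, cnt S r x (s⁻¹ • y) := by
  classical
  have e : {w : Fin (r + 1) → S // (List.ofFn fun i => (w i : H)).prod • x = y} ≃
      Σ s : S, {w : Fin r → S // (List.ofFn fun i => (w i : H)).prod • x = (s : H)⁻¹ • y} :=
    { toFun := fun w => ⟨w.1 0, ⟨fun i => w.1 i.succ, by
        have := w.2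
        rw [List.ofFn_succ, List.prod_cons, mul_smul] at this
        exact eq_inv_smul_iff.2 this⟩⟩
      invFun := fun p => ⟨Fin.cons p.1 p.2.1, by
        have := p.2.2
        rw [List.ofFn_succ, List.prod_cons, mul_smul]
        simp only [Fin.cons_zero, Fin.cons_succ]
        rw [this, smul_inv_smul]⟩
      left_inv := by
        rintro ⟨w, hw⟩
        apply Subtype.ext
        exact Fin.cons_self_tail w
      right_inv := by
        rintro ⟨s, ⟨w, hw⟩⟩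
        rfl }
  rw [cnt, Nat.card_congr e, Nat.card_sigma,
    ← Finset.sum_coe_sort S (fun s => cnt S r x (s⁻¹ • y))]
  rfl

theorem sum_inv (hS : ∀ s ∈ S, s⁻¹ ∈ S) {A : Type} [AddCommMonoid A] (f : H → A) :
    ∑ s ∈ S, f s⁻¹ = ∑ s ∈ S, f s :=
  Finset.sum_bij' (fun s _ => s⁻¹) (fun s _ => s⁻¹) (fun s hs => hS s hs) (fun s hs => hS s hs)
    (by simp) (by simp) (by simp)

variable (hS : ∀ s ∈ S, s⁻¹ ∈ S)

include hS in
theorem cnt_succ (r : ℕ) (x y : X) :
    cnt S (r + 1) x y = ∑ s ∈ S, cnt S r x (s • y) := by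
  rw [cnt_succ_inv, sum_inv hS (fun s => cnt S r x (s • y))]

include hS in
theorem cnt_succ' (r : ℕ) (x y : X) :
    cnt S (r + 1) x y = ∑ s ∈ S, cnt S r (s • x) y := by
  classical
  induction r generalizing x y with
  | zero =>
    rw [cnt_succ_inv]
    refine Finset.sum_congr rfl (fun s _ => ?_)
    rw [cnt_zero, cnt_zero]
    simp only [eq_inv_smul_iff]
  | succ r ih =>
    rw [cnt_succ hS, Finset.sum_congr rfl (fun s _ => ih x (s • y)), Finset.sum_comm]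
    refine Finset.sum_congr rfl (fun s _ => ?_)
    rw [cnt_succ hS]

include hS in
theorem cnt_symm (r : ℕ) (x y : X) : cnt S r x y = cnt S r y x := by
  classical
  induction r generalizing x y with
  | zero => rw [cnt_zero, cnt_zero]; simp only [eq_comm]
  | succ r ih =>
    rw [cnt_succ hS, cnt_succ' hS]
    exact Finset.sum_congr rfl (fun s _ => ih x (s • y))

include hS in
theorem cnt_supp (r : ℕ) (x : X) : ∃ Z : Finset X, ∀ z ∉ Z, cnt S r x z = 0 := by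
  classical
  induction r with
  | zero =>
    refine ⟨{x}, fun z hz => ?_⟩
    rw [cnt_zero, if_neg]
    rintro rfl
    exact hz (Finset.mem_singleton_self _)
  | succ r ih =>
    obtain ⟨Z, hZ⟩ := ih
    refine ⟨(S ×ˢ Z).image (fun p => p.1 • p.2), fun z hz => ?_⟩
    rw [cnt_succ hS]
    refine Finset.sum_eq_zero (fun s hs => hZ _ (fun h => hz ?_))
    exact Finset.mem_image.2 ⟨(s⁻¹, s • z), Finset.mem_product.2 ⟨hS s hs, h⟩, by simp⟩

include hS in
theorem cnt_conv (r k : ℕ) (x y : X) (Z : Finset X) (hZ : ∀ z ∉ Z, cnt S r x z = 0) :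
    cnt S (r + k) x y = ∑ z ∈ Z, cnt S r x z * cnt S k z y := by
  classical
  induction k generalizing y with
  | zero =>
    rw [Finset.sum_congr rfl (fun z _ => by rw [cnt_zero])]
    simp only [mul_ite, mul_one, mul_zero]
    rw [Finset.sum_ite_eq']
    split_ifs with h
    · rfl
    · exact hZ y h
  | succ k ih =>
    rw [← add_assoc, cnt_succ hS, Finset.sum_congr rfl (fun s _ => ih (s • y)), Finset.sum_comm]
    refine Finset.sum_congr rfl (fun z _ => ?_)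
    rw [cnt_succ hS, Finset.mul_sum]

include hS in
theorem cnt_sq (r : ℕ) (x : X) (Z : Finset X) (hZ : ∀ z ∉ Z, cnt S r x z = 0) :
    ∑ z ∈ Z, cnt S r x z ^ 2 = cnt S (2 * r) x x := by
  rw [two_mul, cnt_conv hS r r x x Z hZ]
  refine Finset.sum_congr rfl (fun z _ => ?_)
  rw [cnt_symm hS r z x, sq]

theorem sum_smul_le (g : H) (f : X → ℝ) (hf : ∀ z, 0 ≤ f z) (Z Y : Finset X)
    (hZ : ∀ z ∉ Z, f z = 0) : ∑ y ∈ Y, f (g • y) ≤ ∑ z ∈ Z, f z := by
  classical
  have h1 : ∑ y ∈ Y, f (g • y) = ∑ z ∈ Y.image (fun y => g • y), f z := by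
    rw [Finset.sum_image]
    intro a _ b _ h
    exact MulAction.injective g h
  rw [h1]
  have h2 : ∑ z ∈ Z, f z = ∑ z ∈ Z ∪ Y.image (fun y => g • y), f z :=
    Finset.sum_subset Finset.subset_union_left (fun z _ hz => hZ z hz)
  rw [h2]
  exact Finset.sum_le_sum_of_subset_of_nonneg Finset.subset_union_right (fun z _ _ => hf z)

include hS in
theorem mass_le (r : ℕ) (x : X) (Y : Finset X) :
    ∑ y ∈ Y, (cnt S r x y : ℝ) ≤ (S.card : ℝ) ^ r := by
  classical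
  induction r generalizing Y with
  | zero =>
    rw [pow_zero, Finset.sum_congr rfl (fun z _ => by rw [cnt_zero])]
    push_cast
    rw [Finset.sum_ite_eq]
    split_ifs <;> norm_num
  | succ r ih =>
    have h1 : ∀ y, (cnt S (r + 1) x y : ℝ) = ∑ s ∈ S, (cnt S r x (s • y) : ℝ) := by
      intro y
      rw [cnt_succ hS]
      push_cast
      rfl
    rw [Finset.sum_congr rfl (fun y _ => h1 y), Finset.sum_comm]
    obtain ⟨Z, hZ⟩ := cnt_supp hS r x
    calc ∑ s ∈ S, ∑ y ∈ Y, (cnt S r x (s • y) : ℝ) ≤ ∑ s ∈ S, (S.card : ℝ) ^ r := by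
          refine Finset.sum_le_sum (fun s _ => ?_)
          refine (sum_smul_le s (fun z => (cnt S r x z : ℝ)) (fun z => Nat.cast_nonneg _) Z Y
            (fun z hz => by rw [hZ z hz]; simp)).trans (ih Z)
      _ = (S.card : ℝ) ^ (r + 1) := by rw [Finset.sum_const, nsmul_eq_mul, pow_succ, mul_comm]

variable (hgen : Subgroup.closure (S : Set H) = ⊤)

include hS hgen in
/-- A finite nonempty set has a boundary edge. -/
theorem exists_edge [Infinite X] (o : X) (htr : ∀ x : X, ∃ g : H, g • o = x) (A : Finset X)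
    (hA : A.Nonempty) : ∃ z ∈ A, ∃ s ∈ S, s • z ∉ A := by
  by_contra hcon
  push Not at hcon
  have key : ∀ g : H, ∀ z ∈ A, g • z ∈ A := by
    intro g
    have hg : g ∈ Subgroup.closure (S : Set H) := by rw [hgen]; trivial
    have : (∀ z ∈ A, g • z ∈ A) ∧ (∀ z ∈ A, g⁻¹ • z ∈ A) := by
      induction hg using Subgroup.closure_induction with
      | mem x hx => exact ⟨fun z hz => hcon z hz x hx, fun z hz => hcon z hz _ (hS x hx)⟩
      | one => simp
      | mul x y _ _ hx hy =>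
        refine ⟨fun z hz => ?_, fun z hz => ?_⟩
        · rw [mul_smul]; exact hx.1 _ (hy.1 z hz)
        · rw [mul_inv_rev, mul_smul]; exact hy.2 _ (hx.2 z hz)
      | inv x _ hx => exact ⟨hx.2, by simpa using hx.1⟩
    exact this.1
  obtain ⟨z, hz⟩ := hA
  obtain ⟨g, hg⟩ := htr z
  have huniv : ∀ x, x ∈ A := by
    intro x
    obtain ⟨k, hk⟩ := htr x
    have : (k * g⁻¹) • z = x := by rw [mul_smul, ← hg, inv_smul_smul, hk]
    rw [← this]
    exact key _ z hz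
  exact (Set.infinite_univ (α := X)) (A.finite_toSet.subset (fun x _ => huniv x))

include hS hgen in
theorem coarea [Infinite X] (o : X) (htr : ∀ x : X, ∃ g : H, g • o = x) (F : X → ℕ)
    (Z : Finset X) (hZ : ∀ z ∉ Z, F z = 0) (z0 : X) :
    F z0 ≤ ∑ p ∈ Z ×ˢ S, (F p.1 - F (p.2 • p.1)) := by
  classical
  have h1 : ∀ t ∈ Finset.range (F z0),
      1 ≤ ((Z ×ˢ S).bipartiteBelow (fun p t => F (p.2 • p.1) ≤ t ∧ t < F p.1) t).card := by
    intro t ht
    rw [Finset.mem_range] at ht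
    obtain ⟨z, hz, s, hs, hsz⟩ := exists_edge hS hgen o htr (Z.filter (fun z => t < F z))
      ⟨z0, by
        rw [Finset.mem_filter]
        refine ⟨?_, ht⟩
        by_contra h
        rw [hZ z0 h] at ht
        omega⟩
    rw [Finset.mem_filter] at hz
    rw [Finset.mem_filter, not_and] at hsz
    rw [Nat.one_le_iff_ne_zero, ← Nat.pos_iff_ne_zero, Finset.card_pos]
    refine ⟨(z, s), ?_⟩
    rw [Finset.mem_bipartiteBelow, Finset.mem_product]
    refine ⟨⟨hz.1, hs⟩, ?_, hz.2⟩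
    by_cases h : s • z ∈ Z
    · exact not_lt.1 (hsz h)
    · change F (s • z) ≤ t
      rw [hZ _ h]
      exact Nat.zero_le _
  calc F z0 = ∑ t ∈ Finset.range (F z0), 1 := by simp
    _ ≤ ∑ t ∈ Finset.range (F z0),
        ((Z ×ˢ S).bipartiteBelow (fun p t => F (p.2 • p.1) ≤ t ∧ t < F p.1) t).card :=
        Finset.sum_le_sum h1
    _ = ∑ p ∈ Z ×ˢ S, ((Finset.range (F z0)).bipartiteAbove
        (fun p t => F (p.2 • p.1) ≤ t ∧ t < F p.1) p).card :=
        (Finset.sum_card_bipartiteAbove_eq_sum_card_bipartiteBelow _).symm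
    _ ≤ ∑ p ∈ Z ×ˢ S, (F p.1 - F (p.2 • p.1)) := by
        refine Finset.sum_le_sum (fun p _ => ?_)
        have h2 : (Finset.range (F z0)).bipartiteAbove
            (fun p t => F (p.2 • p.1) ≤ t ∧ t < F p.1) p ⊆
            Finset.Ico (F (p.2 • p.1)) (F p.1) := by
          intro t ht
          rw [Finset.mem_bipartiteAbove] at ht
          exact Finset.mem_Ico.2 ht.2
        have h3 := Finset.card_le_card h2
        rwa [Nat.card_Ico] at h3

include hS hgen in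
theorem nash [Infinite X] (o : X) (htr : ∀ x : X, ∃ g : H, g • o = x) (u : X → ℕ)
    (Z : Finset X) (hZ : ∀ z ∉ Z, u z = 0) :
    (∑ z ∈ Z, (u z : ℝ) ^ 2) ^ 3 ≤
      4 * S.card * (∑ p ∈ Z ×ˢ S, ((u (p.2 • p.1) : ℝ) - u p.1) ^ 2) *
        (∑ z ∈ Z, (u z : ℝ)) ^ 4 := by
  classical
  set n2 : ℝ := ∑ z ∈ Z, (u z : ℝ) ^ 2 with hn2
  set n1 : ℝ := ∑ z ∈ Z, (u z : ℝ) with hn1
  set E : ℝ := ∑ p ∈ Z ×ˢ S, ((u (p.2 • p.1) : ℝ) - u p.1) ^ 2 with hE
  have hn2' : 0 ≤ n2 := Finset.sum_nonneg (fun z _ => by positivity)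
  have hn1' : 0 ≤ n1 := Finset.sum_nonneg (fun z _ => by positivity)
  have hE' : 0 ≤ E := Finset.sum_nonneg (fun z _ => by positivity)
  rcases Z.eq_empty_or_nonempty with hZe | hZn
  · have : n2 = 0 := by rw [hn2, hZe, Finset.sum_empty]
    rw [this, zero_pow (by norm_num)]
    positivity
  obtain ⟨z0, hz0, hmax⟩ := Z.exists_max_image u hZn
  have h1 : ((u z0 : ℝ)) ^ 2 ≤
      ∑ p ∈ Z ×ˢ S, |(u (p.2 • p.1) : ℝ) - u p.1| * ((u (p.2 • p.1) : ℝ) + u p.1) := by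
    have h2 := coarea hS hgen o htr (fun z => u z ^ 2) Z (fun z hz => by simp [hZ z hz]) z0
    have h3 : ((u z0 ^ 2 : ℕ) : ℝ) ≤
        ((∑ p ∈ Z ×ˢ S, (u p.1 ^ 2 - u (p.2 • p.1) ^ 2) : ℕ) : ℝ) := by exact_mod_cast h2
    push_cast at h3
    refine h3.trans (Finset.sum_le_sum (fun p _ => ?_))
    rcases Nat.le_total (u p.1 ^ 2) (u (p.2 • p.1) ^ 2) with h4 | h4
    · rw [Nat.sub_eq_zero_of_le h4, Nat.cast_zero]
      positivity
    · rw [Nat.cast_sub h4]
      push_cast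
      have h5 : (u p.1 : ℝ) - u (p.2 • p.1) ≤ |(u (p.2 • p.1) : ℝ) - u p.1| := by
        rw [abs_sub_comm]; exact le_abs_self _
      have h6 : (0 : ℝ) ≤ (u (p.2 • p.1) : ℝ) + u p.1 := by positivity
      nlinarith [mul_le_mul_of_nonneg_right h5 h6]
  have h2 : ((u z0 : ℝ)) ^ 4 ≤ E * (4 * S.card * n2) := by
    have h3 : (∑ p ∈ Z ×ˢ S, |(u (p.2 • p.1) : ℝ) - u p.1| * ((u (p.2 • p.1) : ℝ) + u p.1)) ^ 2 ≤
        (∑ p ∈ Z ×ˢ S, |(u (p.2 • p.1) : ℝ) - u p.1| ^ 2) *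
          ∑ p ∈ Z ×ˢ S, ((u (p.2 • p.1) : ℝ) + u p.1) ^ 2 :=
      Finset.sum_mul_sq_le_sq_mul_sq _ _ _
    simp only [sq_abs] at h3
    have h4 : ∑ p ∈ Z ×ˢ S, ((u (p.2 • p.1) : ℝ) + u p.1) ^ 2 ≤ 4 * S.card * n2 := by
      rw [Finset.sum_product_right]
      have h5 : ∀ s ∈ S, ∑ z ∈ Z, ((u (s • z) : ℝ) + u z) ^ 2 ≤ 4 * n2 := by
        intro s _
        have h6 : ∑ z ∈ Z, ((u (s • z) : ℝ) ^ 2) ≤ n2 :=
          sum_smul_le s (fun z => (u z : ℝ) ^ 2) (fun z => by positivity) Z Z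
            (fun z hz => by simp [hZ z hz])
        calc ∑ z ∈ Z, ((u (s • z) : ℝ) + u z) ^ 2
            ≤ ∑ z ∈ Z, (2 * (u (s • z) : ℝ) ^ 2 + 2 * (u z : ℝ) ^ 2) :=
              Finset.sum_le_sum (fun z _ => by nlinarith [sq_nonneg ((u (s • z) : ℝ) - u z)])
          _ = 2 * ∑ z ∈ Z, ((u (s • z) : ℝ) ^ 2) + 2 * n2 := by
              rw [Finset.sum_add_distrib, ← Finset.mul_sum, ← Finset.mul_sum]
          _ ≤ 4 * n2 := by linarith
      refine (Finset.sum_le_sum h5).trans ?_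
      rw [Finset.sum_const, nsmul_eq_mul]
      apply le_of_eq
      ring
    calc ((u z0 : ℝ)) ^ 4 = (((u z0 : ℝ)) ^ 2) ^ 2 := by ring
      _ ≤ (∑ p ∈ Z ×ˢ S, |(u (p.2 • p.1) : ℝ) - u p.1| * ((u (p.2 • p.1) : ℝ) + u p.1)) ^ 2 :=
          pow_le_pow_left₀ (by positivity) h1 2
      _ ≤ _ := h3
      _ ≤ E * (4 * S.card * n2) := mul_le_mul_of_nonneg_left h4 hE'
  have h3 : n2 ≤ u z0 * n1 := by
    rw [hn2, hn1, Finset.mul_sum]
    refine Finset.sum_le_sum (fun z hz => ?_)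
    have h4 : (u z : ℝ) ≤ u z0 := by exact_mod_cast hmax z hz
    rw [sq]
    exact mul_le_mul_of_nonneg_right h4 (Nat.cast_nonneg _)
  rcases hn2'.eq_or_lt with h4 | h4
  · rw [← h4, zero_pow (by norm_num)]
    positivity
  · have h5 : n2 ^ 4 ≤ (u z0 * n1) ^ 4 := pow_le_pow_left₀ hn2' h3 4
    have h6 : n2 ^ 4 ≤ (E * (4 * S.card * n2)) * n1 ^ 4 := by
      rw [mul_pow] at h5
      exact h5.trans (mul_le_mul_of_nonneg_right h2 (by positivity))
    have h7 : n2 * n2 ^ 3 ≤ n2 * (4 * S.card * E * n1 ^ 4) := by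
      calc n2 * n2 ^ 3 = n2 ^ 4 := by ring
        _ ≤ _ := h6
        _ = _ := by ring
    exact le_of_mul_le_mul_left h7 h4

theorem energy (h1 : (1 : H) ∈ S) (u : X → ℕ) (Z : Finset X) (hZ : ∀ z ∉ Z, u z = 0) :
    ∑ z ∈ Z, (∑ s ∈ S, (u (s • z) : ℝ)) ^ 2 ≤ (S.card : ℝ) ^ 2 * ∑ z ∈ Z, (u z : ℝ) ^ 2 -
      ∑ p ∈ Z ×ˢ S, ((u (p.2 • p.1) : ℝ) - u p.1) ^ 2 := by
  classical
  have hd : (1 : ℝ) ≤ S.card := by
    have : 1 ≤ S.card := Finset.card_pos.2 ⟨1, h1⟩
    exact_mod_cast this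
  have key : ∀ z, (∑ s ∈ S, (u (s • z) : ℝ)) ^ 2 ≤ S.card * ∑ s ∈ S, (u (s • z) : ℝ) ^ 2 -
      ∑ s ∈ S, ((u (s • z) : ℝ) - u z) ^ 2 := by
    intro z
    set v : H → ℝ := fun s => (u (s • z) : ℝ) - u z with hv
    have hv1 : v 1 = 0 := by simp [hv]
    have h2 : (∑ s ∈ S, v s) ^ 2 ≤ (S.card - 1) * ∑ s ∈ S, v s ^ 2 := by
      rw [← Finset.add_sum_erase S v h1, ← Finset.add_sum_erase S (fun s => v s ^ 2) h1, hv1,
        zero_add]
      have h3 := sq_sum_le_card_mul_sum_sq (s := S.erase 1) (f := v)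
      rw [Finset.card_erase_of_mem h1, Nat.cast_sub (Finset.card_pos.2 ⟨1, h1⟩)] at h3
      simpa using h3
    have h3 : ∑ s ∈ S, (u (s • z) : ℝ) = ∑ s ∈ S, v s + S.card * u z := by
      rw [hv, Finset.sum_sub_distrib, Finset.sum_const, nsmul_eq_mul]
      ring
    have h4 : ∑ s ∈ S, (u (s • z) : ℝ) ^ 2 =
        ∑ s ∈ S, v s ^ 2 + 2 * u z * ∑ s ∈ S, v s + S.card * (u z : ℝ) ^ 2 := by
      have h5 : ∀ s ∈ S, (u (s • z) : ℝ) ^ 2 = v s ^ 2 + 2 * u z * v s + (u z : ℝ) ^ 2 := by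
        intro s _
        simp only [hv]
        ring
      rw [Finset.sum_congr rfl h5, Finset.sum_add_distrib, Finset.sum_add_distrib,
        ← Finset.mul_sum, Finset.sum_const, nsmul_eq_mul]
    rw [h3, h4]
    have h6 : ∑ s ∈ S, ((u (s • z) : ℝ) - u z) ^ 2 = ∑ s ∈ S, v s ^ 2 := rfl
    rw [h6]
    nlinarith
  calc ∑ z ∈ Z, (∑ s ∈ S, (u (s • z) : ℝ)) ^ 2
      ≤ ∑ z ∈ Z, (S.card * ∑ s ∈ S, (u (s • z) : ℝ) ^ 2 -
          ∑ s ∈ S, ((u (s • z) : ℝ) - u z) ^ 2) := Finset.sum_le_sum (fun z _ => key z)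
    _ = S.card * ∑ s ∈ S, ∑ z ∈ Z, (u (s • z) : ℝ) ^ 2 -
          ∑ p ∈ Z ×ˢ S, ((u (p.2 • p.1) : ℝ) - u p.1) ^ 2 := by
        rw [Finset.sum_sub_distrib, ← Finset.mul_sum, Finset.sum_comm, Finset.sum_product]
    _ ≤ _ := by
        refine sub_le_sub_right ?_ _
        rw [sq, mul_assoc]
        refine mul_le_mul_of_nonneg_left ?_ (by positivity)
        calc ∑ s ∈ S, ∑ z ∈ Z, (u (s • z) : ℝ) ^ 2
            ≤ ∑ s ∈ S, ∑ z ∈ Z, (u z : ℝ) ^ 2 := by
              refine Finset.sum_le_sum (fun s _ => ?_)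
              exact sum_smul_le s (fun z => (u z : ℝ) ^ 2) (fun z => by positivity) Z Z
                (fun z hz => by simp [hZ z hz])
          _ = _ := by rw [Finset.sum_const, nsmul_eq_mul]

include hS hgen in
/-- The diagonal bound. -/
theorem diag [Infinite X] (h1 : (1 : H) ∈ S) (o : X) (htr : ∀ x : X, ∃ g : H, g • o = x)
    (x : X) (r : ℕ) :
    ((cnt S (2 * r) x x : ℝ) / (S.card : ℝ) ^ (2 * r)) ^ 2 *
      (1 + 2 * (1 / (4 * (S.card : ℝ) ^ 3)) * r) ≤ 1 ∧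
    (cnt S (2 * r) x x : ℝ) / (S.card : ℝ) ^ (2 * r) ≤ 1 := by
  classical
  set d : ℝ := (S.card : ℝ) with hd
  have hd1 : 1 ≤ d := by
    have : 1 ≤ S.card := Finset.card_pos.2 ⟨1, h1⟩
    rw [hd]
    exact_mod_cast this
  set κ : ℝ := 1 / (4 * d ^ 3) with hκ
  have hκ0 : 0 < κ := by positivity
  have hκ1 : κ ≤ 1 := by
    rw [hκ, div_le_one (by positivity)]
    have : 1 ≤ d ^ 3 := one_le_pow₀ hd1
    linarith
  set b : ℕ → ℝ := fun r => (cnt S (2 * r) x x : ℝ) / d ^ (2 * r) with hb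
  have hb0 : ∀ r, 0 ≤ b r := fun r => by positivity
  have hstep : ∀ r, b (r + 1) ≤ b r - κ * b r ^ 3 := by
    intro r
    obtain ⟨Z1, hZ1⟩ := cnt_supp hS r x
    obtain ⟨Z2, hZ2⟩ := cnt_supp hS (r + 1) x
    set Z := Z1 ∪ Z2 with hZd
    have hZr : ∀ z ∉ Z, cnt S r x z = 0 := fun z hz => hZ1 z (fun h => hz (by
      rw [hZd]; exact Finset.mem_union_left _ h))
    have hZr1 : ∀ z ∉ Z, cnt S (r + 1) x z = 0 := fun z hz => hZ2 z (fun h => hz (by
      rw [hZd]; exact Finset.mem_union_right _ h))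
    have e1 := energy h1 (fun z => cnt S r x z) Z hZr
    have e2 := nash hS hgen o htr (fun z => cnt S r x z) Z hZr
    have e3 : ∑ z ∈ Z, (cnt S r x z : ℝ) ^ 2 = cnt S (2 * r) x x := by
      rw [← cnt_sq hS r x Z hZr]
      push_cast
      rfl
    have e4 : ∑ z ∈ Z, (∑ s ∈ S, (cnt S r x (s • z) : ℝ)) ^ 2 = cnt S (2 * (r + 1)) x x := by
      rw [← cnt_sq hS (r + 1) x Z hZr1]
      push_cast
      refine Finset.sum_congr rfl (fun z _ => ?_)
      rw [cnt_succ hS]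
      push_cast
      rfl
    have e5 := mass_le hS r x Z
    rw [e3] at e1 e2
    rw [e4] at e1
    set E : ℝ := ∑ p ∈ Z ×ˢ S, ((cnt S r x (p.2 • p.1) : ℝ) - cnt S r x p.1) ^ 2 with hE
    set n : ℝ := (cnt S (2 * r) x x : ℝ) with hn
    set n' : ℝ := (cnt S (2 * (r + 1)) x x : ℝ) with hn'
    have hn0 : 0 ≤ n := by positivity
    have hE0 : 0 ≤ E := Finset.sum_nonneg (fun p _ => by positivity)
    have e6 : n ^ 3 ≤ 4 * d * E * d ^ (4 * r) := by
      refine e2.trans ?_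
      have e7 : (∑ z ∈ Z, (cnt S r x z : ℝ)) ^ 4 ≤ (d ^ r) ^ 4 :=
        pow_le_pow_left₀ (Finset.sum_nonneg (fun z _ => by positivity)) e5 4
      rw [← pow_mul, mul_comm r 4] at e7
      exact mul_le_mul_of_nonneg_left e7 (by positivity)
    have hdp : (0 : ℝ) < d ^ (2 * r) := by positivity
    have e8 : b (r + 1) = n' / (d ^ (2 * r) * d ^ 2) := by
      simp only [hb, hn']
      rw [show 2 * (r + 1) = 2 * r + 2 by ring, pow_add]
    have e9 : b r = n / d ^ (2 * r) := rfl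
    have e10 : κ * b r ^ 3 ≤ E / (d ^ (2 * r) * d ^ 2) := by
      rw [e9, hκ, div_pow, div_mul_div_comm, one_mul,
        div_le_div_iff₀ (by positivity) (by positivity)]
      have e11 : 4 * d ^ 3 * (d ^ (2 * r)) ^ 3 =
          (4 * d * d ^ (4 * r)) * (d ^ (2 * r) * d ^ 2) := by
        rw [show 4 * r = 2 * r + 2 * r by ring, pow_add]
        ring
      rw [e11]
      have e12 : n ^ 3 * (d ^ (2 * r) * d ^ 2) ≤
          (4 * d * E * d ^ (4 * r)) * (d ^ (2 * r) * d ^ 2) :=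
        mul_le_mul_of_nonneg_right e6 (by positivity)
      refine e12.trans (le_of_eq ?_)
      ring
    have e13 : b (r + 1) ≤ b r - E / (d ^ (2 * r) * d ^ 2) := by
      have : b r = (d ^ 2 * n) / (d ^ (2 * r) * d ^ 2) := by
        rw [e9]
        field_simp
      rw [e8, this, ← sub_div]
      exact div_le_div_of_nonneg_right e1 (by positivity)
    linarith
  have hind : ∀ r : ℕ, b r ^ 2 * (1 + 2 * κ * r) ≤ 1 ∧ b r ≤ 1 := by
    intro r
    induction r with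
    | zero =>
      have : b 0 = 1 := by
        simp only [hb]
        rw [Nat.mul_zero, cnt_zero]
        simp
      rw [this]
      simp
    | succ r ih =>
      obtain ⟨ih1, ih2⟩ := ih
      have h2 := hstep r
      have h3 := hb0 r
      have h4 := hb0 (r + 1)
      have hr : (0 : ℝ) ≤ r := Nat.cast_nonneg r
      set β : ℝ := b r ^ 2 with hβ
      have hβ0 : 0 ≤ β := by positivity
      have hβ1 : β ≤ 1 := by
        rw [hβ]; exact pow_le_one₀ h3 ih2
      set y : ℝ := κ * β with hy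
      have hy0 : 0 ≤ y := by positivity
      have hy1 : y ≤ 1 := by
        rw [hy]; nlinarith
      have h5 : b (r + 1) ≤ b r * (1 - y) := by
        refine h2.trans (le_of_eq ?_)
        rw [hy, hβ]; ring
      have h6 : b (r + 1) ^ 2 ≤ β * (1 - y) ^ 2 := by
        calc b (r + 1) ^ 2 ≤ (b r * (1 - y)) ^ 2 := pow_le_pow_left₀ h4 h5 2
          _ = _ := by rw [hβ]; ring
      refine ⟨?_, h5.trans (by nlinarith)⟩
      have hT : (0 : ℝ) ≤ 1 + 2 * κ * ((r + 1 : ℕ) : ℝ) := by positivity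
      calc b (r + 1) ^ 2 * (1 + 2 * κ * ((r + 1 : ℕ) : ℝ))
          ≤ β * (1 - y) ^ 2 * (1 + 2 * κ * ((r + 1 : ℕ) : ℝ)) :=
            mul_le_mul_of_nonneg_right h6 hT
        _ = (1 - y) ^ 2 * (β * (1 + 2 * κ * r) + 2 * y) := by
            push_cast
            rw [hy]
            ring
        _ ≤ (1 - y) ^ 2 * (1 + 2 * y) :=
            mul_le_mul_of_nonneg_left (by linarith) (sq_nonneg _)
        _ ≤ 1 := by nlinarith [sq_nonneg y, mul_nonneg (sq_nonneg y) (sub_nonneg.2 hy1)]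
  exact hind r

end

end Pool.Agent.W_55e385w_h22
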