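import Pool.Agent.W_55e385w_h22.Equiv
import Pool.Agent.W_55e385w_h22.Growth
import Pool.Agent.W_55e385_h22.Hall

set_option autoImplicit false

/-!
# The criterion and its converse
-/

namespace Pool.Agent.W_55e385w_h22

open scoped Pointwise ENNReal NNReal
open W_55e385_h22 (HasExpandingSubgraph)

section

variable {H X : Type} [Group H] [MulAction H X]

/-- A spreading action is good. -/
theorem good_of_spreads [Nonempty X] {p : ℝ} (hp : 1 < p) (h : Spreads H X p) : Good H X := by
  obtain ⟨S, C, h1, hS, hRW⟩ := rw_of_spreads h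
  obtain ⟨o⟩ := ‹Nonempty X›
  obtain ⟨Q, -, hw⟩ := windows (S := (S : Set H)) (fun s hs => hS s hs) ⟨1, h1⟩ o hp hRW
  exact ⟨S, o, Q, hw⟩

/-- A good action gives expanding subgraphs. -/
theorem expand_of_good {A : Type} [AddCommGroup A] [Nontrivial A] (hG : Good H X)
    {G : Type} [Group G] {T : Set G} (hTf : T.Finite)
    (hT : Subgroup.closure T = ⊤) (K : Subgroup G)
    (π : K →* Multiplicative (X →₀ A) ⋊[lamps A H X] H) (hπ : Function.Surjective π) :
    HasExpandingSubgraph (SimpleGraph.mulCayley T) := by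
  classical
  obtain ⟨S, o, Q, hw⟩ := hG
  obtain ⟨c, hc⟩ := exists_ne (0 : A)
  rw [W_55e385_h22.iff_finite (cay_connected hT) (cay_finite hTf) cay_transitive]
  obtain ⟨ρ, h0, h1, h2⟩ := exists_rho (Nat.succ_le_succ (Nat.zero_le Q))
  choose k hk using hπ
  set k0 : Bool → K := fun b => k (SemidirectProduct.inl
    (Multiplicative.ofAdd (Finsupp.single o (if b then c else 0)))) with hk0
  set k1 : H → K := fun s => k (SemidirectProduct.inr s) with hk1
  obtain ⟨R, hR⟩ : ∃ R : ℕ, ∀ b, ∀ s ∈ S,
      (SimpleGraph.mulCayley T).dist 1 ((k0 b * k1 s : K) : G) ≤ R := by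
    refine ⟨∑ b : Bool, ∑ s ∈ S, (SimpleGraph.mulCayley T).dist 1 ((k0 b * k1 s : K) : G), ?_⟩
    intro b s hs
    calc (SimpleGraph.mulCayley T).dist 1 ((k0 b * k1 s : K) : G)
        ≤ ∑ s ∈ S, (SimpleGraph.mulCayley T).dist 1 ((k0 b * k1 s : K) : G) :=
          Finset.single_le_sum (f := fun s => (SimpleGraph.mulCayley T).dist 1
            ((k0 b * k1 s : K) : G)) (fun _ _ => Nat.zero_le _) hs
      _ ≤ _ := Finset.single_le_sum (f := fun b => ∑ s ∈ S, (SimpleGraph.mulCayley T).dist 1
            ((k0 b * k1 s : K) : G)) (fun _ _ => Nat.zero_le _) (Finset.mem_univ b)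
  refine ⟨R, ρ⁻¹, ρ, h1, fun N => ?_⟩
  obtain ⟨w, hw1, hw2, hw3⟩ := hw N
  exact unpredictable_section (Q := Q + 1) hT K π o hc k0 k1 (fun b => hk _) h0 h1 h2 w hw1
    (fun s _ => hk _) (fun b s hs => hR b s (hw2 s hs)) (fun v hv => (hw3 v hv).trans
      (Nat.mul_le_mul_right _ (Nat.le_succ Q)))

end

section

variable {G : Type} [Group G]

theorem leftIso_apply {T : Set G} (w x : G) : leftIso T w x = w * x := rfl

theorem walk_translate {T : Set G} {x y : G} (q : (SimpleGraph.mulCayley T).Walk x y) :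
    ∃ q' : (SimpleGraph.mulCayley T).Walk 1 (x⁻¹ * y), q'.length = q.length := by
  have h3 : (leftIso T x⁻¹).toHom x = 1 := inv_mul_cancel x
  have h4 : (leftIso T x⁻¹).toHom y = x⁻¹ * y := rfl
  exact ⟨(q.map (leftIso T x⁻¹).toHom).copy h3 h4, by
    rw [SimpleGraph.Walk.length_copy, SimpleGraph.Walk.length_map]⟩

theorem ball_finite {T : Set G} (hTf : T.Finite) (k : ℕ) :
    {y : G | ∃ p : (SimpleGraph.mulCayley T).Walk 1 y, p.length ≤ k}.Finite := by
  induction k with
  | zero =>
    refine (Set.finite_singleton (1 : G)).subset ?_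
    rintro y ⟨p, hp⟩
    exact (SimpleGraph.Walk.eq_of_length_eq_zero (Nat.le_zero.1 hp)).symm
  | succ k ih =>
    refine ((ih.biUnion (t := fun y => (SimpleGraph.mulCayley T).neighborSet y)
      (fun y _ => cay_finite hTf y)).union ih).subset ?_
    rintro y ⟨p, hp⟩
    rcases Nat.lt_or_ge p.length (k + 1) with h | h
    · exact Or.inr ⟨p, by omega⟩
    · left
      have hlen : p.length = k + 1 := le_antisymm hp h
      have hne : ¬ p.reverse.Nil := by
        intro hn
        have := SimpleGraph.Walk.length_eq_zero_iff.2 hn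
        rw [SimpleGraph.Walk.length_reverse] at this
        omega
      obtain ⟨z, hz, q, hq⟩ := SimpleGraph.Walk.not_nil_iff.1 hne
      refine Set.mem_biUnion (x := z) ⟨q.reverse, ?_⟩ hz.symm
      have h2 := congrArg SimpleGraph.Walk.length hq
      rw [SimpleGraph.Walk.length_reverse, SimpleGraph.Walk.length_cons] at h2
      rw [SimpleGraph.Walk.length_reverse]
      omega

/-- A binary tree with bounded steps in a group with an expanding subgraph. -/
theorem tree_of_subgraph {T : Set G} (hTf : T.Finite)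
    (h : HasExpandingSubgraph (SimpleGraph.mulCayley T)) :
    ∃ (B : Set G) (p : List Bool → G), B.Finite ∧
      (∀ l0 τ τ' : List Bool, τ.length = τ'.length → p (τ ++ l0) = p (τ' ++ l0) → τ = τ') ∧
      ∀ l b, (p l)⁻¹ * p (b :: l) ∈ B := by
  classical
  obtain ⟨Γ, hinf, ε, hε, hS⟩ := h
  have hD : ∀ v, ((SimpleGraph.mulCayley T).neighborSet v).Finite ∧
      ((SimpleGraph.mulCayley T).neighborSet v).ncard ≤
        ((SimpleGraph.mulCayley T).neighborSet 1).ncard := by
    intro v
    refine ⟨cay_finite hTf v, ?_⟩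
    refine le_of_eq ?_
    have h1 : (SimpleGraph.mulCayley T).neighborSet v =
        (fun x => v * x) '' (SimpleGraph.mulCayley T).neighborSet 1 := by
      ext y
      constructor
      · intro hy
        refine ⟨v⁻¹ * y, ?_, by simp⟩
        have h2 := (leftIso T v⁻¹).map_adj_iff.2 ((SimpleGraph.mem_neighborSet _ _ _).1 hy)
        rw [leftIso_apply, leftIso_apply, inv_mul_cancel] at h2
        exact h2
      · rintro ⟨x, hx, rfl⟩
        have h2 := (leftIso T v).map_adj_iff.2 ((SimpleGraph.mem_neighborSet _ _ _).1 hx)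
        rw [leftIso_apply, leftIso_apply, mul_one] at h2
        exact h2
    rw [h1]
    exact Set.ncard_image_of_injective _ (mul_right_injective v)
  obtain ⟨k, g, hg, hg'⟩ := W_55e385_h22.children hD Γ hε hS
  obtain ⟨v0, hv0⟩ := hinf.nonempty
  set P : List Bool → Γ.verts := fun l => l.foldr (fun b x => ⟨g (x, b), (hg' (x, b)).1⟩)
    ⟨v0, hv0⟩ with hP
  have hPc : ∀ b l, ((P (b :: l) : Γ.verts) : G) = g (P l, b) := fun b l => rfl
  refine ⟨{y : G | ∃ p : (SimpleGraph.mulCayley T).Walk 1 y, p.length ≤ k},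
    fun l => (P l : G), ball_finite hTf k, ?_, ?_⟩
  · intro l0 τ
    induction τ with
    | nil =>
      intro τ' hl _
      exact (List.length_eq_zero_iff.1 hl.symm).symm
    | cons b τ ih =>
      intro τ' hl he
      cases τ' with
      | nil => simp at hl
      | cons b' τ' =>
        have h1 : g (P (τ ++ l0), b) = g (P (τ' ++ l0), b') := he
        have h2 := hg h1
        have h3 := congrArg Prod.snd h2
        have h4 := congrArg Prod.fst h2
        simp only at h3 h4
        have h5 := ih τ' (by simpa using hl) (congrArg Subtype.val h4)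
        rw [h3, h5]
  · intro l b
    obtain ⟨-, w, hw⟩ := hg' (P l, b)
    obtain ⟨q', hq'⟩ := walk_translate w
    exact ⟨q', hq'.le.trans hw⟩

end

section

variable {A H X : Type} [AddCommGroup A] [Group H] [MulAction H X]

/-- The balls of finitely generated subgroups grow subexponentially. -/
def Subexp (H : Type) [Group H] : Prop :=
  ∀ (S : Finset H) (b : ℝ), 1 < b → ∃ C : ℝ, ∀ n : ℕ,
    (({g : H | ∃ l : List H, l.length ≤ n ∧ (∀ s ∈ l, s ∈ S) ∧ l.prod = g}.ncard : ℕ) : ℝ) ≤
      C * b ^ n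

open scoped Classical in
theorem pow_card (h : Subexp H) (U : Finset H) : ∃ C : ℝ, ∀ n, ((U ^ n).card : ℝ) ≤
    C * (21 / 20) ^ n := by
  obtain ⟨C, hC⟩ := h U (21 / 20) (by norm_num)
  refine ⟨C, fun n => le_trans ?_ (hC n)⟩
  have hfin : {g : H | ∃ l : List H, l.length ≤ n ∧ (∀ s ∈ l, s ∈ U) ∧ l.prod = g}.Finite := by
    have h1 : {l : List U | l.length ≤ n}.Finite := List.finite_length_le _ n
    refine (h1.image (fun l => (l.map (fun s : U => (s : H))).prod)).subset ?_
    rintro y ⟨l, hl, hs, rfl⟩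
    refine ⟨l.attachWith (· ∈ U) hs, ?_, ?_⟩
    · simpa using hl
    · simp only
      congr 1
      exact (List.attachWith_map_val (f := fun s : H => s) ..).trans (List.map_id' _)
  have h2 : ((U ^ n : Finset H) : Set H) ⊆
      {g : H | ∃ l : List H, l.length ≤ n ∧ (∀ s ∈ l, s ∈ U) ∧ l.prod = g} := by
    intro g hg
    obtain ⟨f, hf⟩ := Finset.mem_pow.1 (Finset.mem_coe.1 hg)
    refine ⟨List.ofFn fun i => (f i : H), by simp, ?_, hf⟩
    intro s hs
    rw [List.mem_ofFn] at hs
    obtain ⟨i, rfl⟩ := hs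
    exact (f i).2
  have h3 := Set.ncard_le_ncard h2 hfin
  rw [Set.ncard_coe_finset] at h3
  exact_mod_cast h3

/-- The converse. -/
theorem good_of_expand [Finite A] [MulAction.IsPretransitive H X] [Nonempty X] (h : Subexp H)
    {T : Set (Multiplicative (X →₀ A) ⋊[lamps A H X] H)} (hTf : T.Finite)
    (hE : HasExpandingSubgraph (SimpleGraph.mulCayley T)) : Good H X := by
  classical
  obtain ⟨B, p, hB, hinj, hp⟩ := tree_of_subgraph hTf hE
  obtain ⟨o⟩ := ‹Nonempty X›
  set U : Finset H := hB.toFinset.image (fun x => x.right) with hU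
  set F : Finset X := hB.toFinset.biUnion (fun x => x.left.toAdd.support) with hF
  obtain ⟨C, hC⟩ := pow_card h U
  obtain ⟨q, a0, hst⟩ := steps (U := U) (F := F) hC p hinj
    (fun l b => Finset.mem_image.2 ⟨_, hB.mem_toFinset.2 (hp l b), rfl⟩)
    (fun l b => Finset.subset_biUnion_of_mem (fun x => x.left.toAdd.support)
      (hB.mem_toFinset.2 (hp l b)))
  exact good_of_steps o hst

end

end Pool.Agent.W_55e385w_h22
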