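import Pool.Agent.W_55e385w_h22.Final

set_option autoImplicit false

/-!
# Isoperimetric inequalities give spreading exponents
-/

namespace Pool.Agent.W_55e385w_h22

section

variable {H X : Type} [Group H] [MulAction H X] {S : Finset H}

/-- The number of pairs `(x, s)` with `x ∈ A`, `s ∈ S` and `s • x ∉ A`. -/
noncomputable def bd (S : Finset H) (A : Finset X) : ℕ :=
  {p : X × H | p.1 ∈ A ∧ p.2 ∈ S ∧ p.2 • p.1 ∉ A}.ncard

open scoped Classical in
theorem bd_eq (A : Finset X) : bd S A = ((A ×ˢ S).filter (fun p => p.2 • p.1 ∉ A)).card := by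
  rw [bd, ← Set.ncard_coe_finset]
  congr 1
  ext p
  simp [and_assoc]

open scoped Classical in
theorem coarea_iso (F : X → ℕ) (Z : Finset X) (hZ : ∀ z ∉ Z, F z = 0) (M : ℕ) :
    ∑ t ∈ Finset.range M, bd S (Z.filter (fun z => t < F z)) ≤
      ∑ p ∈ Z ×ˢ S, (F p.1 - F (p.2 • p.1)) := by
  have h1 : ∀ t ∈ Finset.range M, bd S (Z.filter (fun z => t < F z)) ≤
      ((Z ×ˢ S).bipartiteBelow (fun p t => F (p.2 • p.1) ≤ t ∧ t < F p.1) t).card := by
    intro t _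
    rw [bd_eq]
    refine Finset.card_le_card (fun p hp => ?_)
    rw [Finset.mem_filter, Finset.mem_product, Finset.mem_filter, Finset.mem_filter] at hp
    rw [Finset.mem_bipartiteBelow, Finset.mem_product]
    refine ⟨⟨hp.1.1.1, hp.1.2⟩, ?_, hp.1.1.2⟩
    by_contra h
    push Not at h
    refine hp.2 ⟨?_, h⟩
    by_contra hz
    rw [hZ _ hz] at h
    omega
  calc ∑ t ∈ Finset.range M, bd S (Z.filter (fun z => t < F z))
      ≤ ∑ t ∈ Finset.range M,
        ((Z ×ˢ S).bipartiteBelow (fun p t => F (p.2 • p.1) ≤ t ∧ t < F p.1) t).card :=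
        Finset.sum_le_sum h1
    _ = ∑ p ∈ Z ×ˢ S, ((Finset.range M).bipartiteAbove
        (fun p t => F (p.2 • p.1) ≤ t ∧ t < F p.1) p).card :=
        (Finset.sum_card_bipartiteAbove_eq_sum_card_bipartiteBelow _).symm
    _ ≤ ∑ p ∈ Z ×ˢ S, (F p.1 - F (p.2 • p.1)) := by
        refine Finset.sum_le_sum (fun p _ => ?_)
        have h2 : (Finset.range M).bipartiteAbove
            (fun p t => F (p.2 • p.1) ≤ t ∧ t < F p.1) p ⊆
            Finset.Ico (F (p.2 • p.1)) (F p.1) := by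
          intro t ht
          rw [Finset.mem_bipartiteAbove] at ht
          exact Finset.mem_Ico.2 ht.2
        have h3 := Finset.card_le_card h2
        rwa [Nat.card_Ico] at h3

open scoped Classical in
theorem layer (F : X → ℕ) (Z : Finset X) (k M : ℕ) (hM : ∀ z ∈ Z, F z ≤ M) :
    ∑ z ∈ Z, (F z - k) ≤ ∑ t ∈ Finset.Ico k M, (Z.filter (fun z => t < F z)).card := by
  have h1 : ∑ t ∈ Finset.Ico k M, (Z.filter (fun z => t < F z)).card =
      ∑ z ∈ Z, ((Finset.Ico k M).filter (fun t => t < F z)).card :=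
    (Finset.sum_card_bipartiteAbove_eq_sum_card_bipartiteBelow
      (fun (z : X) (t : ℕ) => t < F z)).symm
  rw [h1]
  refine Finset.sum_le_sum (fun z hz => ?_)
  rw [← Nat.card_Ico]
  refine Finset.card_le_card (fun t ht => ?_)
  rw [Finset.mem_Ico] at ht
  rw [Finset.mem_filter, Finset.mem_Ico]
  exact ⟨⟨ht.1, ht.2.trans_le (hM z hz)⟩, ht.2⟩

theorem nash_iso {c a : ℝ} (hc : 0 ≤ c) (ha : 0 ≤ a)
    (hiso : ∀ A : Finset X, A.Nonempty → c * (A.card : ℝ) ^ (1 - a) ≤ bd S A) (u : X → ℕ)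
    (Z : Finset X) (hZ : ∀ z ∉ Z, u z = 0) (N : ℝ) (hN : 0 < N)
    (hu : ∑ z ∈ Z, (u z : ℝ) ≤ N) :
    c ^ 2 * (∑ z ∈ Z, (u z : ℝ) ^ 2) *
      (((∑ z ∈ Z, (u z : ℝ) ^ 2) / (2 * N ^ 2)) ^ a) ^ 2 ≤
      16 * S.card * ∑ p ∈ Z ×ˢ S, ((u (p.2 • p.1) : ℝ) - u p.1) ^ 2 := by
  classical
  set n2 : ℝ := ∑ z ∈ Z, (u z : ℝ) ^ 2 with hn2
  set E : ℝ := ∑ p ∈ Z ×ˢ S, ((u (p.2 • p.1) : ℝ) - u p.1) ^ 2 with hE
  have hn2' : 0 ≤ n2 := Finset.sum_nonneg (fun z _ => by positivity)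
  have hE' : 0 ≤ E := Finset.sum_nonneg (fun z _ => by positivity)
  rcases hn2'.eq_or_lt with h0 | h0
  · rw [← h0]
    simp only [mul_zero, zero_mul]
    positivity
  set s : ℝ := n2 / (2 * N) with hs
  have hs0 : 0 < s := by positivity
  set q : ℝ := n2 / (2 * N ^ 2) with hq
  have hq0 : 0 < q := by positivity
  set k : ℕ := ⌊s ^ 2⌋₊ with hk
  set M : ℕ := ∑ z ∈ Z, u z ^ 2 with hM
  set A : ℕ → Finset X := fun t => Z.filter (fun z => t < u z ^ 2) with hA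
  -- the level sets are small
  have hcard : ∀ t, k ≤ t → ((A t).card : ℝ) ≤ q⁻¹ := by
    intro t ht
    have h2 : ∀ z ∈ A t, s ≤ (u z : ℝ) := by
      intro z hz
      simp only [hA, Finset.mem_filter] at hz
      have h3 : s ^ 2 < k + 1 := Nat.lt_floor_add_one _
      have h4 : ((k : ℝ) + 1) ≤ (u z : ℝ) ^ 2 := by
        have : k + 1 ≤ u z ^ 2 := by omega
        exact_mod_cast this
      exact (lt_of_pow_lt_pow_left₀ 2 (Nat.cast_nonneg _) (h3.trans_le h4)).le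
    have h3 : ((A t).card : ℝ) * s ≤ N := by
      calc ((A t).card : ℝ) * s = ∑ z ∈ A t, s := by rw [Finset.sum_const, nsmul_eq_mul]
        _ ≤ ∑ z ∈ A t, (u z : ℝ) := Finset.sum_le_sum h2
        _ ≤ ∑ z ∈ Z, (u z : ℝ) :=
            Finset.sum_le_sum_of_subset_of_nonneg (Finset.filter_subset _ _)
              (fun z _ _ => Nat.cast_nonneg _)
        _ ≤ N := hu
    have h4 : q⁻¹ = N / s := by
      rw [hq, hs]
      field_simp
    rw [h4, le_div_iff₀ hs0]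
    exact h3
  have hbd : ∀ t, k ≤ t → c * q ^ a * ((A t).card : ℝ) ≤ bd S (A t) := by
    intro t ht
    rcases (A t).eq_empty_or_nonempty with h2 | h2
    · rw [h2]
      simp
    · refine le_trans ?_ (hiso (A t) h2)
      have h3 : (0 : ℝ) < (A t).card := by exact_mod_cast Finset.card_pos.2 h2
      rw [mul_assoc]
      refine mul_le_mul_of_nonneg_left ?_ hc
      rw [sub_eq_add_neg, Real.rpow_add h3, Real.rpow_one, mul_comm]
      refine mul_le_mul_of_nonneg_left ?_ h3.le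
      have h4 : (q⁻¹) ^ (-a) ≤ ((A t).card : ℝ) ^ (-a) :=
        Real.rpow_le_rpow_of_nonpos h3 (hcard t ht) (by linarith)
      rwa [Real.inv_rpow hq0.le, Real.rpow_neg hq0.le, inv_inv] at h4
  -- the sum of the level sets
  have hsum : n2 / 2 ≤ ∑ t ∈ Finset.Ico k M, ((A t).card : ℝ) := by
    have h2 := layer (fun z => u z ^ 2) Z k M (fun z hz =>
      Finset.single_le_sum (f := fun z => u z ^ 2) (fun z _ => Nat.zero_le _) hz)
    have h3 : ((∑ z ∈ Z, (u z ^ 2 - k) : ℕ) : ℝ) ≤ ∑ t ∈ Finset.Ico k M, ((A t).card : ℝ) := by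
      exact_mod_cast h2
    refine le_trans ?_ h3
    push_cast
    have h4 : ∀ z ∈ Z, (u z : ℝ) ^ 2 - s * u z ≤ ((u z ^ 2 - k : ℕ) : ℝ) := by
      intro z _
      by_cases h5 : s ≤ u z
      · have h6 : (k : ℝ) ≤ s ^ 2 := Nat.floor_le (by positivity)
        have h7 : ((u z ^ 2 : ℕ) : ℝ) - k ≤ ((u z ^ 2 - k : ℕ) : ℝ) := by
          rw [sub_le_iff_le_add]
          exact_mod_cast (le_tsub_add : u z ^ 2 ≤ u z ^ 2 - k + k)
        push_cast at h7
        nlinarith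
      · push Not at h5
        have h6 : (0 : ℝ) ≤ u z := Nat.cast_nonneg _
        have h7 : (0 : ℝ) ≤ ((u z ^ 2 - k : ℕ) : ℝ) := Nat.cast_nonneg _
        nlinarith
    have h5 := Finset.sum_le_sum h4
    rw [Finset.sum_sub_distrib, ← Finset.mul_sum] at h5
    refine le_trans ?_ h5
    have h6 : s * ∑ z ∈ Z, (u z : ℝ) ≤ s * N := mul_le_mul_of_nonneg_left hu hs0.le
    have h7 : s * N = n2 / 2 := by
      rw [hs]
      field_simp
    have h8 : ∑ z ∈ Z, (u z : ℝ) ^ 2 = n2 := rfl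
    rw [h8]
    linarith
  -- the boundary
  have h1 : c * q ^ a * (n2 / 2) ≤
      ∑ p ∈ Z ×ˢ S, |(u (p.2 • p.1) : ℝ) - u p.1| * ((u (p.2 • p.1) : ℝ) + u p.1) := by
    have h2 := coarea_iso (S := S) (fun z => u z ^ 2) Z (fun z hz => by simp [hZ z hz]) M
    have h3 : c * q ^ a * (n2 / 2) ≤
        ((∑ p ∈ Z ×ˢ S, (u p.1 ^ 2 - u (p.2 • p.1) ^ 2) : ℕ) : ℝ) := by
      calc c * q ^ a * (n2 / 2) ≤ c * q ^ a * ∑ t ∈ Finset.Ico k M, ((A t).card : ℝ) :=
            mul_le_mul_of_nonneg_left hsum (by positivity)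
        _ = ∑ t ∈ Finset.Ico k M, c * q ^ a * ((A t).card : ℝ) := Finset.mul_sum _ _ _
        _ ≤ ∑ t ∈ Finset.Ico k M, (bd S (A t) : ℝ) :=
            Finset.sum_le_sum (fun t ht => hbd t (Finset.mem_Ico.1 ht).1)
        _ ≤ ∑ t ∈ Finset.range M, (bd S (A t) : ℝ) :=
            Finset.sum_le_sum_of_subset_of_nonneg
              (fun t ht => Finset.mem_range.2 (Finset.mem_Ico.1 ht).2)
              (fun t _ _ => Nat.cast_nonneg _)
        _ ≤ _ := by exact_mod_cast h2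
    push_cast at h3
    refine h3.trans (Finset.sum_le_sum (fun p _ => ?_))
    rcases Nat.le_total (u p.1 ^ 2) (u (p.2 • p.1) ^ 2) with h4 | h4
    · rw [Nat.sub_eq_zero_of_le h4, Nat.cast_zero]
      positivity
    · rw [Nat.cast_sub h4]
      push_cast
      have h5 : (u p.1 : ℝ) - u (p.2 • p.1) ≤ |(u (p.2 • p.1) : ℝ) - u p.1| := by
        rw [abs_sub_comm]; exact le_abs_self _
      have h6 : (0 : ℝ) ≤ (u (p.2 • p.1) : ℝ) + u p.1 := by positivity
      nlinarith [mul_le_mul_of_nonneg_right h5 h6]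
  have h2 : (c * q ^ a * (n2 / 2)) ^ 2 ≤ E * (4 * S.card * n2) := by
    have h3 : (∑ p ∈ Z ×ˢ S, |(u (p.2 • p.1) : ℝ) - u p.1| * ((u (p.2 • p.1) : ℝ) + u p.1)) ^ 2 ≤
        (∑ p ∈ Z ×ˢ S, |(u (p.2 • p.1) : ℝ) - u p.1| ^ 2) *
          ∑ p ∈ Z ×ˢ S, ((u (p.2 • p.1) : ℝ) + u p.1) ^ 2 :=
      Finset.sum_mul_sq_le_sq_mul_sq _ _ _
    simp only [sq_abs] at h3
    have h4 : ∑ p ∈ Z ×ˢ S, ((u (p.2 • p.1) : ℝ) + u p.1) ^ 2 ≤ 4 * S.card * n2 := by
      rw [Finset.sum_product_right]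
      have h5 : ∀ s ∈ S, ∑ z ∈ Z, ((u (s • z) : ℝ) + u z) ^ 2 ≤ 4 * n2 := by
        intro s _
        have h6 : ∑ z ∈ Z, ((u (s • z) : ℝ) ^ 2) ≤ n2 :=
          sum_smul_le s (fun z => (u z : ℝ) ^ 2) (fun z => by positivity) Z Z
            (fun z hz => by simp [hZ z hz])
        calc ∑ z ∈ Z, ((u (s • z) : ℝ) + u z) ^ 2
            ≤ ∑ z ∈ Z, (2 * (u (s • z) : ℝ) ^ 2 + 2 * (u z : ℝ) ^ 2) :=
              Finset.sum_le_sum (fun z _ => by nlinarith [sq_nonneg ((u (s • z) : ℝ) - u z)])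
          _ = 2 * ∑ z ∈ Z, ((u (s • z) : ℝ) ^ 2) + 2 * n2 := by
              rw [Finset.sum_add_distrib, ← Finset.mul_sum, ← Finset.mul_sum]
          _ ≤ 4 * n2 := by linarith
      refine (Finset.sum_le_sum h5).trans ?_
      rw [Finset.sum_const, nsmul_eq_mul]
      apply le_of_eq
      ring
    calc (c * q ^ a * (n2 / 2)) ^ 2
        ≤ (∑ p ∈ Z ×ˢ S, |(u (p.2 • p.1) : ℝ) - u p.1| *
            ((u (p.2 • p.1) : ℝ) + u p.1)) ^ 2 :=
          pow_le_pow_left₀ (by positivity) h1 2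
      _ ≤ _ := h3
      _ ≤ E * (4 * S.card * n2) := mul_le_mul_of_nonneg_left h4 hE'
  have h3 : n2 * (c ^ 2 * n2 * (q ^ a) ^ 2) ≤ n2 * (16 * S.card * E) := by
    calc n2 * (c ^ 2 * n2 * (q ^ a) ^ 2) = 4 * (c * q ^ a * (n2 / 2)) ^ 2 := by ring
      _ ≤ 4 * (E * (4 * S.card * n2)) := by linarith
      _ = _ := by ring
  exact le_of_mul_le_mul_left h3 h0

end

end Pool.Agent.W_55e385w_h22
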