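import Pool.Agent.W_55e385w_h22.Iso

set_option autoImplicit false

/-!
# Isoperimetric inequalities give spreading exponents, continued
-/

namespace Pool.Agent.W_55e385w_h22

section

variable {H X : Type} [Group H] [MulAction H X] {S : Finset H}

theorem diag_iso (hS : ∀ s ∈ S, s⁻¹ ∈ S) (h1 : (1 : H) ∈ S) {c p : ℝ} (hc : 0 < c) (hp : 0 < p)
    (hiso : ∀ A : Finset X, A.Nonempty → c * (A.card : ℝ) ^ (1 - 1 / (2 * p)) ≤ bd S A) :
    ∃ κ : ℝ, 0 < κ ∧ ∀ (x : X) (r : ℕ),
      ((cnt S (2 * r) x x : ℝ) / (S.card : ℝ) ^ (2 * r)) ^ (1 / p) * (1 + κ * r) ≤ 1 := by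
  classical
  set d : ℝ := (S.card : ℝ) with hd
  have hd1 : 1 ≤ d := by
    have : 1 ≤ S.card := Finset.card_pos.2 ⟨1, h1⟩
    rw [hd]
    exact_mod_cast this
  set κ : ℝ := c ^ 2 / (16 * d ^ 3) * (1 / 2) ^ (1 / p) with hκ
  have hκ0 : 0 < κ := by positivity
  refine ⟨κ / p, by positivity, fun x => ?_⟩
  set b : ℕ → ℝ := fun r => (cnt S (2 * r) x x : ℝ) / d ^ (2 * r) with hb
  have hb0 : ∀ r, 0 ≤ b r := fun r => by positivity
  have hstep : ∀ r, b (r + 1) ≤ b r - κ * b r ^ (1 / p) * b r := by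
    intro r
    obtain ⟨Z1, hZ1⟩ := cnt_supp hS r x
    obtain ⟨Z2, hZ2⟩ := cnt_supp hS (r + 1) x
    set Z := Z1 ∪ Z2 with hZd
    have hZr : ∀ z ∉ Z, cnt S r x z = 0 := fun z hz => hZ1 z (fun h => hz (by
      rw [hZd]; exact Finset.mem_union_left _ h))
    have hZr1 : ∀ z ∉ Z, cnt S (r + 1) x z = 0 := fun z hz => hZ2 z (fun h => hz (by
      rw [hZd]; exact Finset.mem_union_right _ h))
    have e1 := energy h1 (fun z => cnt S r x z) Z hZr
    have hdr : (0 : ℝ) < d ^ r := by positivity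
    have e2 := nash_iso hc.le (by positivity : (0 : ℝ) ≤ 1 / (2 * p)) hiso
      (fun z => cnt S r x z) Z hZr (d ^ r) hdr (mass_le hS r x Z)
    have e3 : ∑ z ∈ Z, (cnt S r x z : ℝ) ^ 2 = cnt S (2 * r) x x := by
      rw [← cnt_sq hS r x Z hZr]
      push_cast
      rfl
    have e4 : ∑ z ∈ Z, (∑ s ∈ S, (cnt S r x (s • z) : ℝ)) ^ 2 = cnt S (2 * (r + 1)) x x := by
      rw [← cnt_sq hS (r + 1) x Z hZr1]
      push_cast
      refine Finset.sum_congr rfl (fun z _ => ?_)
      rw [cnt_succ hS]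
      push_cast
      rfl
    rw [e3] at e1 e2
    rw [e4] at e1
    set E : ℝ := ∑ p ∈ Z ×ˢ S, ((cnt S r x (p.2 • p.1) : ℝ) - cnt S r x p.1) ^ 2 with hE
    set n : ℝ := (cnt S (2 * r) x x : ℝ) with hn
    set n' : ℝ := (cnt S (2 * (r + 1)) x x : ℝ) with hn'
    have hn0 : 0 ≤ n := by positivity
    have hE0 : 0 ≤ E := Finset.sum_nonneg (fun p _ => by positivity)
    have hdp : (0 : ℝ) < d ^ (2 * r) := by positivity
    have e8 : b (r + 1) = n' / (d ^ (2 * r) * d ^ 2) := by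
      simp only [hb, hn']
      rw [show 2 * (r + 1) = 2 * r + 2 by ring, pow_add]
    have e9 : b r = n / d ^ (2 * r) := rfl
    have e7 : ((n / (2 * (d ^ r) ^ 2)) ^ (1 / (2 * p))) ^ 2 = b r ^ (1 / p) * (1 / 2) ^ (1 / p) := by
      rw [← Real.mul_rpow (hb0 r) (by norm_num), ← Real.rpow_natCast, ← Real.rpow_mul (by positivity)]
      congr 1
      · rw [e9, ← pow_mul, mul_comm r 2]
        field_simp
      · push_cast
        field_simp
    rw [e7] at e2
    have e10 : κ * b r ^ (1 / p) * b r ≤ E / (d ^ (2 * r) * d ^ 2) := by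
      rw [le_div_iff₀ (by positivity)]
      have e11 : κ * b r ^ (1 / p) * b r * (d ^ (2 * r) * d ^ 2) =
          (c ^ 2 * n * (b r ^ (1 / p) * (1 / 2) ^ (1 / p))) / (16 * d) := by
        rw [hκ]
        have : b r * d ^ (2 * r) = n := by
          rw [e9]
          field_simp
        rw [← this]
        field_simp
      rw [e11, div_le_iff₀ (by positivity)]
      linarith
    have e13 : b (r + 1) ≤ b r - E / (d ^ (2 * r) * d ^ 2) := by
      have : b r = (d ^ 2 * n) / (d ^ (2 * r) * d ^ 2) := by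
        rw [e9]
        field_simp
      rw [e8, this, ← sub_div]
      exact div_le_div_of_nonneg_right e1 (by positivity)
    linarith
  intro r
  change b r ^ (1 / p) * (1 + κ / p * r) ≤ 1
  induction r with
  | zero =>
    have : b 0 = 1 := by
      simp only [hb]
      rw [Nat.mul_zero, cnt_zero]
      simp
    rw [this]
    simp
  | succ r ih =>
    have h2 := hstep r
    have h3 := hb0 r
    have h4 := hb0 (r + 1)
    have hr : (0 : ℝ) ≤ r := Nat.cast_nonneg r
    set β : ℝ := b r ^ (1 / p) with hβ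
    have hβ0 : 0 ≤ β := by positivity
    set y : ℝ := κ * β with hy
    have hy0 : 0 ≤ y := by positivity
    have h5 : b (r + 1) ≤ b r * Real.exp (-y) := by
      have h6 : 1 - y ≤ Real.exp (-y) := by
        have := Real.add_one_le_exp (-y)
        linarith
      calc b (r + 1) ≤ b r * (1 - y) := by
            refine h2.trans (le_of_eq ?_)
            ring
        _ ≤ b r * Real.exp (-y) := mul_le_mul_of_nonneg_left h6 h3
    have h6 : b (r + 1) ^ (1 / p) ≤ β * Real.exp (-(y / p)) := by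
      calc b (r + 1) ^ (1 / p) ≤ (b r * Real.exp (-y)) ^ (1 / p) :=
            Real.rpow_le_rpow h4 h5 (by positivity)
        _ = β * Real.exp (-(y / p)) := by
            rw [Real.mul_rpow h3 (Real.exp_pos _).le, ← Real.exp_mul]
            congr 2
            ring
    have h7 : Real.exp (-(y / p)) * (1 + y / p) ≤ 1 := by
      have h8 := Real.add_one_le_exp (y / p)
      rw [Real.exp_neg, inv_mul_le_iff₀ (Real.exp_pos _)]
      linarith
    calc b (r + 1) ^ (1 / p) * (1 + κ / p * ((r + 1 : ℕ) : ℝ))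
        ≤ (β * Real.exp (-(y / p))) * (1 + κ / p * ((r + 1 : ℕ) : ℝ)) :=
          mul_le_mul_of_nonneg_right h6 (by positivity)
      _ = Real.exp (-(y / p)) * (β * (1 + κ / p * r) + y / p) := by
          push_cast
          rw [hy]
          ring
      _ ≤ Real.exp (-(y / p)) * (1 + y / p) :=
          mul_le_mul_of_nonneg_left (by linarith) (Real.exp_pos _).le
      _ ≤ 1 := h7

theorem uniform_iso (hS : ∀ s ∈ S, s⁻¹ ∈ S) (h1 : (1 : H) ∈ S) {c p : ℝ} (hc : 0 < c)
    (hp : 0 < p)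
    (hiso : ∀ A : Finset X, A.Nonempty → c * (A.card : ℝ) ^ (1 - 1 / (2 * p)) ≤ bd S A) :
    ∃ C : ℝ, 0 ≤ C ∧ ∀ n : ℕ, 1 ≤ n → ∀ x y : X,
      (cnt S n x y : ℝ) ≤ C * (n : ℝ) ^ (-p) * (S.card : ℝ) ^ n := by
  classical
  set d : ℝ := (S.card : ℝ) with hd
  have hd1 : 1 ≤ d := by
    have : 1 ≤ S.card := Finset.card_pos.2 ⟨1, h1⟩
    rw [hd]
    exact_mod_cast this
  obtain ⟨κ, hκ0, hκ⟩ := diag_iso hS h1 hc hp hiso
  set κ' : ℝ := min 1 (κ / 2) with hκ'
  have hκ'0 : 0 < κ' := lt_min one_pos (by positivity)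
  have hκ'1 : κ' ≤ 1 := min_le_left _ _
  have hκ'2 : κ' ≤ κ / 2 := min_le_right _ _
  have hdiag : ∀ (r : ℕ) (x : X) (n : ℕ), 1 ≤ n → n ≤ 2 * r + 1 →
      (cnt S (2 * r) x x : ℝ) ≤ κ' ^ (-p) * (n : ℝ) ^ (-p) * d ^ (2 * r) := by
    intro r x n hn hnr
    have h2 := hκ x r
    set b : ℝ := (cnt S (2 * r) x x : ℝ) / (S.card : ℝ) ^ (2 * r) with hb
    have hb0 : 0 ≤ b := by positivity
    have hnr' : (n : ℝ) ≤ 2 * r + 1 := by exact_mod_cast hnr
    have hn' : (1 : ℝ) ≤ n := by exact_mod_cast hn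
    have hr0 : (0 : ℝ) ≤ r := Nat.cast_nonneg r
    have hT : κ' * n ≤ 1 + κ * r := by
      calc κ' * n ≤ κ' * (2 * r + 1) := mul_le_mul_of_nonneg_left hnr' hκ'0.le
        _ = κ' * (2 * r) + κ' := by ring
        _ ≤ κ / 2 * (2 * r) + 1 :=
            add_le_add (mul_le_mul_of_nonneg_right hκ'2 (by positivity)) hκ'1
        _ = _ := by ring
    have hT0 : 0 < κ' * n := by positivity
    have h3 : b ^ (1 / p) ≤ (κ' * n)⁻¹ := by
      rw [← one_div, le_div_iff₀ hT0]
      exact (mul_le_mul_of_nonneg_left hT (by positivity)).trans h2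
    have h4 : b ≤ κ' ^ (-p) * (n : ℝ) ^ (-p) := by
      calc b = (b ^ (1 / p)) ^ p := by
            rw [← Real.rpow_mul hb0, one_div, inv_mul_cancel₀ hp.ne', Real.rpow_one]
        _ ≤ ((κ' * n)⁻¹) ^ p := Real.rpow_le_rpow (by positivity) h3 hp.le
        _ = κ' ^ (-p) * (n : ℝ) ^ (-p) := by
            rw [← Real.mul_rpow hκ'0.le (by positivity), Real.inv_rpow hT0.le, ← Real.rpow_neg hT0.le]
    have hdp : 0 < (S.card : ℝ) ^ (2 * r) := by positivity
    rw [hb, div_le_iff₀ hdp] at h4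
    exact h4
  have heven : ∀ (r : ℕ) (x y : X) (n : ℕ), 1 ≤ n → n ≤ 2 * r + 1 →
      (cnt S (2 * r) x y : ℝ) ≤ κ' ^ (-p) * (n : ℝ) ^ (-p) * d ^ (2 * r) := by
    intro r x y n hn hnr
    obtain ⟨Z1, hZ1⟩ := cnt_supp hS r x
    obtain ⟨Z2, hZ2⟩ := cnt_supp hS r y
    have hZx : ∀ z ∉ Z1 ∪ Z2, cnt S r x z = 0 :=
      fun z hz => hZ1 z (fun h => hz (Finset.mem_union_left _ h))
    have hZy : ∀ z ∉ Z1 ∪ Z2, cnt S r y z = 0 :=
      fun z hz => hZ2 z (fun h => hz (Finset.mem_union_right _ h))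
    have h2 : (cnt S (2 * r) x y : ℝ) = ∑ z ∈ Z1 ∪ Z2, (cnt S r x z : ℝ) * cnt S r y z := by
      rw [two_mul, cnt_conv hS r r x y _ hZx]
      push_cast
      refine Finset.sum_congr rfl (fun z _ => ?_)
      rw [cnt_symm hS r z y]
    have h3 : (cnt S (2 * r) x x : ℝ) = ∑ z ∈ Z1 ∪ Z2, (cnt S r x z : ℝ) ^ 2 := by
      rw [← cnt_sq hS r x _ hZx]
      push_cast
      rfl
    have h4 : (cnt S (2 * r) y y : ℝ) = ∑ z ∈ Z1 ∪ Z2, (cnt S r y z : ℝ) ^ 2 := by
      rw [← cnt_sq hS r y _ hZy]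
      push_cast
      rfl
    have h5 : (cnt S (2 * r) x y : ℝ) ≤
        (1 / 2) * ((cnt S (2 * r) x x : ℝ) + cnt S (2 * r) y y) := by
      rw [h2, h3, h4, ← Finset.sum_add_distrib, Finset.mul_sum]
      refine Finset.sum_le_sum (fun z _ => ?_)
      nlinarith [sq_nonneg ((cnt S r x z : ℝ) - cnt S r y z)]
    have h6 := hdiag r x n hn hnr
    have h7 := hdiag r y n hn hnr
    linarith
  refine ⟨κ' ^ (-p), by positivity, fun n hn x y => ?_⟩
  obtain ⟨r, hr⟩ := Nat.even_or_odd' n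
  rcases hr with hr | hr
  · have h2 := heven r x y n hn (by omega)
    rwa [← hr] at h2
  · have h2 : (cnt S n x y : ℝ) = ∑ s ∈ S, (cnt S (2 * r) x (s • y) : ℝ) := by
      rw [hr, cnt_succ hS]
      push_cast
      rfl
    rw [h2]
    calc ∑ s ∈ S, (cnt S (2 * r) x (s • y) : ℝ)
        ≤ ∑ s ∈ S, κ' ^ (-p) * (n : ℝ) ^ (-p) * d ^ (2 * r) :=
          Finset.sum_le_sum (fun s _ => heven r x (s • y) n hn (by omega))
      _ = κ' ^ (-p) * (n : ℝ) ^ (-p) * d ^ n := by
          rw [Finset.sum_const, nsmul_eq_mul, ← hd, hr, pow_succ]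
          ring

/-- An isoperimetric inequality of dimension `2 * p` gives the spreading exponent `p`. -/
theorem spreads_iso {T : Finset H} {c p : ℝ} (hc : 0 < c) (hp : 0 < p)
    (hiso : ∀ A : Finset X, A.Nonempty → c * (A.card : ℝ) ^ (1 - 1 / (2 * p)) ≤ bd T A) :
    Spreads H X p := by
  classical
  obtain ⟨S, h1, hS, hTS⟩ : ∃ S : Finset H, 1 ∈ S ∧ (∀ s ∈ S, s⁻¹ ∈ S) ∧ T ⊆ S := by
    refine ⟨T ∪ T.image (fun t => t⁻¹) ∪ {1}, by simp, ?_, ?_⟩
    · intro s hs
      simp only [Finset.mem_union, Finset.mem_image, Finset.mem_singleton] at hs ⊢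
      rcases hs with (hs | ⟨t, ht, rfl⟩) | rfl
      · exact Or.inl (Or.inr ⟨s, hs, rfl⟩)
      · exact Or.inl (Or.inl (by rwa [inv_inv]))
      · exact Or.inr inv_one
    · intro t ht
      simp only [Finset.mem_union]
      exact Or.inl (Or.inl ht)
  have hiso' : ∀ A : Finset X, A.Nonempty → c * (A.card : ℝ) ^ (1 - 1 / (2 * p)) ≤ bd S A := by
    intro A hA
    refine (hiso A hA).trans ?_
    have : bd T A ≤ bd S A := by
      rw [bd_eq, bd_eq]
      exact Finset.card_le_card (Finset.filter_subset_filter _ (Finset.product_subset_product_right hTS))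
    exact_mod_cast this
  obtain ⟨C, -, hC⟩ := uniform_iso hS h1 hc hp hiso'
  have : Nonempty S := ⟨⟨1, h1⟩⟩
  refine spreads_of_rw (S := S) (C := C) (fun r hr => ?_)
  refine ⟨Fin r → S, inferInstance, inferInstance, fun w => List.ofFn fun i => (w i : H), ?_, ?_,
    ?_⟩
  · intro w
    simp
  · intro w s hs
    rw [List.mem_ofFn] at hs
    obtain ⟨i, rfl⟩ := hs
    exact (w i).2
  · intro x y
    have h2 := hC r hr x y
    rw [cnt] at h2
    simpa using h2

/-- A finitely generated group with infinite orbits has the spreading exponent `1 / 2`. -/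
theorem spreads_orbits (hFG : Group.FG H) (hinf : ∀ x : X, (MulAction.orbit H x).Infinite) :
    Spreads H X (1 / 2) := by
  classical
  obtain ⟨T, hT, hTf⟩ := Group.fg_iff.1 hFG
  obtain ⟨S, hS, hgen⟩ : ∃ S : Finset H, (∀ s ∈ S, s⁻¹ ∈ S) ∧
      Subgroup.closure (S : Set H) = ⊤ := by
    refine ⟨hTf.toFinset ∪ hTf.toFinset.image (fun t => t⁻¹), ?_, ?_⟩
    · intro s hs
      simp only [Finset.mem_union, Finset.mem_image] at hs ⊢
      rcases hs with hs | ⟨t, ht, rfl⟩
      · exact Or.inr ⟨s, hs, rfl⟩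
      · exact Or.inl (by rwa [inv_inv])
    · rw [eq_top_iff, ← hT]
      refine Subgroup.closure_mono (fun t ht => ?_)
      simp only [Finset.coe_union, Set.mem_union, Finset.mem_coe, Set.Finite.mem_toFinset]
      exact Or.inl ht
  refine spreads_iso (T := S) (c := 1) one_pos (by norm_num) (fun A hA => ?_)
  have h1 : 1 ≤ bd S A := by
    rw [bd_eq, Nat.one_le_iff_ne_zero, ← Nat.pos_iff_ne_zero, Finset.card_pos]
    by_contra hcon
    rw [Finset.not_nonempty_iff_eq_empty, Finset.filter_eq_empty_iff] at hcon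
    have hcl : ∀ s ∈ S, ∀ z ∈ A, s • z ∈ A := fun s hs z hz => by
      have := hcon (x := (z, s)) (Finset.mem_product.2 ⟨hz, hs⟩)
      exact not_not.1 this
    have key : ∀ g : H, ∀ z ∈ A, g • z ∈ A := by
      intro g
      have hg : g ∈ Subgroup.closure (S : Set H) := by rw [hgen]; trivial
      have : (∀ z ∈ A, g • z ∈ A) ∧ (∀ z ∈ A, g⁻¹ • z ∈ A) := by
        induction hg using Subgroup.closure_induction with
        | mem x hx => exact ⟨fun z hz => hcl x hx z hz, fun z hz => hcl _ (hS x hx) z hz⟩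
        | one => simp
        | mul x y _ _ hx hy =>
          refine ⟨fun z hz => ?_, fun z hz => ?_⟩
          · rw [mul_smul]; exact hx.1 _ (hy.1 z hz)
          · rw [mul_inv_rev, mul_smul]; exact hy.2 _ (hx.2 z hz)
        | inv x _ hx => exact ⟨hx.2, by simpa using hx.1⟩
      exact this.1
    obtain ⟨z, hz⟩ := hA
    refine hinf z (A.finite_toSet.subset ?_)
    rintro _ ⟨g, rfl⟩
    exact key g z hz
  have h2 : (1 : ℝ) - 1 / (2 * (1 / 2)) = 0 := by norm_num
  rw [h2, Real.rpow_zero, mul_one]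
  exact_mod_cast h1

end

theorem half_lt : (1 / 2 : ℝ) < Real.logb 3 2 := by
  have := logb_gt (le_refl 2)
  push_cast at this
  linarith

end Pool.Agent.W_55e385w_h22
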