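import Pool.Agent.W_55e385w_h22.Build

set_option autoImplicit false

/-!
# The numbers
-/

namespace Pool.Agent.W_55e385w_h22

theorem sum_floor {K N : ℕ} (hK : 1 ≤ K) (hN : 2 ≤ N) (l : ℕ) :
    ∑ i ∈ Finset.range l, ((1 : ℝ) / N) ^ (i / K) ≤ 2 * K * N := by
  have hKr : (1 : ℝ) ≤ K := by exact_mod_cast hK
  have hNr : (2 : ℝ) ≤ N := by exact_mod_cast hN
  set t : ℝ := 1 - 1 / (2 * K) with ht
  have hK2 : (1 : ℝ) / (2 * K) ≤ 1 / 2 := by
    apply one_div_le_one_div_of_le (by norm_num); linarith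
  have hK0 : 0 < (1 : ℝ) / (2 * K) := by positivity
  have ht0 : 0 < t := by rw [ht]; linarith
  have ht1 : t < 1 := by rw [ht]; linarith
  have htK : (1 : ℝ) / N ≤ t ^ K := by
    have h1 := one_add_mul_le_pow (a := -(1 / (2 * (K : ℝ)))) (by linarith) K
    have h2 : (1 : ℝ) + K * -(1 / (2 * K)) = 1 / 2 := by
      field_simp; ring
    rw [h2, ← sub_eq_add_neg, ← ht] at h1
    refine le_trans ?_ h1
    exact one_div_le_one_div_of_le (by norm_num) hNr
  have key : ∀ i, ((1 : ℝ) / N) ^ (i / K) ≤ N * t ^ i := by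
    intro i
    have h1 : i ≤ K * (i / K + 1) := by
      have := Nat.div_add_mod i K
      have := Nat.mod_lt i (by omega : 0 < K)
      nlinarith
    have h2 : ((1 : ℝ) / N) ^ (i / K + 1) ≤ t ^ i := by
      calc ((1 : ℝ) / N) ^ (i / K + 1) ≤ (t ^ K) ^ (i / K + 1) :=
            pow_le_pow_left₀ (by positivity) htK _
        _ = t ^ (K * (i / K + 1)) := by rw [← pow_mul]
        _ ≤ t ^ i := pow_le_pow_of_le_one ht0.le ht1.le h1
    rw [pow_succ] at h2
    have h3 : ((1 : ℝ) / N) ^ (i / K) = N * (((1 : ℝ) / N) ^ (i / K) * (1 / N)) := by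
      field_simp
    rw [h3]
    exact mul_le_mul_of_nonneg_left h2 (by positivity)
  calc ∑ i ∈ Finset.range l, ((1 : ℝ) / N) ^ (i / K)
      ≤ ∑ i ∈ Finset.range l, N * t ^ i := Finset.sum_le_sum (fun i _ => key i)
    _ = N * ∑ i ∈ Finset.range l, t ^ i := by rw [Finset.mul_sum]
    _ ≤ N * (1 - t)⁻¹ := by
        refine mul_le_mul_of_nonneg_left ?_ (by positivity)
        have hs := summable_geometric_of_lt_one ht0.le ht1
        rw [← tsum_geometric_of_lt_one ht0.le ht1]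
        exact hs.sum_le_tsum _ (fun i _ => by positivity)
    _ = 2 * K * N := by
        rw [ht]
        have : (1 : ℝ) - (1 - 1 / (2 * K)) = 1 / (2 * K) := by ring
        rw [this]
        field_simp

/-- The slowly growing defect. -/
def Mf (K l : ℕ) : ℕ := l - l / K

theorem Mf_le (K l : ℕ) : Mf K l ≤ l := Nat.sub_le _ _

theorem sub_Mf (K l : ℕ) : l - Mf K l = l / K :=
  Nat.sub_sub_self (Nat.div_le_self l K)

theorem nn_pos {q B : ℕ} (hB : 1 ≤ B) {M : ℕ → ℕ} (hM : ∀ l, M l ≤ l) (l : ℕ) :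
    1 ≤ nn q B M l := by
  have := nn_mono q B M hM (Nat.zero_le l)
  rw [nn_zero] at this
  omega

theorem nn_le {q B K : ℕ} (hq : 1 ≤ q) (l : ℕ) :
    (nn q B (Mf K) l : ℝ) ≤ B * ((q : ℝ) + 1) ^ l *
      Real.exp (2 * q * ∑ i ∈ Finset.range l, ((1 : ℝ) / (q + 1 : ℕ)) ^ (i / K)) := by
  induction l with
  | zero => simp [nn_zero]
  | succ l ih =>
    have h1 := nn_succ q B (Mf K) (Mf_le K) l
    have h2 := tt_le q B (Mf K) (Mf_le K) hq (Mf K l)
    have h3 := nn_pow q B (Mf K) (Mf_le K) (Mf_le K l)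
    rw [sub_Mf] at h3
    have h1' : (nn q B (Mf K) (l + 1) : ℝ) = ((q : ℝ) + 1) * nn q B (Mf K) l +
        q * tt q B (Mf K) (Mf K l) := by exact_mod_cast h1
    have h2' : (tt q B (Mf K) (Mf K l) : ℝ) ≤ 2 * q * nn q B (Mf K) (Mf K l) := by
      exact_mod_cast h2
    have h3' : (nn q B (Mf K) (Mf K l) : ℝ) * ((q : ℝ) + 1) ^ (l / K) ≤
        nn q B (Mf K) l := by exact_mod_cast h3
    have hq0 : (0 : ℝ) < (q : ℝ) + 1 := by positivity
    have hqr : (1 : ℝ) ≤ q := by exact_mod_cast hq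
    set u : ℝ := ((1 : ℝ) / (q + 1 : ℕ)) ^ (l / K) with hu
    have hu1 : u = (((q : ℝ) + 1) ^ (l / K))⁻¹ := by
      rw [hu]; push_cast; rw [one_div, inv_pow]
    have h4 : (nn q B (Mf K) (Mf K l) : ℝ) ≤ nn q B (Mf K) l * u := by
      rw [hu1, ← div_eq_mul_inv, le_div_iff₀ (by positivity)]
      exact h3'
    have hu0 : 0 ≤ u := by positivity
    have h5 : (nn q B (Mf K) (l + 1) : ℝ) ≤
        nn q B (Mf K) l * ((q : ℝ) + 1) * (1 + 2 * q * u) := by
      have hn : (0 : ℝ) ≤ nn q B (Mf K) l := Nat.cast_nonneg _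
      have h6 : (q : ℝ) * tt q B (Mf K) (Mf K l) ≤ q * (2 * q * (nn q B (Mf K) l * u)) := by
        refine mul_le_mul_of_nonneg_left (h2'.trans ?_) (by positivity)
        exact mul_le_mul_of_nonneg_left h4 (by positivity)
      have h7 : (q : ℝ) * (2 * q * (nn q B (Mf K) l * u)) ≤
          ((q : ℝ) + 1) * (2 * q * (nn q B (Mf K) l * u)) :=
        mul_le_mul_of_nonneg_right (by linarith) (by positivity)
      rw [h1']
      nlinarith
    have h8 : 1 + 2 * (q : ℝ) * u ≤ Real.exp (2 * q * u) := by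
      have := Real.add_one_le_exp (2 * (q : ℝ) * u)
      linarith
    rw [Finset.sum_range_succ, ← hu, mul_add, Real.exp_add]
    calc (nn q B (Mf K) (l + 1) : ℝ)
        ≤ nn q B (Mf K) l * ((q : ℝ) + 1) * (1 + 2 * q * u) := h5
      _ ≤ nn q B (Mf K) l * ((q : ℝ) + 1) * Real.exp (2 * q * u) :=
          mul_le_mul_of_nonneg_left h8 (by positivity)
      _ ≤ (B * ((q : ℝ) + 1) ^ l *
          Real.exp (2 * q * ∑ i ∈ Finset.range l, ((1 : ℝ) / (q + 1 : ℕ)) ^ (i / K))) *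
            ((q : ℝ) + 1) * Real.exp (2 * q * u) := by
          refine mul_le_mul_of_nonneg_right (mul_le_mul_of_nonneg_right ih hq0.le) (Real.exp_nonneg _)
      _ = _ := by rw [pow_succ]; ring

theorem Vn_ge {q : ℕ} {x : ℕ → ℝ} (h0 : ∀ l, 0 ≤ x l) (h1 : ∀ l, x l ≤ 1) (l : ℕ) :
    ((q : ℝ) + 1) ^ l * (1 - ∑ i ∈ Finset.range l, x i) ≤ Vn q x l := by
  induction l with
  | zero => simp [Vn]
  | succ l ih =>
    rw [Vn, Finset.sum_range_succ, pow_succ]
    have hs : 0 ≤ ∑ i ∈ Finset.range l, x i := Finset.sum_nonneg (fun i _ => h0 i)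
    have h2 : (1 - (∑ i ∈ Finset.range l, x i + x l)) ≤
        (1 - ∑ i ∈ Finset.range l, x i) * (1 - x l) := by
      nlinarith [mul_nonneg hs (h0 l)]
    calc ((q : ℝ) + 1) ^ l * (q + 1) * (1 - (∑ i ∈ Finset.range l, x i + x l))
        ≤ ((q : ℝ) + 1) ^ l * (q + 1) * ((1 - ∑ i ∈ Finset.range l, x i) * (1 - x l)) :=
          mul_le_mul_of_nonneg_left h2 (by positivity)
      _ = ((q : ℝ) + 1) * (((q : ℝ) + 1) ^ l * (1 - ∑ i ∈ Finset.range l, x i)) * (1 - x l) := by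
          ring
      _ ≤ ((q : ℝ) + 1) * Vn q x l * (1 - x l) :=
          mul_le_mul_of_nonneg_right (mul_le_mul_of_nonneg_left ih (by positivity))
            (by linarith [h1 l])

open Filter in
theorem exists_q {s : ℝ} (hs : 1 < s) : ∃ q : ℕ, 1 ≤ q ∧ (q : ℝ) + 1 < (q : ℝ) ^ s := by
  have h1 : Tendsto (fun x : ℝ => x ^ (s - 1)) atTop atTop :=
    tendsto_rpow_atTop (by linarith)
  have h2 : Tendsto (fun n : ℕ => (n : ℝ) ^ (s - 1)) atTop atTop :=
    h1.comp tendsto_natCast_atTop_atTop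
  obtain ⟨q, h3, h4⟩ := ((h2.eventually (eventually_gt_atTop 2)).and
    (eventually_ge_atTop 1)).exists
  refine ⟨q, h4, ?_⟩
  have hq : (1 : ℝ) ≤ q := by exact_mod_cast h4
  have h5 : (q : ℝ) ^ s = q * (q : ℝ) ^ (s - 1) := by
    rw [Real.rpow_sub (by linarith), Real.rpow_one]
    field_simp
  rw [h5]
  nlinarith

open Filter in
theorem exists_B {p c : ℝ} (hp : 1 < p) (hc : 0 < c) :
    ∃ B : ℕ, 1 ≤ B ∧ (B : ℝ) ^ (1 - p) < c := by
  have h1 : Tendsto (fun x : ℝ => x ^ (-(p - 1))) atTop (nhds 0) :=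
    tendsto_rpow_neg_atTop (by linarith)
  have h2 : Tendsto (fun n : ℕ => (n : ℝ) ^ (-(p - 1))) atTop (nhds 0) :=
    h1.comp tendsto_natCast_atTop_atTop
  obtain ⟨B, h3, h4⟩ := ((h2.eventually (gt_mem_nhds hc)).and
    (eventually_ge_atTop 1)).exists
  refine ⟨B, h4, ?_⟩
  rw [show 1 - p = -(p - 1) by ring]
  exact h3

theorem numbers {p : ℝ} (hp : 1 < p) {C : ℝ} (hC : 0 < C) :
    ∃ (q B : ℕ) (M : ℕ → ℕ) (A : ℝ), 1 ≤ q ∧ 1 ≤ B ∧ (∀ l, M l ≤ l) ∧ 0 < A ∧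
      ∀ x : ℕ → ℝ, (∀ l, x l = (nn q B M (l + 1) + 1 : ℕ) *
        (C * ((B * q ^ M l : ℕ) : ℝ) ^ (-p))) →
        (∀ l, x l ≤ 1) ∧ ∀ l, (nn q B M l : ℝ) ≤ A * Vn q x l := by
  -- the choice of `K`
  obtain ⟨K, hK, hKp⟩ : ∃ K : ℕ, 1 ≤ K ∧ 1 < p * (1 - 1 / K) := by
    obtain ⟨K, hK⟩ := exists_nat_gt (p / (p - 1))
    have hp1 : 0 < p - 1 := by linarith
    have hK0 : (0 : ℝ) < K := lt_trans (by positivity) hK
    refine ⟨K, by exact_mod_cast hK0, ?_⟩
    rw [div_lt_iff₀ hp1] at hK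
    have : p * (1 - 1 / K) = (p * (K - 1)) / K := by field_simp
    rw [this, lt_div_iff₀ hK0]
    nlinarith
  obtain ⟨q, hq, hqs⟩ := exists_q hKp
  set s : ℝ := p * (1 - 1 / K) with hs
  set Γ : ℝ := Real.exp (2 * q * (2 * K * (q + 1 : ℕ))) with hΓ
  have hΓ0 : 0 < Γ := Real.exp_pos _
  have hqr : (1 : ℝ) ≤ q := by exact_mod_cast hq
  have hqs0 : 0 < (q : ℝ) ^ s := by positivity
  set θ : ℝ := ((q : ℝ) + 1) / (q : ℝ) ^ s with hθ
  have hθ0 : 0 < θ := by positivity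
  have hθ1 : θ < 1 := by rw [hθ, div_lt_one hqs0]; exact hqs
  obtain ⟨B, hB, hBp⟩ := exists_B hp
    (show 0 < (1 - θ) / (4 * Γ * C * (q + 1)) from div_pos (by linarith) (by positivity))
  have hBr : (1 : ℝ) ≤ B := by exact_mod_cast hB
  have hB0 : (0 : ℝ) < B := by linarith
  have hlen : ∀ l, (nn q B (Mf K) l : ℝ) ≤ Γ * B * ((q : ℝ) + 1) ^ l := by
    intro l
    refine (nn_le hq l).trans ?_
    have h1 := sum_floor hK (show 2 ≤ q + 1 by omega) l
    have h2 : Real.exp (2 * q * ∑ i ∈ Finset.range l, ((1 : ℝ) / (q + 1 : ℕ)) ^ (i / K)) ≤ Γ := by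
      rw [hΓ]
      exact Real.exp_le_exp.2 (mul_le_mul_of_nonneg_left h1 (by positivity))
    calc B * ((q : ℝ) + 1) ^ l *
          Real.exp (2 * q * ∑ i ∈ Finset.range l, ((1 : ℝ) / (q + 1 : ℕ)) ^ (i / K))
        ≤ B * ((q : ℝ) + 1) ^ l * Γ := mul_le_mul_of_nonneg_left h2 (by positivity)
      _ = _ := by ring
  refine ⟨q, B, Mf K, 2 * Γ * B, hq, hB, Mf_le K, by positivity, ?_⟩
  intro x hx
  have hx0 : ∀ l, 0 ≤ x l := by
    intro l
    rw [hx l]
    positivity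
  -- the bound for `x`
  have hxb : ∀ l, x l ≤ (2 * Γ * C * (q + 1) * (B : ℝ) ^ (1 - p)) * θ ^ l := by
    intro l
    have h1 : ((nn q B (Mf K) (l + 1) + 1 : ℕ) : ℝ) ≤ 2 * (Γ * B * ((q : ℝ) + 1) ^ (l + 1)) := by
      have h2 := hlen (l + 1)
      have h3 : (1 : ℝ) ≤ nn q B (Mf K) (l + 1) := by
        exact_mod_cast nn_pos hB (Mf_le K) (l + 1)
      push_cast
      linarith
    have h4 : (((B * q ^ Mf K l : ℕ) : ℝ)) ^ (-p) ≤ (B : ℝ) ^ (-p) * (((q : ℝ) ^ s) ^ l)⁻¹ := by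
      push_cast
      rw [Real.mul_rpow (by positivity) (by positivity)]
      refine mul_le_mul_of_nonneg_left ?_ (by positivity)
      rw [Real.rpow_neg (by positivity)]
      refine inv_anti₀ (by positivity) ?_
      rw [← Real.rpow_natCast ((q : ℝ) ^ s) l, ← Real.rpow_mul (by positivity),
        ← Real.rpow_natCast (q : ℝ) (Mf K l), ← Real.rpow_mul (by positivity)]
      refine Real.rpow_le_rpow_of_exponent_le hqr ?_
      have h5 : (l : ℝ) * (1 - 1 / K) ≤ Mf K l := by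
        have h6 : (Mf K l : ℝ) = l - (l / K : ℕ) := by
          unfold Mf
          rw [Nat.cast_sub (Nat.div_le_self l K)]
        rw [h6]
        have h7 : ((l / K : ℕ) : ℝ) ≤ (l : ℝ) / K := Nat.cast_div_le
        have h8 : (l : ℝ) * (1 - 1 / K) = l - l / K := by ring
        linarith
      calc s * l = p * (l * (1 - 1 / K)) := by rw [hs]; ring
        _ ≤ p * Mf K l := mul_le_mul_of_nonneg_left h5 (by linarith)
        _ = Mf K l * p := by ring
    rw [hx l]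
    calc ((nn q B (Mf K) (l + 1) + 1 : ℕ) : ℝ) * (C * ((B * q ^ Mf K l : ℕ) : ℝ) ^ (-p))
        ≤ (2 * (Γ * B * ((q : ℝ) + 1) ^ (l + 1))) *
            (C * ((B : ℝ) ^ (-p) * (((q : ℝ) ^ s) ^ l)⁻¹)) := by
          refine mul_le_mul h1 (mul_le_mul_of_nonneg_left h4 hC.le) (by positivity) (by positivity)
      _ = (2 * Γ * C * (q + 1) * (B * (B : ℝ) ^ (-p))) * (((q : ℝ) + 1) ^ l *
            (((q : ℝ) ^ s) ^ l)⁻¹) := by rw [pow_succ]; ring
      _ = (2 * Γ * C * (q + 1) * (B : ℝ) ^ (1 - p)) * θ ^ l := by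
          congr 1
          · congr 1
            rw [sub_eq_add_neg, Real.rpow_add hB0, Real.rpow_one]
          · rw [hθ, div_pow, div_eq_mul_inv]
  set c : ℝ := 2 * Γ * C * (q + 1) * (B : ℝ) ^ (1 - p) with hc
  have hcb : c ≤ (1 - θ) / 2 := by
    rw [lt_div_iff₀ (by positivity)] at hBp
    rw [hc]
    nlinarith
  have hc0 : 0 ≤ c := by positivity
  have hsum : ∀ l, ∑ i ∈ Finset.range l, x i ≤ 1 / 2 := by
    intro l
    calc ∑ i ∈ Finset.range l, x i ≤ ∑ i ∈ Finset.range l, c * θ ^ i :=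
          Finset.sum_le_sum (fun i _ => hxb i)
      _ = c * ∑ i ∈ Finset.range l, θ ^ i := by rw [Finset.mul_sum]
      _ ≤ c * (1 - θ)⁻¹ := by
          refine mul_le_mul_of_nonneg_left ?_ hc0
          rw [← tsum_geometric_of_lt_one hθ0.le hθ1]
          exact (summable_geometric_of_lt_one hθ0.le hθ1).sum_le_tsum _
            (fun i _ => by positivity)
      _ ≤ (1 - θ) / 2 * (1 - θ)⁻¹ :=
          mul_le_mul_of_nonneg_right hcb (inv_nonneg.2 (by linarith))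
      _ = 1 / 2 := by
          have : 1 - θ ≠ 0 := by linarith
          field_simp
  have hx1 : ∀ l, x l ≤ 1 := by
    intro l
    have h1 := hsum (l + 1)
    rw [Finset.sum_range_succ] at h1
    have h2 : 0 ≤ ∑ i ∈ Finset.range l, x i := Finset.sum_nonneg (fun i _ => hx0 i)
    linarith
  refine ⟨hx1, fun l => ?_⟩
  have h1 := Vn_ge (q := q) hx0 hx1 l
  have h2 := hsum l
  have h3 : ((q : ℝ) + 1) ^ l * (1 / 2) ≤ Vn q x l := by
    refine le_trans (mul_le_mul_of_nonneg_left ?_ (by positivity)) h1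
    linarith
  calc (nn q B (Mf K) l : ℝ) ≤ Γ * B * ((q : ℝ) + 1) ^ l := hlen l
    _ = (2 * Γ * B) * (((q : ℝ) + 1) ^ l * (1 / 2)) := by ring
    _ ≤ (2 * Γ * B) * Vn q x l := mul_le_mul_of_nonneg_left h3 (by positivity)

end Pool.Agent.W_55e385w_h22
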