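import Pool.Agent.W_55e385w_h22.Iso2

set_option autoImplicit false

/-!
# Energy along a shortest path, and the Nash inequality under a growth condition
-/

namespace Pool.Agent.W_55e385w_h22

section

variable {H X : Type} [Group H] [MulAction H X] {S : Finset H}

/-- The points reached from `x` by words of length at most `r` in the letters `S`. -/
def reach (S : Finset H) (x : X) (r : ℕ) : Set X :=
  {y | ∃ l : List H, l.length ≤ r ∧ (∀ s ∈ l, s ∈ S) ∧ l.prod • x = y}

theorem reach_finite (S : Finset H) (x : X) (r : ℕ) : (reach S x r).Finite := by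
  classical
  have h1 : {l : List S | l.length ≤ r}.Finite := List.finite_length_le _ r
  refine (h1.image (fun l => (l.map (fun s : S => (s : H))).prod • x)).subset ?_
  rintro y ⟨l, hl, hs, rfl⟩
  refine ⟨l.attachWith (· ∈ S) hs, ?_, ?_⟩
  · simpa using hl
  · simp only
    congr 2
    exact (List.attachWith_map_val (f := fun s : H => s) ..).trans (List.map_id' _)

theorem path_energy (u : X → ℕ) (Z : Finset X) (hZ : ∀ z ∉ Z, u z = 0) (x : X) (hx : 0 < u x)
    (ρ : ℕ) (hρ : ∃ y ∈ reach S x ρ, 2 * u y < u x) :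
    (u x : ℝ) ^ 2 ≤ 4 * ρ * ∑ p ∈ Z ×ˢ S, ((u (p.2 • p.1) : ℝ) - u p.1) ^ 2 := by
  classical
  have hex : ∃ n, ∃ l : List H, l.length = n ∧ (∀ s ∈ l, s ∈ S) ∧ 2 * u (l.prod • x) < u x := by
    obtain ⟨y, ⟨l, h1, h2, h3⟩, h4⟩ := hρ
    exact ⟨l.length, l, rfl, h2, by rw [h3]; exact h4⟩
  set n := Nat.find hex with hn
  obtain ⟨l, hl, hlS, hlP⟩ := Nat.find_spec hex
  rw [← hn] at hl
  have hmin : ∀ l' : List H, l'.length < n → (∀ s ∈ l', s ∈ S) → u x ≤ 2 * u (l'.prod • x) := by
    intro l' h1 h2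
    by_contra h3
    push Not at h3
    exact Nat.find_min hex h1 ⟨l', rfl, h2, h3⟩
  have hnρ : n ≤ ρ := by
    obtain ⟨y, ⟨l', h1, h2, h3⟩, h4⟩ := hρ
    by_contra h5
    push Not at h5
    have := hmin l' (by omega) h2
    rw [h3] at this
    omega
  -- the points of the path
  set pt : ℕ → X := fun i => (l.drop (n - i)).prod • x with hpt
  set let' : ℕ → H := fun i => l.getD (n - 1 - i) 1 with hlet
  have hpt0 : pt 0 = x := by
    simp only [hpt]
    rw [Nat.sub_zero, List.drop_eq_nil_of_le (by omega), List.prod_nil, one_smul]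
  have hptn : pt n = l.prod • x := by
    simp only [hpt]
    rw [Nat.sub_self, List.drop_zero]
  have hstep : ∀ i < n, pt (i + 1) = let' i • pt i := by
    intro i hi
    simp only [hpt, hlet]
    have h1 : n - 1 - i < l.length := by omega
    have h2 : n - (i + 1) = n - 1 - i := by omega
    have h3 : n - i = n - 1 - i + 1 := by omega
    rw [h2, h3, List.drop_eq_getElem_cons h1, List.prod_cons, mul_smul]
    congr 1
    simp [List.getD, h1]
  have hletS : ∀ i < n, let' i ∈ S := by
    intro i hi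
    simp only [hlet]
    have h1 : n - 1 - i < l.length := by omega
    have h2 : l.getD (n - 1 - i) 1 = l[n - 1 - i] := by simp [List.getD, h1]
    rw [h2]
    exact hlS _ (List.getElem_mem _)
  have hptlow : ∀ i < n, u x ≤ 2 * u (pt i) := by
    intro i hi
    refine hmin _ ?_ (fun s hs => hlS s (List.mem_of_mem_drop hs))
    rw [List.length_drop]
    omega
  have hptZ : ∀ i < n, pt i ∈ Z := by
    intro i hi
    by_contra h
    have h1 := hptlow i hi
    rw [hZ _ h] at h1
    omega
  have hinj : ∀ i j, i < j → j < n → pt i ≠ pt j := by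
    intro i j hij hj heq
    have h1 : ((l.take (n - j)) ++ (l.drop (n - i))).prod • x = l.prod • x := by
      rw [List.prod_append, mul_smul]
      have h2 : (l.drop (n - i)).prod • x = (l.drop (n - j)).prod • x := heq
      rw [h2, ← mul_smul, ← List.prod_append, List.take_append_drop]
    have h3 := hmin ((l.take (n - j)) ++ (l.drop (n - i))) (by
      rw [List.length_append, List.length_take, List.length_drop]
      omega) (fun s hs => by
        rcases List.mem_append.1 hs with h | h
        · exact hlS s (List.mem_of_mem_take h)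
        · exact hlS s (List.mem_of_mem_drop h))
    rw [h1] at h3
    omega
  -- telescoping
  have htel : (u x : ℝ) - u (l.prod • x) =
      ∑ i ∈ Finset.range n, ((u (pt i) : ℝ) - u (pt (i + 1))) := by
    rw [Finset.sum_range_sub' (fun i => (u (pt i) : ℝ)), hpt0, hptn]
  have hcs : ((u x : ℝ) / 2) ^ 2 ≤
      n * ∑ i ∈ Finset.range n, ((u (pt i) : ℝ) - u (pt (i + 1))) ^ 2 := by
    have h1 : (u x : ℝ) / 2 ≤ ∑ i ∈ Finset.range n, ((u (pt i) : ℝ) - u (pt (i + 1))) := by
      rw [← htel]
      have : 2 * (u (l.prod • x) : ℝ) < u x := by exact_mod_cast hlP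
      linarith
    calc ((u x : ℝ) / 2) ^ 2 ≤ (∑ i ∈ Finset.range n, ((u (pt i) : ℝ) - u (pt (i + 1)))) ^ 2 :=
          pow_le_pow_left₀ (by positivity) h1 2
      _ ≤ _ := by
          have := sq_sum_le_card_mul_sum_sq (s := Finset.range n)
            (f := fun i => (u (pt i) : ℝ) - u (pt (i + 1)))
          rwa [Finset.card_range] at this
  have hE : ∑ i ∈ Finset.range n, ((u (pt i) : ℝ) - u (pt (i + 1))) ^ 2 ≤
      ∑ p ∈ Z ×ˢ S, ((u (p.2 • p.1) : ℝ) - u p.1) ^ 2 := by
    have h1 : ∑ i ∈ Finset.range n, ((u (pt i) : ℝ) - u (pt (i + 1))) ^ 2 =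
        ∑ p ∈ (Finset.range n).image (fun i => (pt i, let' i)),
          ((u (p.2 • p.1) : ℝ) - u p.1) ^ 2 := by
      rw [Finset.sum_image]
      · refine Finset.sum_congr rfl (fun i hi => ?_)
        rw [← hstep i (Finset.mem_range.1 hi)]
        ring
      · intro i hi j hj h
        simp only [Finset.coe_range, Set.mem_Iio] at hi hj
        by_contra hne
        rcases lt_or_gt_of_ne hne with h2 | h2
        · exact hinj i j h2 hj (congrArg Prod.fst h)
        · exact hinj j i h2 hi (congrArg Prod.fst h).symm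
    rw [h1]
    refine Finset.sum_le_sum_of_subset_of_nonneg ?_ (fun p _ _ => by positivity)
    intro p hp
    obtain ⟨i, hi, rfl⟩ := Finset.mem_image.1 hp
    rw [Finset.mem_range] at hi
    exact Finset.mem_product.2 ⟨hptZ i hi, hletS i hi⟩
  have hE0 : 0 ≤ ∑ p ∈ Z ×ˢ S, ((u (p.2 • p.1) : ℝ) - u p.1) ^ 2 :=
    Finset.sum_nonneg (fun p _ => by positivity)
  have h1 : ((u x : ℝ) / 2) ^ 2 ≤ ρ * ∑ p ∈ Z ×ˢ S, ((u (p.2 • p.1) : ℝ) - u p.1) ^ 2 :=
    hcs.trans (mul_le_mul (by exact_mod_cast hnρ) hE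
      (Finset.sum_nonneg (fun i _ => by positivity)) (Nat.cast_nonneg _))
  linarith

end

end Pool.Agent.W_55e385w_h22
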