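import Pool.Agent.W_55e385w_h22.Heat

set_option autoImplicit false

/-!
# Off-diagonal bounds
-/

namespace Pool.Agent.W_55e385w_h22

section

variable {H X : Type} [Group H] [MulAction H X] {S : Finset H}

theorem uniform (hS : ∀ s ∈ S, s⁻¹ ∈ S) (hgen : Subgroup.closure (S : Set H) = ⊤) [Infinite X]
    (h1 : (1 : H) ∈ S) (o : X) (htr : ∀ x : X, ∃ g : H, g • o = x) :
    ∃ C : ℝ, 0 ≤ C ∧ ∀ n : ℕ, 1 ≤ n → ∀ x y : X,
      (cnt S n x y : ℝ) ≤ C * (n : ℝ) ^ (-(1 / 2) : ℝ) * (S.card : ℝ) ^ n := by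
  classical
  set d : ℝ := (S.card : ℝ) with hd
  have hd1 : 1 ≤ d := by
    have : 1 ≤ S.card := Finset.card_pos.2 ⟨1, h1⟩
    rw [hd]
    exact_mod_cast this
  set κ : ℝ := 1 / (4 * d ^ 3) with hκ
  have hκ0 : 0 < κ := by positivity
  have hκ1 : κ ≤ 1 := by
    rw [hκ, div_le_one (by positivity)]
    have : 1 ≤ d ^ 3 := one_le_pow₀ hd1
    linarith
  have hdiag : ∀ (r : ℕ) (x : X) (n : ℕ), 1 ≤ n → n ≤ 2 * r + 1 →
      (cnt S (2 * r) x x : ℝ) ≤ Real.sqrt κ⁻¹ * (n : ℝ) ^ (-(1 / 2) : ℝ) * d ^ (2 * r) := by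
    intro r x n hn hnr
    obtain ⟨h2, -⟩ := diag hS hgen h1 o htr x r
    set b : ℝ := (cnt S (2 * r) x x : ℝ) / (S.card : ℝ) ^ (2 * r) with hb
    have hnr' : (n : ℝ) ≤ 2 * r + 1 := by exact_mod_cast hnr
    have hn' : (1 : ℝ) ≤ n := by exact_mod_cast hn
    have hT : κ * n ≤ 1 + 2 * (1 / (4 * (S.card : ℝ) ^ 3)) * r := by
      have h3 : κ * n ≤ κ * (2 * r + 1) := mul_le_mul_of_nonneg_left hnr' hκ0.le
      have h4 : 2 * (1 / (4 * (S.card : ℝ) ^ 3)) * r = 2 * κ * r := rfl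
      rw [h4]
      linarith
    have h3 : b ^ 2 ≤ κ⁻¹ * (n : ℝ)⁻¹ := by
      rw [← mul_inv, ← one_div, le_div_iff₀ (by positivity)]
      exact (mul_le_mul_of_nonneg_left hT (sq_nonneg b)).trans h2
    have h4 : b ≤ Real.sqrt κ⁻¹ * (n : ℝ) ^ (-(1 / 2) : ℝ) := by
      have h5 : b ≤ Real.sqrt (κ⁻¹ * (n : ℝ)⁻¹) := Real.le_sqrt_of_sq_le h3
      rw [Real.sqrt_mul (by positivity), Real.sqrt_eq_rpow (n : ℝ)⁻¹,
        Real.inv_rpow (by positivity), ← Real.rpow_neg (by positivity)] at h5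
      exact h5
    have hdp : 0 < (S.card : ℝ) ^ (2 * r) := by positivity
    rw [hb, div_le_iff₀ hdp] at h4
    exact h4
  have heven : ∀ (r : ℕ) (x y : X) (n : ℕ), 1 ≤ n → n ≤ 2 * r + 1 →
      (cnt S (2 * r) x y : ℝ) ≤ Real.sqrt κ⁻¹ * (n : ℝ) ^ (-(1 / 2) : ℝ) * d ^ (2 * r) := by
    intro r x y n hn hnr
    obtain ⟨Z1, hZ1⟩ := cnt_supp hS r x
    obtain ⟨Z2, hZ2⟩ := cnt_supp hS r y
    have hZx : ∀ z ∉ Z1 ∪ Z2, cnt S r x z = 0 :=
      fun z hz => hZ1 z (fun h => hz (Finset.mem_union_left _ h))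
    have hZy : ∀ z ∉ Z1 ∪ Z2, cnt S r y z = 0 :=
      fun z hz => hZ2 z (fun h => hz (Finset.mem_union_right _ h))
    have h2 : (cnt S (2 * r) x y : ℝ) = ∑ z ∈ Z1 ∪ Z2, (cnt S r x z : ℝ) * cnt S r y z := by
      rw [two_mul, cnt_conv hS r r x y _ hZx]
      push_cast
      refine Finset.sum_congr rfl (fun z _ => ?_)
      rw [cnt_symm hS r z y]
    have h3 : (cnt S (2 * r) x x : ℝ) = ∑ z ∈ Z1 ∪ Z2, (cnt S r x z : ℝ) ^ 2 := by
      rw [← cnt_sq hS r x _ hZx]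
      push_cast
      rfl
    have h4 : (cnt S (2 * r) y y : ℝ) = ∑ z ∈ Z1 ∪ Z2, (cnt S r y z : ℝ) ^ 2 := by
      rw [← cnt_sq hS r y _ hZy]
      push_cast
      rfl
    have h5 : (cnt S (2 * r) x y : ℝ) ≤
        (1 / 2) * ((cnt S (2 * r) x x : ℝ) + cnt S (2 * r) y y) := by
      rw [h2, h3, h4, ← Finset.sum_add_distrib, Finset.mul_sum]
      refine Finset.sum_le_sum (fun z _ => ?_)
      nlinarith [sq_nonneg ((cnt S r x z : ℝ) - cnt S r y z)]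
    have h6 := hdiag r x n hn hnr
    have h7 := hdiag r y n hn hnr
    linarith
  refine ⟨Real.sqrt κ⁻¹, Real.sqrt_nonneg _, fun n hn x y => ?_⟩
  obtain ⟨r, hr⟩ := Nat.even_or_odd' n
  rcases hr with hr | hr
  · have h2 := heven r x y n hn (by omega)
    rwa [← hr] at h2
  · have h2 : (cnt S n x y : ℝ) = ∑ s ∈ S, (cnt S (2 * r) x (s • y) : ℝ) := by
      rw [hr, cnt_succ hS]
      push_cast
      rfl
    rw [h2]
    calc ∑ s ∈ S, (cnt S (2 * r) x (s • y) : ℝ)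
        ≤ ∑ s ∈ S, Real.sqrt κ⁻¹ * (n : ℝ) ^ (-(1 / 2) : ℝ) * d ^ (2 * r) :=
          Finset.sum_le_sum (fun s _ => heven r x (s • y) n hn (by omega))
      _ = Real.sqrt κ⁻¹ * (n : ℝ) ^ (-(1 / 2) : ℝ) * d ^ n := by
          rw [Finset.sum_const, nsmul_eq_mul, ← hd, hr, pow_succ]
          ring

end

end Pool.Agent.W_55e385w_h22
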