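import Mathlib

set_option autoImplicit false

/-!
# Words, inverse words, visited points
-/

namespace Pool.Agent.W_55e385w_h22

open scoped Classical in
/-- The points `g • o`, where `g` runs through the products of the prefixes of `w`. -/
noncomputable def vis {H X : Type} [Group H] [MulAction H X] (o : X) : List H → Finset X
  | [] => {o}
  | s :: w => insert o ((vis o w).image (fun x => s • x))

/-- The inverse word. -/
def linv {H : Type} [Group H] (w : List H) : List H := (w.map (fun x => x⁻¹)).reverse

section

variable {H X : Type} [Group H] [MulAction H X] (o : X)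

theorem linv_nil : linv ([] : List H) = [] := rfl

theorem linv_cons (s : H) (w : List H) : linv (s :: w) = linv w ++ [s⁻¹] := by
  simp [linv]

theorem linv_append (u w : List H) : linv (u ++ w) = linv w ++ linv u := by
  simp [linv]

theorem linv_linv (w : List H) : linv (linv w) = w := by
  simp [linv, List.map_reverse]

theorem length_linv (w : List H) : (linv w).length = w.length := by
  simp [linv]

theorem prod_linv (w : List H) : (linv w).prod = w.prod⁻¹ := by
  rw [linv, List.prod_inv_reverse]

theorem linv_infix {v w : List H} (h : v <:+: w) : linv v <:+: linv w := by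
  obtain ⟨s, t, rfl⟩ := h
  rw [linv_append, linv_append]
  exact ⟨linv t, linv s, by simp⟩

theorem linv_prefix {v w : List H} (h : v <+: w) : linv v <:+ linv w := by
  obtain ⟨t, rfl⟩ := h
  rw [linv_append]
  exact ⟨linv t, rfl⟩

theorem linv_suffix {v w : List H} (h : v <:+ w) : linv v <+: linv w := by
  obtain ⟨t, rfl⟩ := h
  rw [linv_append]
  exact ⟨linv t, rfl⟩

theorem mem_linv {S : Set H} (hS : ∀ s ∈ S, s⁻¹ ∈ S) {w : List H} (hw : ∀ s ∈ w, s ∈ S) :
    ∀ s ∈ linv w, s ∈ S := by
  intro s hs
  rw [linv, List.mem_reverse, List.mem_map] at hs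
  obtain ⟨a, ha, rfl⟩ := hs
  exact hS a (hw a ha)

theorem mem_vis_self (w : List H) : o ∈ vis o w := by
  cases w <;> simp [vis]

theorem card_vis_le (w : List H) : (vis o w).card ≤ w.length + 1 := by
  classical
  induction w with
  | nil => simp [vis]
  | cons s w ih =>
    rw [vis, List.length_cons]
    exact (Finset.card_insert_le _ _).trans (Nat.succ_le_succ (Finset.card_image_le.trans ih))

theorem card_vis_pos (w : List H) : 1 ≤ (vis o w).card :=
  Finset.card_pos.2 ⟨o, mem_vis_self o w⟩

open scoped Classical in
theorem vis_append (u w : List H) :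
    vis o (u ++ w) = vis o u ∪ (vis o w).image (fun x => u.prod • x) := by
  induction u with
  | nil =>
    simp [vis, Finset.image_id', Finset.insert_eq_of_mem (mem_vis_self o w)]
  | cons s u ih =>
    rw [List.cons_append, vis, ih, vis, Finset.image_union, Finset.image_image,
      Finset.insert_union]
    congr 3
    funext x
    simp [mul_smul]

open scoped Classical in
theorem card_smul (g : H) (A : Finset X) : (A.image (fun x => g • x)).card = A.card :=
  Finset.card_image_of_injective _ (MulAction.injective g)

theorem card_vis_infix {v w : List H} (h : v <:+: w) : (vis o v).card ≤ (vis o w).card := by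
  classical
  obtain ⟨s, t, rfl⟩ := h
  rw [List.append_assoc, vis_append, vis_append, Finset.image_union]
  refine le_trans ?_ (Finset.card_le_card (Finset.subset_union_right))
  refine le_trans ?_ (Finset.card_le_card (Finset.subset_union_left))
  rw [card_smul]

open scoped Classical in
theorem vis_linv (w : List H) :
    vis o (linv w) = (vis o w).image (fun x => w.prod⁻¹ • x) := by
  induction w with
  | nil => simp [linv, vis]
  | cons s w ih =>
    rw [linv_cons, vis_append, ih, vis, vis, vis, prod_linv, List.prod_cons]
    simp only [Finset.image_insert, Finset.image_image, Finset.image_singleton]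
    have h1 : w.prod⁻¹ • o ∈ (vis o w).image (fun x => w.prod⁻¹ • x) :=
      Finset.mem_image_of_mem _ (mem_vis_self o w)
    have h2 : (fun x : X => (s * w.prod)⁻¹ • x) ∘ (fun x => s • x) =
        (fun x => w.prod⁻¹ • x) := by
      funext x
      simp [mul_smul]
    rw [h2]
    ext x
    simp only [Finset.mem_union, Finset.mem_insert, Finset.mem_singleton, mul_inv_rev, mul_smul]
    constructor
    · rintro (h | h | h)
      · exact Or.inr h
      · exact Or.inr (h ▸ h1)
      · exact Or.inl h
    · rintro (h | h)
      · exact Or.inr (Or.inr h)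
      · exact Or.inl h

theorem card_vis_linv (w : List H) : (vis o (linv w)).card = (vis o w).card := by
  classical
  rw [vis_linv, card_smul]

end

section

variable {H : Type} [Group H]

/-- The word `b` or its inverse occurs in `v`. -/
def HasB (b v : List H) : Prop := b <:+: v ∨ linv b <:+: v

theorem HasB.mono {b v w : List H} (h : HasB b v) (hvw : v <:+: w) : HasB b w :=
  h.imp (fun h => h.trans hvw) (fun h => h.trans hvw)

theorem HasB.linv {b v : List H} (h : HasB b v) : HasB b (linv v) := by
  rcases h with h | h
  · exact Or.inr (linv_infix h)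
  · left
    have := linv_infix h
    rwa [linv_linv] at this

/-- Every factor of length at least `D`, every prefix of length at least `β` and every suffix of
length at least `α` of the word `w` contains `b` or its inverse. -/
structure Cv (D α β : ℕ) (b w : List H) : Prop where
  inf : ∀ v, v <:+: w → D ≤ v.length → HasB b v
  pre : ∀ v, v <+: w → β ≤ v.length → HasB b v
  suf : ∀ v, v <:+ w → α ≤ v.length → HasB b v

theorem Cv.self {D : ℕ} {b : List H} (hD : b.length ≤ D) :
    Cv D b.length b.length b b := by
  refine ⟨fun v hv hl => ?_, fun v hv hl => ?_, fun v hv hl => ?_⟩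
  · rw [hv.eq_of_length_le (hD.trans hl)]
    exact Or.inl (List.infix_rfl)
  · rw [hv.eq_of_length_le hl]
    exact Or.inl (List.infix_rfl)
  · rw [hv.eq_of_length_le hl]
    exact Or.inl (List.infix_rfl)

theorem Cv.linv {D α β : ℕ} {b w : List H} (h : Cv D α β b w) : Cv D β α b (linv w) := by
  refine ⟨fun v hv hl => ?_, fun v hv hl => ?_, fun v hv hl => ?_⟩
  · have h1 := linv_infix hv
    rw [linv_linv] at h1
    have h2 := (h.inf _ h1 (by rwa [length_linv])).linv
    rwa [linv_linv] at h2
  · have h1 := linv_prefix hv
    rw [linv_linv] at h1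
    have h2 := (h.suf _ h1 (by rwa [length_linv])).linv
    rwa [linv_linv] at h2
  · have h1 := linv_suffix hv
    rw [linv_linv] at h1
    have h2 := (h.pre _ h1 (by rwa [length_linv])).linv
    rwa [linv_linv] at h2

theorem Cv.mono {D α β D' α' β' : ℕ} {b w : List H} (h : Cv D α β b w) (hD : D ≤ D')
    (hα : α ≤ α') (hβ : β ≤ β') : Cv D' α' β' b w :=
  ⟨fun v hv hl => h.inf v hv (hD.trans hl), fun v hv hl => h.pre v hv (hβ.trans hl),
    fun v hv hl => h.suf v hv (hα.trans hl)⟩

theorem Cv.append {D α α' β β' : ℕ} {b u w : List H} (h : Cv D α' β b u) (h' : Cv D α β' b w)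
    (h1 : α' + β' ≤ D) (h2 : β ≤ u.length) (h3 : α ≤ w.length) : Cv D α β b (u ++ w) := by
  refine ⟨fun v hv hl => ?_, fun v hv hl => ?_, fun v hv hl => ?_⟩
  · rcases List.infix_append_iff.1 hv with h4 | h4 | ⟨l1, l2, rfl, h4, h5⟩
    · exact h.inf v h4 hl
    · exact h'.inf v h4 hl
    · rw [List.length_append] at hl
      rcases Nat.lt_or_ge l1.length α' with h6 | h6
      · exact (h'.pre l2 h5 (by omega)).mono (List.suffix_append l1 l2).isInfix
      · exact (h.suf l1 h4 h6).mono (List.prefix_append l1 l2).isInfix
  · rcases Nat.lt_or_ge v.length u.length with h4 | h4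
    · exact h.pre v (List.prefix_of_prefix_length_le hv (List.prefix_append u w) h4.le) hl
    · exact (h.pre u List.prefix_rfl h2).mono
        (List.prefix_of_prefix_length_le (List.prefix_append u w) hv h4).isInfix
  · rcases Nat.lt_or_ge v.length w.length with h4 | h4
    · exact h'.suf v (List.suffix_of_suffix_length_le hv (List.suffix_append u w) h4.le) hl
    · exact (h'.suf w List.suffix_rfl h3).mono
        (List.suffix_of_suffix_length_le (List.suffix_append u w) hv h4).isInfix

theorem Cv.gap {D α β t : ℕ} {b c w : List H} (h : Cv D α β b w) (hc : c.length ≤ t)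
    (h1 : t + β ≤ D) (h3 : α ≤ w.length) : Cv D α (t + β) b (c ++ w) := by
  have key : ∀ v, v <+: c ++ w → t + β ≤ v.length → HasB b v := by
    intro v hv hl
    obtain ⟨r, hr⟩ := hv
    rcases List.append_eq_append_iff.1 hr with ⟨as, h4, h5⟩ | ⟨bs, h4, h5⟩
    · have : v.length ≤ c.length := by rw [h4]; simp
      have h6 : β = 0 := by omega
      have h7 := h.pre [] (List.nil_prefix) (by simp [h6])
      exact h7.mono (List.nil_infix)
    · have h6 : bs <+: w := ⟨r, h5.symm⟩
      rw [h4] at hl ⊢
      rw [List.length_append] at hl
      exact (h.pre bs h6 (by omega)).mono (List.suffix_append c bs).isInfix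
  refine ⟨fun v hv hl => ?_, key, fun v hv hl => ?_⟩
  · rcases List.infix_append_iff.1 hv with h4 | h4 | ⟨l1, l2, rfl, h4, h5⟩
    · have h5 := h4.length_le
      have h6 : β = 0 := by omega
      have h7 := h.pre [] (List.nil_prefix) (by simp [h6])
      exact h7.mono (List.nil_infix)
    · exact h.inf v h4 hl
    · rw [List.length_append] at hl
      have h6 := h4.length_le
      exact (h.pre l2 h5 (by omega)).mono (List.suffix_append l1 l2).isInfix
  · rcases Nat.lt_or_ge v.length w.length with h4 | h4
    · exact h.suf v (List.suffix_of_suffix_length_le hv (List.suffix_append c w) h4.le) hl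
    · exact (h.suf w List.suffix_rfl h3).mono
        (List.suffix_of_suffix_length_le (List.suffix_append c w) hv h4).isInfix

end

end Pool.Agent.W_55e385w_h22
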